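import Mathlib
import Pool.Agent.W187.WP.Stmts

/-!
# The bottom of the Weil form: statements

Upper bound of the bottom of the Weil form of length `L` by `exp (- c * exp L)`, `c < 4 π`, and
exponentially large negative values if the Riemann hypothesis fails.
-/

open Complex MeasureTheory Set Filter
open scoped ComplexConjugate
open Pool.Agent.W187.WP

namespace Pool.Agent.W187.WQ

/-- the value of the Weil form at `f` is `W` -/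
def Weil (f : ℝ → ℂ) (W : ℝ) : Prop :=
  HasSum (fun ρ : Zr => (mult ρ : ℂ) *
    (lap f ((ρ : ℂ) - 1 / 2) * conj (lap f (1 / 2 - conj (ρ : ℂ))))) (W : ℂ)

/-- an optimal window (Dolph, Chebyshev, mollified): supported in `[-1 - ε, 1 + ε]`, integral
`cosh c`, and Fourier transform bounded by `C / ω ^ 2` outside `[-c, c]` -/
def S_WIN : Prop := ∀ ε : ℝ, 0 < ε → ε ≤ 1 → ∃ C : ℝ, 0 < C ∧ ∀ c : ℝ, 1 ≤ c → ∃ h : ℝ → ℝ,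
  ContDiff ℝ 2 h ∧ (∀ x, h (-x) = h x) ∧ (∀ x, 1 + ε ≤ |x| → h x = 0) ∧
  (∫ x, h x = Real.cosh c) ∧
  ∀ ω : ℝ, c ≤ |ω| → |∫ x, h x * Real.cos (ω * x)| ≤ C / ω ^ 2

/-- Poisson summation for even functions -/
def S_POI : Prop := ∀ h : ℝ → ℝ, ContDiff ℝ 2 h → HasCompactSupport h → (∀ x, h (-x) = h x) →
  ∀ x : ℝ, 0 < x →
    Summable (fun n : ℕ => ∫ y, h y * Real.cos (2 * Real.pi * ((n : ℝ) + 1) / x * y)) ∧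
    ∑' n : ℕ, h (((n : ℝ) + 1) * x) =
      1 / x * (∑' n : ℕ, ∫ y, h y * Real.cos (2 * Real.pi * ((n : ℝ) + 1) / x * y)) +
        1 / (2 * x) * (∫ y, h y) - h 0 / 2

/-- `e^(u/2) ∑ h (n e^u)` -/
noncomputable def gq (h : ℝ → ℝ) (u : ℝ) : ℝ :=
  Real.exp (u / 2) * ∑' n : ℕ, h (((n : ℝ) + 1) * Real.exp u)

/-- a second difference of `gq` which kills `e^(u/2)` and `e^(-u/2)` -/
noncomputable def qq (ε : ℝ) (h : ℝ → ℝ) (u : ℝ) : ℝ :=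
  gq h (u + ε) + gq h (u - ε) - 2 * Real.cosh (ε / 2) * gq h u

/-- Mellin transform of `qq` at the zeros of zeta and at `1` -/
def S_MEL : Prop := ∀ (ε : ℝ) (h : ℝ → ℝ), 0 < ε → ε ≤ 1 → ContDiff ℝ 2 h →
  (∀ x, h (-x) = h x) → (∀ x, 2 ≤ |x| → h x = 0) →
  (∃ A : ℝ, ∀ u ≤ 0, |qq ε h u| ≤ A * Real.exp (3 / 2 * u)) →
  (∀ ρ : Zr, ∫ u : ℝ, (qq ε h u : ℂ) * cexp (((ρ : ℂ) - 1 / 2) * u) = 0) ∧
  ∫ u : ℝ, qq ε h u * Real.exp (u / 2) = ε * Real.sinh (ε / 2) * ∫ x, h x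

/-- functions `q` whose transform vanishes at the zeros of zeta -/
def S_QX : Prop := ∀ ε : ℝ, 0 < ε → ε ≤ 1 / 2 → ∃ C : ℝ, 0 < C ∧ ∀ c : ℝ, 1 ≤ c → ∃ q : ℝ → ℝ,
  Continuous q ∧ (∀ u, 2 * ε ≤ u → q u = 0) ∧
  (∀ u, u ≤ Real.log (2 * Real.pi / c) - ε → |q u| ≤ C * Real.exp (3 / 2 * u)) ∧
  (∀ ρ : Zr, ∫ u : ℝ, (q u : ℂ) * cexp (((ρ : ℂ) - 1 / 2) * u) = 0) ∧
  ∫ u : ℝ, q u * Real.exp (u / 2) = ε * Real.sinh (ε / 2) * Real.cosh c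

/-- unconditional upper bound of the bottom of the Weil form of length `L` -/
def S_UP : Prop := ∀ c : ℝ, c < 4 * Real.pi → ∀ᶠ L : ℝ in atTop, ∃ f : ℝ → ℂ,
  ContDiff ℝ 2 f ∧ (∀ u, L / 2 < |u| → f u = 0) ∧ 0 < ∫ u, ‖f u‖ ^ 2 ∧
  ∀ W : ℝ, Weil f W → W ≤ Real.exp (-(c * Real.exp L)) * ∫ u, ‖f u‖ ^ 2

/-- averaging and difference operators applied to a bump function -/
def S_KO : Prop := ∀ (b : ℝ → ℂ) (δ₀ B : ℝ), ContDiff ℝ 2 b → (∀ u, δ₀ < |u| → b u = 0) →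
  (∀ u, ‖b u‖ ≤ B) → ∀ (Z : List ℂ) (d h : ℝ) (N : ℕ), 0 < d → d ≤ 1 → 0 < h →
  (∀ w ∈ Z, |w.re| ≤ 1 / 2) → ∃ k : ℝ → ℂ, ContDiff ℝ 2 k ∧
    (∀ u, δ₀ + Z.length * d + N * h < |u| → k u = 0) ∧
    (∀ u, ‖k u‖ ≤ 3 ^ Z.length * B) ∧
    ∀ z : ℂ, lap k z = (Z.map fun w => 1 - cexp ((z - w) * d)).prod *
      (∫ t in (0 : ℝ)..1, cexp (z * h * t)) ^ N * lap b z

/-- localised functions whose transform is large at one zero and small at all other zeros with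
real part at least `σ > 1/2` -/
def S_KK : Prop := ∀ (ρ₀ : ℂ) (σ δ η : ℝ), ρ₀ ∈ Zr → 1 / 2 < σ → σ < 1 → 0 < δ → 0 < η →
  ∀ᶠ L : ℝ in atTop, ∃ k : ℝ → ℂ, ContDiff ℝ 2 k ∧ (∀ u, δ < |u| → k u = 0) ∧
    (∀ u, ‖k u‖ ≤ Real.exp (η * L)) ∧
    Real.exp (-(η * L)) ≤ ‖lap k (ρ₀ - 1 / 2)‖ ∧
    (∀ z : ℂ, |z.re| ≤ 1 / 2 → ‖lap k z‖ ≤ Real.exp (η * L) / (1 + z.im ^ 2)) ∧
    (∀ ρ ∈ Zr, ρ ≠ ρ₀ → σ ≤ ρ.re → ‖lap k (ρ - 1 / 2)‖ ≤ Real.exp (-L) / (1 + ρ.im ^ 2))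

/-- exponentially large negative values of the Weil form if zeta has a zero to the right of `θ` -/
def S_NEG : Prop := ∀ θ : ℝ, 1 / 2 ≤ θ → (∃ s : ℂ, riemannZeta s = 0 ∧ θ < s.re) →
  ∀ᶠ L : ℝ in atTop, ∃ f : ℝ → ℂ,
    ContDiff ℝ 2 f ∧ (∀ u, L / 2 < |u| → f u = 0) ∧ 0 < ∫ u, ‖f u‖ ^ 2 ∧
    ∀ W : ℝ, Weil f W → W ≤ -Real.exp ((θ - 1 / 2) * L) * ∫ u, ‖f u‖ ^ 2

/-- on the Riemann hypothesis the Weil form is nonnegative -/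
def S_RHP : Prop := RiemannHypothesis → ∀ (f : ℝ → ℂ) (W : ℝ), Weil f W → 0 ≤ W

end Pool.Agent.W187.WQ
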