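import Mathlib
import Pool.Agent.W187.WP.Stmts4

/-!
# General form of the Weil positivity project: statements
-/

open Complex MeasureTheory Set
open Pool.Agent.W187.WP

namespace Pool.Agent.W187.WQ

/-- polynomial minorant of `-1/2 log (1-x^2)` -/
noncomputable def Umm (m : ℕ) (x : ℝ) : ℝ :=
  ∑ k ∈ Finset.range m, x ^ (2 * (k + 1)) / (2 * ((k : ℝ) + 1))

/-- lower bound of the logarithmic part by the energy and a polynomial potential -/
def S_ENg : Prop := ∀ (m : ℕ) (h : ℝ → ℝ), ContDiff ℝ 1 h → (∀ x, 1 ≤ |x| → h x = 0) →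
  1 / 2 * EE h + (∫ x in (-1 : ℝ)..1, (Real.log 2 + Umm m x) * h x ^ 2) ≤
    ∫ s in (0 : ℝ)..2, (GG h 0 - GG h s) / s

/-- The Weil form (divided by `a`) of `u ↦ h (u / a)`, when only prime powers `n ≤ M` contribute -/
noncomputable def QN (M : ℕ) (a : ℝ) (h : ℝ → ℝ) : ℝ :=
  -(Real.eulerMascheroniConstant + Real.log (4 * Real.pi * a)) * GG h 0
  + (∫ s in (0 : ℝ)..2, (GG h 0 / s - a * Real.exp (a * s / 2) / Real.sinh (a * s) * GG h s))
  - (∑ n ∈ Finset.range (M + 1), 2 * (ArithmeticFunction.vonMangoldt n / Real.sqrt n) *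
      GG h (Real.log n / a))
  + 2 * a * ((∫ x in (-1 : ℝ)..1, h x * Real.cosh (a * x / 2)) ^ 2 -
      (∫ x in (-1 : ℝ)..1, h x * Real.sinh (a * x / 2)) ^ 2)

/-- the explicit formula for an autocorrelation, in terms of `QN` -/
def S_LINKg : Prop := ∀ (M : ℕ) (f : ℝ → ℝ) (a : ℝ), 0 < a → ContDiff ℝ 2 f →
  (∀ x, a ≤ |x| → f x = 0) → (∀ y, Real.log ((M : ℝ) + 1) ≤ y → GG f y = 0) →
  WW (fun y => ((GG f y : ℝ) : ℂ)) = ((a * QN M a (fun x => f (a * x)) : ℝ) : ℂ)

/-- rational parameters of the quadratic form -/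
structure Prm where
  a : ℚ
  c2 : ℚ
  bt : List ℚ
  cp : List ℚ
  sp : List ℚ
  m : ℕ
  R : ℕ
  lam : List ℚ

/-- `λ_r` -/
noncomputable def Prm.la (p : Prm) (r : ℕ) : ℝ := ((p.lam.getD r 0 : ℚ) : ℝ)

/-- the quadratic form with rational coefficients and shifts `ell r`, `r < R` -/
noncomputable def Qg (p : Prm) (ell : ℕ → ℝ) (h : ℝ → ℝ) : ℝ :=
  1 / 2 * EE h + (∫ x in (-1 : ℝ)..1, Umm p.m x * h x ^ 2)
  - (p.c2 : ℝ) * (∫ x in (-1 : ℝ)..1, h x ^ 2)
  - (∫ x in (-1 : ℝ)..1, (∫ y in x..1, ev p.bt (y - x) * (h x * h y)))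
  - (∑ r ∈ Finset.range p.R, 2 * p.la r * (∫ x in (-1 : ℝ)..(1 - ell r), h x * h (x + ell r)))
  + 2 * (p.a : ℝ) * ((∫ x in (-1 : ℝ)..1, h x * ev p.cp x) ^ 2 -
      (∫ x in (-1 : ℝ)..1, h x * ev p.sp x) ^ 2)

/-- the bilinear form of `Qg` -/
noncomputable def Cg (p : Prm) (ell : ℕ → ℝ) (v w : ℝ → ℝ) : ℝ :=
  1 / 2 * (∫ x in (-1 : ℝ)..1, (∫ y in x..1, (v y - v x) * (w y - w x) / (y - x)))
  + (∫ x in (-1 : ℝ)..1, Umm p.m x * (v x * w x)) - (p.c2 : ℝ) * (∫ x in (-1 : ℝ)..1, v x * w x)
  - (∫ x in (-1 : ℝ)..1, (∫ y in x..1, ev p.bt (y - x) * ((v x * w y + v y * w x) / 2)))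
  - (∑ r ∈ Finset.range p.R, p.la r *
      (∫ x in (-1 : ℝ)..(1 - ell r), (v x * w (x + ell r) + w x * v (x + ell r))))
  + 2 * (p.a : ℝ) * ((∫ x in (-1 : ℝ)..1, v x * ev p.cp x) * (∫ x in (-1 : ℝ)..1, w x * ev p.cp x) -
      (∫ x in (-1 : ℝ)..1, v x * ev p.sp x) * (∫ x in (-1 : ℝ)..1, w x * ev p.sp x))

def S_R1g : Prop := ∀ (p : Prm) (ell : ℕ → ℝ),
  (∀ v w : ℝ → ℝ, ContDiff ℝ 1 v → ContDiff ℝ 1 w →
    Qg p ell (fun x => v x + w x) = Qg p ell v + 2 * Cg p ell v w + Qg p ell w) ∧
  (∀ v : ℝ → ℝ, ContDiff ℝ 1 v → Qg p ell v = Cg p ell v v) ∧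
  (∀ v v' w : ℝ → ℝ, ContDiff ℝ 1 v → ContDiff ℝ 1 v' → ContDiff ℝ 1 w →
    Cg p ell (fun x => v x + v' x) w = Cg p ell v w + Cg p ell v' w) ∧
  (∀ (c : ℝ) (v w : ℝ → ℝ), ContDiff ℝ 1 v → ContDiff ℝ 1 w →
    Cg p ell (fun x => c * v x) w = c * Cg p ell v w)

/-- truncated symmetric shift on `[-1, 1]` -/
noncomputable def shf (l : ℝ) (v : ℝ → ℝ) (x : ℝ) : ℝ :=
  (if l - 1 ≤ x then v (x - l) else 0) + (if x ≤ 1 - l then v (x + l) else 0)

/-- the shift term -/
def S_SHg : Prop := ∀ (l s : ℝ) (v w : ℝ → ℝ), 0 < l → l < 2 → (s = 1 ∨ s = -1) →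
  Continuous v → Continuous w → Par s v → Par s w →
  (∫ x in (-1 : ℝ)..(1 - l), (v x * w (x + l) + w x * v (x + l))) =
    (∫ x in (-1 : ℝ)..1, w x * shf l v x) ∧
  (∫ x in (-1 : ℝ)..1, w x * shf l v x) = 2 * ∫ x in (l - 1)..1, w x * v (x - l)

/-- products of two shifts -/
def S_SHSH : Prop := ∀ (l l' s : ℝ) (v w : ℝ → ℝ), 0 < l → l < 2 → 0 < l' → l' < 2 →
  (s = 1 ∨ s = -1) → Continuous v → Continuous w → Par s v → Par s w →
  (∫ x in (-1 : ℝ)..1, shf l v x * shf l' w x) =
    2 * ((∫ x in (max l l' - 1)..1, v (x - l) * w (x - l')) +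
      (if l + l' < 2 then ∫ x in (l - 1)..(1 - l'), v (x - l) * w (x + l') else 0))

/-- comparison of the Weil form with the rational form, general version: `e1` error of the kernel,
`e2` error of the `λ_r`, `e3` error of `cosh` and `sinh` -/
def S_QQg : Prop := ∀ (p : Prm) (M : ℕ) (a : ℝ) (ns : ℕ → ℕ) (e1 e2 e3 : ℝ), 0 < a → a ≤ 2 →
  0 ≤ e1 → 0 ≤ e2 → 0 ≤ e3 → e3 ≤ 1 → a = (p.a : ℝ) →
  (∀ r < p.R, 2 ≤ ns r) → (∀ r < p.R, ∀ r' < p.R, ns r = ns r' → r = r') →
  (∀ n, n ≤ M → ArithmeticFunction.vonMangoldt n ≠ 0 → ∃ r < p.R, ns r = n) →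
  (∀ r < p.R, ns r ≤ M) → (∀ r < p.R, Real.log (ns r) / a < 2) →
  Real.eulerMascheroniConstant + Real.log (4 * Real.pi * a) - Real.log 2 ≤ (p.c2 : ℝ) →
  (∀ s : ℝ, 0 < s → s ≤ 2 → |a * Real.exp (a * s / 2) / Real.sinh (a * s) - 1 / s - ev p.bt s| ≤ e1) →
  (∀ r < p.R, |ArithmeticFunction.vonMangoldt (ns r) / Real.sqrt (ns r) - p.la r| ≤ e2) →
  (∀ x : ℝ, |x| ≤ 1 → |Real.cosh (a * x / 2) - ev p.cp x| ≤ e3) →
  (∀ x : ℝ, |x| ≤ 1 → |Real.sinh (a * x / 2) - ev p.sp x| ≤ e3) →
  ∀ h : ℝ → ℝ, ContDiff ℝ 2 h → (∀ x, 1 ≤ |x| → h x = 0) →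
  Qg p (fun r => Real.log (ns r) / a) h - (2 * e1 + 2 * (p.R : ℝ) * e2 + 100 * e3) *
      (∫ x in (-1 : ℝ)..1, h x ^ 2) ≤ QN M a h

/-- logarithms to 150 digits -/
def S_LOGS : Prop :=
  |Real.log 2 - 69314718055994530941723212145817656807550013436025525412068000949339362196969471560586332699641868754200148102057068573368552023575813055703267075163507596 / 10 ^ 155| ≤ 1 / 10 ^ 150 ∧
  |Real.log 3 - 109861228866810969139524523692252570464749055782274945173469433363749429321860896687361575481373208878797002906595786574236800422593051982105280187076727741 / 10 ^ 155| ≤ 1 / 10 ^ 150 ∧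
  |Real.log 5 - 160943791243410037460075933322618763952560135426851772191264789147417898770765776463013387809317961079996630302171556289972400522932467619963361661746370572 / 10 ^ 155| ≤ 1 / 10 ^ 150

/-- the parameters for length `log 5`: `2 a = 1.60944` -/
def p5 : Prm where
  a := 10059 / 12500
  c2 := 10989159215774120419781/5000000000000000000000
  bt := [4023600000000000000000030788581320100783/10000000000000000000000000000000000000000,
    -67455654000000000004820856766025098471/2500000000000000000000000000000000000000,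
    -325697483321279997973391897425752481601/10000000000000000000000000000000000000000,
    1274074271838939108137468340403397183/2500000000000000000000000000000000000000,
    21970136743592966286761257835885068711/10000000000000000000000000000000000000000,
    -43497941414276270736413562267300541/5000000000000000000000000000000000000000,
    -723220851815768469832860085505744679/5000000000000000000000000000000000000000,
    1442480028162505583398350601503127/10000000000000000000000000000000000000000,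
    18988579686170904396626487728593907/2000000000000000000000000000000000000000,
    -11881327024035167768347498216837/5000000000000000000000000000000000000000,
    -6229659286975921667449127443708397/10000000000000000000000000000000000000000,
    25833975011418415356465005697/2000000000000000000000000000000000000000,
    409271197402012398583317607721821/10000000000000000000000000000000000000000,
    -419252535437190832662704540599/5000000000000000000000000000000000000000,
    -25719654352132703147606816917889/10000000000000000000000000000000000000000,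
    -596914487979213127769906444343/5000000000000000000000000000000000000000,
    1411387988149549579245740636919/5000000000000000000000000000000000000000,
    -386539589050483435385380638273/5000000000000000000000000000000000000000,
    84883785938222030703954250463/2500000000000000000000000000000000000000,
    -213237977088650897144992338837/10000000000000000000000000000000000000000,
    21233416790084562076884927651/2500000000000000000000000000000000000000,
    -20605497537649187249892627507/10000000000000000000000000000000000000000,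
    771387273795572499448258281/2500000000000000000000000000000000000000,
    -133587965009019455608914581/5000000000000000000000000000000000000000,
    2593032978321594141549019/2500000000000000000000000000000000000000]
  cp := [1, 0, 101183481/1250000000, 0, 3412698942425787/3125000000000000000, 0,
    5893269480100859098872269/1000000000000000000000000000000, 0,
    3407437259815229455511/200000000000000000000000000000, 0,
    30646787843307229611/1000000000000000000000000000000, 0,
    37587256672173431/1000000000000000000000000000000, 0,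
    33434808539173/1000000000000000000000000000000, 0,
    5638417191/250000000000000000000000000000]
  sp := [0, 10059/25000, 0, 339268211793/31250000000000, 0,
    34328338661860991433/390625000000000000000000, 0,
    169372564858098690501589/500000000000000000000000000000, 0,
    761675808810697624289/1000000000000000000000000000000, 0,
    560501888937868041/500000000000000000000000000000, 0,
    1163354507278131/1000000000000000000000000000000, 0,
    179371060851/200000000000000000000000000000, 0, 533805539/1000000000000000000000000000000]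
  m := 128
  R := 3
  lam := [245064535867136797928475430909/500000000000000000000000000000,
    126856820119512795437277554509/200000000000000000000000000000,
    346573590279972654708616060729/1000000000000000000000000000000]

/-- the prime powers below `5` -/
def ns5 (r : ℕ) : ℕ := [2, 3, 4].getD r 0

noncomputable def ell5 (r : ℕ) : ℝ := Real.log (ns5 r) / (10059 / 12500)

def S_N1_5 : Prop := Real.eulerMascheroniConstant +
  Real.log (4 * Real.pi * (10059 / 12500)) - Real.log 2 ≤ ((p5.c2 : ℚ) : ℝ)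

def S_N2_5 : Prop := ∀ s : ℝ, 0 < s → s ≤ 2 →
  |10059 / 12500 * Real.exp (10059 / 12500 * s / 2) / Real.sinh (10059 / 12500 * s)
    - 1 / s - ev p5.bt s| ≤ 1 / 10 ^ 20

def S_N3_5 : Prop :=
  (∀ r < 3, |ArithmeticFunction.vonMangoldt (ns5 r) / Real.sqrt (ns5 r) - p5.la r| ≤ 1 / 10 ^ 22) ∧
  (∀ x : ℝ, |x| ≤ 1 → |Real.cosh (10059 / 12500 * x / 2) - ev p5.cp x| ≤ 1 / 10 ^ 22) ∧
  (∀ x : ℝ, |x| ≤ 1 → |Real.sinh (10059 / 12500 * x / 2) - ev p5.sp x| ≤ 1 / 10 ^ 22)

/-- coercivity on functions orthogonal to the polynomials of degree `≤ 42` -/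
def S_R3_5 : Prop := ∀ w : ℝ → ℝ, ContDiff ℝ 1 w →
  (∀ k ≤ 42, ∫ x in (-1 : ℝ)..1, w x * x ^ k = 0) →
  (1001 / 1000) * (∫ x in (-1 : ℝ)..1, w x ^ 2) ≤ Qg p5 ell5 w

end Pool.Agent.W187.WQ
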