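import Mathlib
import Pool.Agent.W187.WQ.Stmts5

/-!
# Lower bound of the Weil form without orthogonality conditions
-/

open MeasureTheory Set
open Pool.Agent.W187.WP

namespace Pool.Agent.W187.WQ

/-- the Weil form (divided by `a`) is bounded below -/
def S_COER0 : Prop := ∀ (M : ℕ) (a : ℝ) (h : ℝ → ℝ), 0 < a → ContDiff ℝ 2 h →
  (∀ x, 1 ≤ |x| → h x = 0) →
  -(Real.eulerMascheroniConstant + Real.log (2 * Real.pi * a) + a + Real.exp a +
    ∑ n ∈ Finset.range (M + 1), 2 * (ArithmeticFunction.vonMangoldt n / Real.sqrt n)) *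
    (∫ x in (-1 : ℝ)..1, h x ^ 2) ≤ QN M a h

end Pool.Agent.W187.WQ
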