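import Mathlib
import Pool.Agent.W187.WQ.Stmts5

/-!
# All lengths: coercivity of the Weil form in explicit finite codimension
-/

open MeasureTheory Set
open Pool.Agent.W187.WP

namespace Pool.Agent.W187.WQ

/-- the Weil form (divided by `a`) on functions orthogonal to the polynomials of degree `< D` -/
def S_COER : Prop := ∀ (M D : ℕ) (a : ℝ) (h : ℝ → ℝ), 0 < a → ContDiff ℝ 2 h →
  (∀ x, 1 ≤ |x| → h x = 0) → 1 ≤ D → (∀ k < D, ∫ x in (-1 : ℝ)..1, h x * x ^ k = 0) →
  (Real.log D - (Real.eulerMascheroniConstant + Real.log (2 * Real.pi * a) + a + Real.exp a +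
    ∑ n ∈ Finset.range (M + 1), 2 * (ArithmeticFunction.vonMangoldt n / Real.sqrt n))) *
    (∫ x in (-1 : ℝ)..1, h x ^ 2) ≤ QN M a h

/-- Chebyshev bound for the prime terms of length `L` -/
def S_CHEBL : Prop := ∀ L : ℝ, Real.log 5 ≤ L →
  Real.eulerMascheroniConstant + Real.log (Real.pi * L) + L / 2 + Real.exp (L / 2) +
    (∑ n ∈ Finset.range (⌊Real.exp L⌋₊ + 1), 2 * (ArithmeticFunction.vonMangoldt n / Real.sqrt n)) +
    1 ≤ 13 * Real.exp (L / 2)

end Pool.Agent.W187.WQ
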