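import Mathlib
import Pool.Agent.W187.WP.R4
import Pool.Agent.W187.WQ.Stmts5

/-!
# Reduction to finitely many dimensions, general version
-/

open MeasureTheory Set
open Pool.Agent.W187.WP

namespace Pool.Agent.W187.WQ

/-- bounded measurable functions on `[-1, 1]` -/
def BM (f : ℝ → ℝ) : Prop := Measurable f ∧ ∃ C : ℝ, ∀ x ∈ Icc (-1 : ℝ) 1, |f x| ≤ C

theorem BM.of_cont {f : ℝ → ℝ} (hf : Continuous f) : BM f := by
  refine ⟨hf.measurable, ?_⟩
  obtain ⟨C, hC⟩ := (isCompact_Icc (a := (-1 : ℝ)) (b := 1)).exists_bound_of_continuousOn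
    hf.continuousOn
  exact ⟨C, fun x hx => hC x hx⟩

theorem BM.add {f g : ℝ → ℝ} (hf : BM f) (hg : BM g) : BM (fun x => f x + g x) := by
  obtain ⟨mf, C, hC⟩ := hf
  obtain ⟨mg, D, hD⟩ := hg
  exact ⟨mf.add mg, C + D, fun x hx => (abs_add_le _ _).trans (add_le_add (hC x hx) (hD x hx))⟩

theorem BM.sub {f g : ℝ → ℝ} (hf : BM f) (hg : BM g) : BM (fun x => f x - g x) := by
  obtain ⟨mf, C, hC⟩ := hf
  obtain ⟨mg, D, hD⟩ := hg
  exact ⟨mf.sub mg, C + D, fun x hx => (abs_sub _ _).trans (add_le_add (hC x hx) (hD x hx))⟩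

theorem BM.mul {f g : ℝ → ℝ} (hf : BM f) (hg : BM g) : BM (fun x => f x * g x) := by
  obtain ⟨mf, C, hC⟩ := hf
  obtain ⟨mg, D, hD⟩ := hg
  refine ⟨mf.mul mg, C * D, fun x hx => ?_⟩
  rw [abs_mul]
  exact mul_le_mul (hC x hx) (hD x hx) (abs_nonneg _) ((abs_nonneg _).trans (hC x hx))

theorem BM.cmul {f : ℝ → ℝ} (c : ℝ) (hf : BM f) : BM (fun x => c * f x) :=
  (BM.of_cont (f := fun _ => c) continuous_const).mul hf

theorem BM.zero : BM (fun _ => (0 : ℝ)) := BM.of_cont continuous_const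

theorem BM.sum {ι : Type} (s : Finset ι) {f : ι → ℝ → ℝ} (hf : ∀ i ∈ s, BM (f i)) :
    BM (fun x => ∑ i ∈ s, f i x) := by
  classical
  induction s using Finset.induction_on with
  | empty => simpa using BM.zero
  | insert a s ha ih =>
      have h1 := hf a (Finset.mem_insert_self a s)
      have h2 := ih (fun i hi => hf i (Finset.mem_insert_of_mem hi))
      have := h1.add h2
      convert this using 2
      rw [Finset.sum_insert ha]

theorem BM.ii {f : ℝ → ℝ} (hf : BM f) : IntervalIntegrable f volume (-1) 1 := by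
  obtain ⟨mf, C, hC⟩ := hf
  rw [intervalIntegrable_iff_integrableOn_Ioc_of_le (by norm_num)]
  refine Measure.integrableOn_of_bounded (M := C) (by simp) mf.aestronglyMeasurable ?_
  refine (ae_restrict_iff' measurableSet_Ioc).mpr (Filter.Eventually.of_forall fun x hx => ?_)
  exact hC x ⟨hx.1.le, hx.2⟩

theorem BM.shf {v : ℝ → ℝ} (hv : Continuous v) (l : ℝ) : BM (shf l v) := by
  have h1 : Measurable (fun x : ℝ => if l - 1 ≤ x then v (x - l) else 0) :=
    Measurable.ite (measurableSet_le measurable_const measurable_id)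
      (hv.measurable.comp (by fun_prop)) measurable_const
  have h2 : Measurable (fun x : ℝ => if x ≤ 1 - l then v (x + l) else 0) :=
    Measurable.ite (measurableSet_le measurable_id measurable_const)
      (hv.measurable.comp (by fun_prop)) measurable_const
  obtain ⟨_, C, hC⟩ := BM.of_cont (f := fun x => v (x - l)) (by fun_prop)
  obtain ⟨_, D, hD⟩ := BM.of_cont (f := fun x => v (x + l)) (by fun_prop)
  refine ⟨h1.add h2, C + D, fun x hx => ?_⟩
  have c0 : 0 ≤ C := (abs_nonneg _).trans (hC x hx)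
  have d0 : 0 ≤ D := (abs_nonneg _).trans (hD x hx)
  unfold Pool.Agent.W187.WQ.shf
  refine (abs_add_le _ _).trans (add_le_add ?_ ?_)
  · split_ifs
    · exact hC x hx
    · simpa using c0
  · split_ifs
    · exact hD x hx
    · simpa using d0

theorem shf_sum (n : ℕ) (c : ℕ → ℝ) (f : ℕ → ℝ → ℝ) (l x : ℝ) :
    shf l (fun x => ∑ k ∈ Finset.range n, c k * f k x) x =
      ∑ k ∈ Finset.range n, c k * shf l (f k) x := by
  unfold shf
  have : ∀ k, c k * ((if l - 1 ≤ x then f k (x - l) else 0) + (if x ≤ 1 - l then f k (x + l) else 0))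
      = (if l - 1 ≤ x then c k * f k (x - l) else 0) +
        (if x ≤ 1 - l then c k * f k (x + l) else 0) := by
    intro k
    split_ifs <;> ring
  simp only [this]
  rw [Finset.sum_add_distrib]
  congr 1
  · split_ifs
    · rfl
    · simp
  · split_ifs
    · rfl
    · simp

/-- potential of `x ^ (e + 2 k)` without the `U` part -/
def zs (p : Prm) (e k : ℕ) : List ℚ :=
  padd (ThL e k) (padd (List.replicate k 0 ++ [-p.c2]) (psm (-1) (Bmt e k p.bt)))

noncomputable def zfg (p : Prm) (e k : ℕ) (x : ℝ) : ℝ :=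
  x ^ e * ev (zs p e k) (x ^ 2) + Umm p.m x * ph e k x

theorem zfg_eq (p : Prm) (e k : ℕ) (he : e ≤ 1) (x : ℝ) :
    zfg p e k x = 1 / 2 * TT (e + 2 * k) x + Umm p.m x * ph e k x - (p.c2 : ℝ) * ph e k x -
      x ^ e * ev (Bmt e k p.bt) (x ^ 2) := by
  unfold zfg zs ph
  rw [ev_padd, ev_padd, ev_psm, ev_shift, mul_add, ThL_eq e k he]
  simp only [ev_cons, ev_nil, mul_zero, add_zero]
  rw [pow_add, pow_mul]
  push_cast
  ring

theorem continuous_Umm (m : ℕ) : Continuous (Umm m) := by
  unfold Umm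
  fun_prop

theorem continuous_zfg (p : Prm) (e k : ℕ) : Continuous (zfg p e k) := by
  have := continuous_ev (zs p e k)
  have := continuous_Umm p.m
  have := continuous_ph e k
  unfold zfg
  fun_prop

/-- parts of the bilinear form against a monomial -/
theorem crAg (hTX : S_TX) (hC : S_R2C) (hS : S_SHg) (p : Prm) (ell : ℕ → ℝ)
    (hell : ∀ r < p.R, 0 < ell r ∧ ell r < 2) (e k : ℕ) (he : e ≤ 1) (w : ℝ → ℝ)
    (hw : ContDiff ℝ 1 w) (hp : Par ((-1) ^ e) w) :
    Cg p ell (ph e k) w = (∫ x in (-1 : ℝ)..1, w x * zfg p e k x)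
      - (∑ r ∈ Finset.range p.R, p.la r * (∫ x in (-1 : ℝ)..1, w x * shf (ell r) (ph e k) x))
      + 2 * (p.a : ℝ) * ((∫ x in (-1 : ℝ)..1, ph e k x * ev p.cp x) *
          (∫ x in (-1 : ℝ)..1, w x * ev p.cp x) -
        (∫ x in (-1 : ℝ)..1, ph e k x * ev p.sp x) * (∫ x in (-1 : ℝ)..1, w x * ev p.sp x)) := by
  have cw : Continuous w := hw.continuous
  have cp := continuous_ph e k
  have cU := continuous_Umm p.m
  have cT := continuous_TT (e + 2 * k)
  have cB := continuous_ev (Bmt e k p.bt)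
  have h2 : ∫ x in (-1 : ℝ)..1, w x * zfg p e k x =
      1 / 2 * (∫ x in (-1 : ℝ)..1, w x * TT (e + 2 * k) x) +
        (∫ x in (-1 : ℝ)..1, Umm p.m x * (ph e k x * w x)) -
        (p.c2 : ℝ) * (∫ x in (-1 : ℝ)..1, ph e k x * w x) -
        ∫ x in (-1 : ℝ)..1, w x * (x ^ e * ev (Bmt e k p.bt) (x ^ 2)) := by
    have e1 : (fun x => w x * zfg p e k x) = fun x => 1 / 2 * (w x * TT (e + 2 * k) x) +
        Umm p.m x * (ph e k x * w x) - (p.c2 : ℝ) * (ph e k x * w x) -
        w x * (x ^ e * ev (Bmt e k p.bt) (x ^ 2)) := by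
      funext x; rw [zfg_eq p e k he x]; ring
    rw [e1, intervalIntegral.integral_sub (Continuous.intervalIntegrable (by fun_prop) _ _)
      (Continuous.intervalIntegrable (by fun_prop) _ _), intervalIntegral.integral_sub
      (Continuous.intervalIntegrable (by fun_prop) _ _)
      (Continuous.intervalIntegrable (by fun_prop) _ _), intervalIntegral.integral_add
      (Continuous.intervalIntegrable (by fun_prop) _ _)
      (Continuous.intervalIntegrable (by fun_prop) _ _), intervalIntegral.integral_const_mul,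
      intervalIntegral.integral_const_mul]
  have h3 := hTX (e + 2 * k) w hw
  have h4 := hC e k he p.bt w cw
  have hs : ((-1 : ℝ) ^ e = 1 ∨ (-1 : ℝ) ^ e = -1) := by
    interval_cases e
    · left; norm_num
    · right; norm_num
  have h5 : ∀ r ∈ Finset.range p.R,
      p.la r * (∫ x in (-1 : ℝ)..(1 - ell r),
        (ph e k x * w (x + ell r) + w x * ph e k (x + ell r))) =
      p.la r * (∫ x in (-1 : ℝ)..1, w x * shf (ell r) (ph e k) x) := by
    intro r hr
    rw [Finset.mem_range] at hr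
    rw [(hS (ell r) ((-1) ^ e) (ph e k) w (hell r hr).1 (hell r hr).2 hs cp cw (par_ph e k) hp).1]
  rw [h2]
  unfold Cg
  rw [Finset.sum_congr rfl h5]
  simp only [ph] at *
  rw [h3, h4]

/-- bilinear expansion -/
theorem int_bilg (n : ℕ) (c : ℕ → ℝ) (f g : ℕ → ℝ → ℝ) (hf : ∀ k, BM (f k))
    (hg : ∀ k, BM (g k)) :
    ∫ x in (-1 : ℝ)..1, (∑ k ∈ Finset.range n, c k * f k x) *
        (∑ l ∈ Finset.range n, c l * g l x) =
      ∑ k ∈ Finset.range n, ∑ l ∈ Finset.range n,
        (∫ x in (-1 : ℝ)..1, f k x * g l x) * (c k * c l) := by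
  have e1 : (fun x => (∑ k ∈ Finset.range n, c k * f k x) * (∑ l ∈ Finset.range n, c l * g l x)) =
      fun x => ∑ k ∈ Finset.range n, ∑ l ∈ Finset.range n, (c k * c l) * (f k x * g l x) := by
    funext x
    rw [Finset.sum_mul_sum]
    refine Finset.sum_congr rfl (fun k _ => Finset.sum_congr rfl (fun l _ => ?_))
    ring
  rw [e1, intervalIntegral.integral_finsetSum]
  · refine Finset.sum_congr rfl (fun k _ => ?_)
    rw [intervalIntegral.integral_finsetSum]
    · refine Finset.sum_congr rfl (fun l _ => ?_)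
      rw [intervalIntegral.integral_const_mul]; ring
    · intro l _
      exact (((hf k).mul (hg l)).cmul _).ii
  · intro k _
    exact (BM.sum (Finset.range n) (fun l _ => ((hf k).mul (hg l)).cmul (c k * c l))).ii

theorem int_ling (n : ℕ) (c : ℕ → ℝ) (f : ℕ → ℝ → ℝ) (w : ℝ → ℝ) (hf : ∀ k, BM (f k))
    (hw : BM w) :
    ∫ x in (-1 : ℝ)..1, w x * (∑ k ∈ Finset.range n, c k * f k x) =
      ∑ k ∈ Finset.range n, c k * (∫ x in (-1 : ℝ)..1, w x * f k x) := by
  have e1 : (fun x => w x * (∑ k ∈ Finset.range n, c k * f k x)) =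
      fun x => ∑ k ∈ Finset.range n, c k * (w x * f k x) := by
    funext x
    rw [Finset.mul_sum]
    refine Finset.sum_congr rfl (fun k _ => ?_)
    ring
  rw [e1, intervalIntegral.integral_finsetSum]
  · refine Finset.sum_congr rfl (fun k _ => ?_)
    rw [intervalIntegral.integral_const_mul]
  · intro k _
    exact ((hw.mul (hf k)).cmul _).ii

theorem Cg_sum (hR1 : S_R1g) (p : Prm) (ell : ℕ → ℝ) (n : ℕ) (c : ℕ → ℝ) (f : ℕ → ℝ → ℝ)
    (hf : ∀ k, ContDiff ℝ 1 (f k)) (w : ℝ → ℝ) (hw : ContDiff ℝ 1 w) :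
    Cg p ell (fun x => ∑ k ∈ Finset.range n, c k * f k x) w =
      ∑ k ∈ Finset.range n, c k * Cg p ell (f k) w := by
  obtain ⟨_, _, hadd, hsm⟩ := hR1 p ell
  induction n with
  | zero =>
      have h := hsm 0 w w hw hw
      simp only [zero_mul] at h
      simpa using h
  | succ n ih =>
      have e1 : (fun x => ∑ k ∈ Finset.range (n + 1), c k * f k x) =
          fun x => (fun x => ∑ k ∈ Finset.range n, c k * f k x) x + (fun x => c n * f n x) x := by
        funext x; rw [Finset.sum_range_succ]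
      rw [e1, hadd _ _ w (by
        apply ContDiff.sum
        intro k _
        exact contDiff_const.mul (hf k)) (contDiff_const.mul (hf n)) hw, ih,
        hsm (c n) (f n) w (hf n) hw, Finset.sum_range_succ]

/-- `∫_{-1}^1` of the product of two shifted monomials, divided by two -/
noncomputable def SS (l l' : ℝ) (N N' : ℕ) : ℝ :=
  (∫ x in (max l l' - 1)..1, (x - l) ^ N * (x - l') ^ N') +
    (if l + l' < 2 then ∫ x in (l - 1)..(1 - l'), (x - l) ^ N * (x + l') ^ N' else 0)

/-- the matrix of the reduced form -/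
def IsNg (p : Prm) (ell : ℕ → ℝ) (e n : ℕ) (dlt : ℝ) (yf : ℕ → ℝ → ℝ) (N : ℕ → ℕ → ℝ) : Prop :=
  ∀ k < n, ∀ l < n, N k l =
    2 * (∫ x in (0 : ℝ)..1, zfg p e k x * ph e l x)
    - (∑ r ∈ Finset.range p.R, 2 * p.la r *
        (∫ x in (ell r - 1)..1, (x - ell r) ^ (e + 2 * k) * ph e l x))
    + 2 * (p.a : ℝ) * ((∫ x in (-1 : ℝ)..1, ph e k x * ev p.cp x) *
          (∫ x in (-1 : ℝ)..1, ph e l x * ev p.cp x) -
        (∫ x in (-1 : ℝ)..1, ph e k x * ev p.sp x) * (∫ x in (-1 : ℝ)..1, ph e l x * ev p.sp x))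
    - 2 * (∫ x in (0 : ℝ)..1, yf k x * yf l x)
    + (∑ r ∈ Finset.range p.R, 4 * p.la r *
        (∫ x in (ell r - 1)..1, (x - ell r) ^ (e + 2 * k) * yf l x))
    - (∑ r ∈ Finset.range p.R, ∑ r' ∈ Finset.range p.R, 2 * (p.la r * p.la r') *
        SS (ell r) (ell r') (e + 2 * k) (e + 2 * l))
    - 2 * dlt * (∫ x in (0 : ℝ)..1, ph e k x * ph e l x)

theorem r4g (hR1 : S_R1g) (hTX : S_TX) (hC : S_R2C) (hS : S_SHg) (hSS : S_SHSH) (hP : S_PROJ)
    (p : Prm) (ell : ℕ → ℝ) (hell : ∀ r < p.R, 0 < ell r ∧ ell r < 2)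
    (e n K : ℕ) (he : e ≤ 1) (hn1 : K + 1 ≤ e + 2 * n) (hn2 : e + 2 * n ≤ K + 2)
    (hcp : p.cp.length ≤ K + 1) (hsp : p.sp.length ≤ K + 1) (cw dlt : ℝ) (hcw : 1 + dlt ≤ cw)
    (hR3 : ∀ w : ℝ → ℝ, ContDiff ℝ 1 w → (∀ k ≤ K, ∫ x in (-1 : ℝ)..1, w x * x ^ k = 0) →
      cw * (∫ x in (-1 : ℝ)..1, w x ^ 2) ≤ Qg p ell w)
    (yf : ℕ → ℝ → ℝ) (hyc : ∀ k, Continuous (yf k)) (hyp : ∀ k, Par ((-1) ^ e) (yf k))
    (hy : ∀ k < n, ∀ w : ℝ → ℝ, Continuous w →
      (∀ j < n, ∫ x in (-1 : ℝ)..1, w x * x ^ (e + 2 * j) = 0) →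
      ∫ x in (-1 : ℝ)..1, w x * yf k x = ∫ x in (-1 : ℝ)..1, w x * zfg p e k x)
    (N : ℕ → ℕ → ℝ) (hN : IsNg p ell e n dlt yf N)
    (hpsd : ∀ c : ℕ → ℝ, 0 ≤ ∑ k ∈ Finset.range n, ∑ l ∈ Finset.range n, N k l * (c k * c l))
    (h : ℝ → ℝ) (hh : ContDiff ℝ 1 h) (hpar : Par ((-1) ^ e) h) :
    dlt * (∫ x in (-1 : ℝ)..1, h x ^ 2) ≤ Qg p ell h := by
  have hs : ((-1 : ℝ) ^ e = 1 ∨ (-1 : ℝ) ^ e = -1) := by
    interval_cases e
    · left; norm_num
    · right; norm_num
  obtain ⟨c, hc⟩ := hP e n h hh.continuous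
  set v : ℝ → ℝ := fun x => ∑ j ∈ Finset.range n, c j * ph e j x with hv
  set w : ℝ → ℝ := fun x => h x - v x with hw
  have vC : ContDiff ℝ 1 v := by
    rw [hv]
    apply ContDiff.sum
    intro k _
    exact contDiff_const.mul (contDiff_ph e k)
  have wC : ContDiff ℝ 1 w := hh.sub vC
  have cv := vC.continuous
  have cw' := wC.continuous
  have ch := hh.continuous
  have vpar : Par ((-1) ^ e) v := by
    intro x
    simp only [hv]
    rw [Finset.mul_sum]
    refine Finset.sum_congr rfl (fun k _ => ?_)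
    rw [par_ph e k x]; ring
  have wpar : Par ((-1) ^ e) w := by
    intro x
    simp only [hw]
    rw [hpar x, vpar x]; ring
  have worth : ∀ k < n, ∫ x in (-1 : ℝ)..1, w x * x ^ (e + 2 * k) = 0 := fun k hk => hc k hk
  -- orthogonality to all monomials
  have worthK : ∀ k ≤ K, ∫ x in (-1 : ℝ)..1, w x * x ^ k = 0 := by
    intro k hk
    by_cases hke : (k + e) % 2 = 0
    · obtain ⟨j, hj⟩ : ∃ j, k = e + 2 * j := ⟨(k - e) / 2, by omega⟩
      rw [hj]
      exact worth j (by omega)
    · apply integral_odd_fun (by fun_prop)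
      intro x
      rw [wpar x, neg_pow]
      have : (-1 : ℝ) ^ e * (-1) ^ k = -1 := by
        rw [← pow_add]
        exact Odd.neg_one_pow (Nat.odd_iff.mpr (by omega))
      linear_combination (w x * x ^ k) * this
  -- orthogonality to polynomials
  have wpoly : ∀ (q : List ℚ) (k : ℕ), k + q.length ≤ K + 1 →
      ∫ x in (-1 : ℝ)..1, w x * (x ^ k * ev q x) = 0 := by
    intro q
    induction q with
    | nil => intro k _; simp
    | cons a q ih =>
        intro k hk
        simp only [List.length_cons] at hk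
        have cp := continuous_ev q
        have e1 : (fun x => w x * (x ^ k * ev (a :: q) x)) =
            fun x => (a : ℝ) * (w x * x ^ k) + w x * (x ^ (k + 1) * ev q x) := by
          funext x; simp only [ev_cons]; ring
        rw [e1, intervalIntegral.integral_add (Continuous.intervalIntegrable (by fun_prop) _ _)
          (Continuous.intervalIntegrable (by fun_prop) _ _), intervalIntegral.integral_const_mul,
          worthK k (by omega), ih (k + 1) (by omega)]
        ring
  have wc : ∫ x in (-1 : ℝ)..1, w x * ev p.cp x = 0 := by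
    have := wpoly p.cp 0 (by omega)
    simpa using this
  have ws : ∫ x in (-1 : ℝ)..1, w x * ev p.sp x = 0 := by
    have := wpoly p.sp 0 (by omega)
    simpa using this
  -- decomposition
  have hdec : Qg p ell h = Qg p ell v + 2 * Cg p ell v w + Qg p ell w := by
    have := (hR1 p ell).1 v w vC wC
    rw [← this]
    congr 1
    funext x
    simp only [hw]; ring
  have hQv : Qg p ell v = Cg p ell v v := (hR1 p ell).2.1 v vC
  have cz : ∀ k, BM (zfg p e k) := fun k => BM.of_cont (continuous_zfg p e k)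
  have cph : ∀ k, BM (ph e k) := fun k => BM.of_cont (continuous_ph e k)
  have bv := BM.of_cont cv
  have bw := BM.of_cont cw'
  have by' : ∀ k, BM (yf k) := fun k => BM.of_cont (hyc k)
  set zv : ℝ → ℝ := fun x => ∑ j ∈ Finset.range n, c j * zfg p e j x with hzv
  set yv : ℝ → ℝ := fun x => ∑ j ∈ Finset.range n, c j * yf j x with hyv
  set gk : ℕ → ℝ → ℝ := fun k x => ∑ r ∈ Finset.range p.R, p.la r * shf (ell r) (ph e k) x with hgk
  set gv : ℝ → ℝ := fun x => ∑ j ∈ Finset.range n, c j * gk j x with hgv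
  have bgk : ∀ k, BM (gk k) := fun k =>
    BM.sum _ (fun r _ => (BM.shf (continuous_ph e k) (ell r)).cmul _)
  have bgv : BM gv := BM.sum _ (fun k _ => (bgk k).cmul _)
  have bzv : BM zv := BM.sum _ (fun k _ => (cz k).cmul _)
  have byv : BM yv := BM.sum _ (fun k _ => (by' k).cmul _)
  set C : ℝ := ∫ x in (-1 : ℝ)..1, v x * ev p.cp x with hCdef
  set S : ℝ := ∫ x in (-1 : ℝ)..1, v x * ev p.sp x with hSdef
  have hCsum : C = ∑ j ∈ Finset.range n, c j * ∫ x in (-1 : ℝ)..1, ph e j x * ev p.cp x := by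
    have h1 := int_ling n c (ph e) (ev p.cp) cph (BM.of_cont (continuous_ev _))
    rw [hCdef]
    calc ∫ x in (-1 : ℝ)..1, v x * ev p.cp x = ∫ x in (-1 : ℝ)..1, ev p.cp x * v x := by
          congr 1; funext x; ring
      _ = _ := by
          rw [h1]
          refine Finset.sum_congr rfl (fun k _ => ?_)
          congr 2; funext x; ring
  have hSsum : S = ∑ j ∈ Finset.range n, c j * ∫ x in (-1 : ℝ)..1, ph e j x * ev p.sp x := by
    have h1 := int_ling n c (ph e) (ev p.sp) cph (BM.of_cont (continuous_ev _))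
    rw [hSdef]
    calc ∫ x in (-1 : ℝ)..1, v x * ev p.sp x = ∫ x in (-1 : ℝ)..1, ev p.sp x * v x := by
          congr 1; funext x; ring
      _ = _ := by
          rw [h1]
          refine Finset.sum_congr rfl (fun k _ => ?_)
          congr 2; funext x; ring
  -- integral against gk
  have hgint : ∀ (u : ℝ → ℝ), BM u → ∀ k, (∑ r ∈ Finset.range p.R, p.la r *
      (∫ x in (-1 : ℝ)..1, u x * shf (ell r) (ph e k) x)) = ∫ x in (-1 : ℝ)..1, u x * gk k x := by
    intro u bu k
    rw [int_ling p.R p.la (fun r => shf (ell r) (ph e k)) u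
      (fun r => BM.shf (continuous_ph e k) (ell r)) bu]
  have hCvv : Cg p ell v v = (∫ x in (-1 : ℝ)..1, v x * zv x)
      - (∫ x in (-1 : ℝ)..1, v x * gv x) + 2 * (p.a : ℝ) * (C * C - S * S) := by
    rw [hv, Cg_sum hR1 p ell n c (ph e) (contDiff_ph e) _ vC]
    have h1 : ∀ k ∈ Finset.range n, c k * Cg p ell (ph e k) v =
        (c k * ∫ x in (-1 : ℝ)..1, v x * zfg p e k x)
        - (c k * ∫ x in (-1 : ℝ)..1, v x * gk k x)
        + 2 * (p.a : ℝ) * ((c k * ∫ x in (-1 : ℝ)..1, ph e k x * ev p.cp x) * C -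
          (c k * ∫ x in (-1 : ℝ)..1, ph e k x * ev p.sp x) * S) := by
      intro k _
      rw [crAg hTX hC hS p ell hell e k he v vC vpar, hgint v bv k]
      ring
    rw [Finset.sum_congr rfl h1, Finset.sum_add_distrib, Finset.sum_sub_distrib,
      ← Finset.mul_sum, Finset.sum_sub_distrib,
      ← Finset.sum_mul, ← Finset.sum_mul, ← hCsum, ← hSsum,
      ← int_ling n c (zfg p e) v cz bv, ← int_ling n c gk v bgk bv]
  have hCvw : Cg p ell v w = (∫ x in (-1 : ℝ)..1, w x * yv x)
      - (∫ x in (-1 : ℝ)..1, w x * gv x) := by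
    rw [hv, Cg_sum hR1 p ell n c (ph e) (contDiff_ph e) _ wC]
    have h1 : ∀ k ∈ Finset.range n, c k * Cg p ell (ph e k) w =
        (c k * ∫ x in (-1 : ℝ)..1, w x * yf k x)
        - (c k * ∫ x in (-1 : ℝ)..1, w x * gk k x) := by
      intro k hk
      rw [Finset.mem_range] at hk
      rw [crAg hTX hC hS p ell hell e k he w wC wpar, wc, ws, hy k hk w cw' worth, hgint w bw k]
      ring
    rw [Finset.sum_congr rfl h1, Finset.sum_sub_distrib,
      ← int_ling n c yf w by' bw, ← int_ling n c gk w bgk bw]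
  -- entries of the finite dimensional form
  have ent1 : ∀ k < n, ∀ l < n, N k l = (∫ x in (-1 : ℝ)..1, zfg p e k x * ph e l x)
      - (∫ x in (-1 : ℝ)..1, gk k x * ph e l x)
      + 2 * (p.a : ℝ) * ((∫ x in (-1 : ℝ)..1, ph e k x * ev p.cp x) *
          (∫ x in (-1 : ℝ)..1, ph e l x * ev p.cp x) -
        (∫ x in (-1 : ℝ)..1, ph e k x * ev p.sp x) * (∫ x in (-1 : ℝ)..1, ph e l x * ev p.sp x))
      - (∫ x in (-1 : ℝ)..1, yf k x * yf l x)
      + 2 * (∫ x in (-1 : ℝ)..1, gk k x * yf l x)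
      - (∫ x in (-1 : ℝ)..1, gk k x * gk l x)
      - dlt * (∫ x in (-1 : ℝ)..1, ph e k x * ph e l x) := by
    intro k hk l hl
    rw [hN k hk l hl]
    have pz : Par ((-1) ^ e) (zfg p e k) := by
      intro x
      rw [zfg, zfg, par_ph e k x]
      have : Umm p.m (-x) = Umm p.m x := by
        unfold Umm
        refine Finset.sum_congr rfl (fun j _ => ?_)
        rw [neg_pow, pow_mul (-1 : ℝ) 2]; norm_num
      rw [this, neg_pow, neg_sq]
      ring
    have evn : ∀ f g : ℝ → ℝ, Continuous f → Continuous g → Par ((-1) ^ e) f → Par ((-1) ^ e) g →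
        2 * (∫ x in (0 : ℝ)..1, f x * g x) = ∫ x in (-1 : ℝ)..1, f x * g x := by
      intro f g cf cg pf pg
      rw [integral_even_fun (F := fun x => f x * g x) (cf.mul cg)]
      intro x
      rw [pf x, pg x]
      linear_combination (f x * g x) * sgn_sq e
    have a1 := evn _ _ (continuous_zfg p e k) (continuous_ph e l) pz (par_ph e l)
    have a2 := evn _ _ (hyc k) (hyc l) (hyp k) (hyp l)
    have a3 := evn _ _ (continuous_ph e k) (continuous_ph e l) (par_ph e k) (par_ph e l)
    have a4 : ∀ u : ℝ → ℝ, Continuous u → Par ((-1) ^ e) u →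
        (∑ r ∈ Finset.range p.R, 2 * p.la r *
          (∫ x in (ell r - 1)..1, (x - ell r) ^ (e + 2 * k) * u x)) =
        ∫ x in (-1 : ℝ)..1, gk k x * u x := by
      intro u cu pu
      have h1 := hgint u (BM.of_cont cu) k
      have h2 : (∫ x in (-1 : ℝ)..1, gk k x * u x) = ∫ x in (-1 : ℝ)..1, u x * gk k x := by
        congr 1; funext x; ring
      rw [h2, ← h1]
      refine Finset.sum_congr rfl (fun r hr => ?_)
      rw [Finset.mem_range] at hr
      rw [(hS (ell r) ((-1) ^ e) (ph e k) u (hell r hr).1 (hell r hr).2 hs (continuous_ph e k) cu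
        (par_ph e k) pu).2]
      have h3 : (∫ x in (ell r - 1)..1, (x - ell r) ^ (e + 2 * k) * u x) =
          ∫ x in (ell r - 1)..1, u x * ph e k (x - ell r) := by
        congr 1; funext x; unfold ph; ring
      rw [h3]; ring
    have a5 := a4 _ (continuous_ph e l) (par_ph e l)
    have a6 := a4 _ (hyc l) (hyp l)
    have a7 : (∑ r ∈ Finset.range p.R, ∑ r' ∈ Finset.range p.R, 2 * (p.la r * p.la r') *
        SS (ell r) (ell r') (e + 2 * k) (e + 2 * l)) = ∫ x in (-1 : ℝ)..1, gk k x * gk l x := by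
      have e1 : (fun x => gk k x * gk l x) = fun x => ∑ r ∈ Finset.range p.R,
          ∑ r' ∈ Finset.range p.R, (p.la r * p.la r') *
            (shf (ell r) (ph e k) x * shf (ell r') (ph e l) x) := by
        funext x
        simp only [hgk]
        rw [Finset.sum_mul_sum]
        refine Finset.sum_congr rfl (fun r _ => Finset.sum_congr rfl (fun r' _ => ?_))
        ring
      have bs : ∀ r k, BM (shf (ell r) (ph e k)) := fun r k => BM.shf (continuous_ph e k) (ell r)
      rw [e1, intervalIntegral.integral_finsetSum]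
      · refine Finset.sum_congr rfl (fun r hr => ?_)
        rw [intervalIntegral.integral_finsetSum]
        · refine Finset.sum_congr rfl (fun r' hr' => ?_)
          rw [Finset.mem_range] at hr hr'
          rw [intervalIntegral.integral_const_mul, hSS (ell r) (ell r') ((-1) ^ e) (ph e k) (ph e l)
            (hell r hr).1 (hell r hr).2 (hell r' hr').1 (hell r' hr').2 hs (continuous_ph e k)
            (continuous_ph e l) (par_ph e k) (par_ph e l)]
          unfold SS ph
          ring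
        · intro r' _
          exact (((bs r k).mul (bs r' l)).cmul _).ii
      · intro r _
        exact (BM.sum (Finset.range p.R) (fun r' _ =>
          ((bs r k).mul (bs r' l)).cmul (p.la r * p.la r'))).ii
    have a8 : (∑ r ∈ Finset.range p.R, 4 * p.la r *
        (∫ x in (ell r - 1)..1, (x - ell r) ^ (e + 2 * k) * yf l x)) =
        2 * ∫ x in (-1 : ℝ)..1, gk k x * yf l x := by
      rw [← a6, Finset.mul_sum]
      refine Finset.sum_congr rfl (fun r _ => ?_)
      ring
    rw [a1, a2, a5, a7, a8, ← a3]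
    ring
  -- the finite dimensional form
  have hfin := hpsd c
  have hfin2 : ∑ k ∈ Finset.range n, ∑ l ∈ Finset.range n, N k l * (c k * c l) =
      (∫ x in (-1 : ℝ)..1, zv x * v x) - (∫ x in (-1 : ℝ)..1, gv x * v x)
      + 2 * (p.a : ℝ) * (C * C - S * S) - (∫ x in (-1 : ℝ)..1, yv x * yv x)
      + 2 * (∫ x in (-1 : ℝ)..1, gv x * yv x)
      - (∫ x in (-1 : ℝ)..1, gv x * gv x) - dlt * (∫ x in (-1 : ℝ)..1, v x * v x) := by
    rw [hzv, hyv, hgv, hv]
    rw [int_bilg n c (zfg p e) (ph e) cz cph, int_bilg n c gk (ph e) bgk cph,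
      int_bilg n c yf yf by' by', int_bilg n c gk yf bgk by',
      int_bilg n c gk gk bgk bgk, int_bilg n c (ph e) (ph e) cph cph]
    have hCC : C * C = ∑ k ∈ Finset.range n, ∑ l ∈ Finset.range n,
        ((∫ x in (-1 : ℝ)..1, ph e k x * ev p.cp x) *
          (∫ x in (-1 : ℝ)..1, ph e l x * ev p.cp x)) * (c k * c l) := by
      rw [hCsum, Finset.sum_mul_sum]
      refine Finset.sum_congr rfl (fun k _ => Finset.sum_congr rfl (fun l _ => ?_))
      ring
    have hSS' : S * S = ∑ k ∈ Finset.range n, ∑ l ∈ Finset.range n,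
        ((∫ x in (-1 : ℝ)..1, ph e k x * ev p.sp x) *
          (∫ x in (-1 : ℝ)..1, ph e l x * ev p.sp x)) * (c k * c l) := by
      rw [hSsum, Finset.sum_mul_sum]
      refine Finset.sum_congr rfl (fun k _ => Finset.sum_congr rfl (fun l _ => ?_))
      ring
    rw [hCC, hSS']
    simp only [Finset.mul_sum, ← Finset.sum_add_distrib, ← Finset.sum_sub_distrib]
    refine Finset.sum_congr rfl (fun k hk => Finset.sum_congr rfl (fun l hl => ?_))
    rw [ent1 k (Finset.mem_range.mp hk) l (Finset.mem_range.mp hl)]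
    ring
  rw [hfin2] at hfin
  -- symmetric integrals
  have s1 : ∫ x in (-1 : ℝ)..1, zv x * v x = ∫ x in (-1 : ℝ)..1, v x * zv x := by
    congr 1; funext x; ring
  have s2 : ∫ x in (-1 : ℝ)..1, gv x * v x = ∫ x in (-1 : ℝ)..1, v x * gv x := by
    congr 1; funext x; ring
  -- squares
  have q1 : 0 ≤ ∫ x in (-1 : ℝ)..1, (w x + yv x - gv x) ^ 2 :=
    intervalIntegral.integral_nonneg (by norm_num) (fun x _ => sq_nonneg _)
  have q2 : ∫ x in (-1 : ℝ)..1, (w x + yv x - gv x) ^ 2 = (∫ x in (-1 : ℝ)..1, w x ^ 2) +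
      (∫ x in (-1 : ℝ)..1, yv x * yv x) + (∫ x in (-1 : ℝ)..1, gv x * gv x) +
      2 * (∫ x in (-1 : ℝ)..1, w x * yv x) - 2 * (∫ x in (-1 : ℝ)..1, w x * gv x) -
      2 * (∫ x in (-1 : ℝ)..1, gv x * yv x) := by
    have e1 : (fun x => (w x + yv x - gv x) ^ 2) = fun x => w x * w x + yv x * yv x + gv x * gv x +
        2 * (w x * yv x) - 2 * (w x * gv x) - 2 * (gv x * yv x) := by
      funext x; ring
    have e2 : (∫ x in (-1 : ℝ)..1, w x ^ 2) = ∫ x in (-1 : ℝ)..1, w x * w x := by
      congr 1; funext x; ring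
    have b1 := bw.mul bw
    have b2 := byv.mul byv
    have b3 := bgv.mul bgv
    have b4 := (bw.mul byv).cmul 2
    have b5 := (bw.mul bgv).cmul 2
    have b6 := (bgv.mul byv).cmul 2
    rw [e1, intervalIntegral.integral_sub ((((b1.add b2).add b3).add b4).sub b5).ii b6.ii,
      intervalIntegral.integral_sub (((b1.add b2).add b3).add b4).ii b5.ii,
      intervalIntegral.integral_add ((b1.add b2).add b3).ii b4.ii,
      intervalIntegral.integral_add (b1.add b2).ii b3.ii,
      intervalIntegral.integral_add b1.ii b2.ii, intervalIntegral.integral_const_mul,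
      intervalIntegral.integral_const_mul, intervalIntegral.integral_const_mul, e2]
  have hwv : ∫ x in (-1 : ℝ)..1, w x * v x = 0 := by
    rw [hv, int_ling n c (ph e) w cph bw]
    apply Finset.sum_eq_zero
    intro k hk
    rw [Finset.mem_range] at hk
    have := worth k hk
    unfold ph
    rw [this, mul_zero]
  have t6 : (∫ x in (-1 : ℝ)..1, h x ^ 2) =
      (∫ x in (-1 : ℝ)..1, v x * v x) + ∫ x in (-1 : ℝ)..1, w x ^ 2 := by
    have e1 : (fun x => h x ^ 2) = fun x => v x * v x + w x ^ 2 + 2 * (w x * v x) := by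
      funext x; simp only [hw]; ring
    rw [e1, intervalIntegral.integral_add (Continuous.intervalIntegrable (by fun_prop) _ _)
      (Continuous.intervalIntegrable (by fun_prop) _ _), intervalIntegral.integral_add
      (Continuous.intervalIntegrable (by fun_prop) _ _)
      (Continuous.intervalIntegrable (by fun_prop) _ _), intervalIntegral.integral_const_mul, hwv]
    ring
  have h3 := hR3 w wC worthK
  have p2 : 0 ≤ ∫ x in (-1 : ℝ)..1, w x ^ 2 :=
    intervalIntegral.integral_nonneg (by norm_num) (fun x _ => sq_nonneg _)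
  have p3 : (1 + dlt) * (∫ x in (-1 : ℝ)..1, w x ^ 2) ≤ cw * (∫ x in (-1 : ℝ)..1, w x ^ 2) :=
    mul_le_mul_of_nonneg_right hcw p2
  rw [t6, hdec, hQv, hCvv, hCvw]
  rw [s1, s2] at hfin
  rw [q2] at q1
  linarith

end Pool.Agent.W187.WQ
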