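import Mathlib
import Pool.Agent.W187.WP.IntL
import Pool.Agent.W187.WQ.R4g

/-!
# Fixed point computations with lists of integers: definitions and statements
-/

open MeasureTheory Set
open Pool.Agent.W187.WP

namespace Pool.Agent.W187.WQ

/-- `l` approximates `D * f k, D * f (k+1), ...` with error at most `ε` -/
def Apx (D ε : ℝ) (f : ℕ → ℝ) : ℕ → List ℤ → Prop
  | _, [] => True
  | k, a :: l => |D * f k - (a : ℝ)| ≤ ε ∧ Apx D ε f (k + 1) l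

/-- sum of absolute values -/
def nm1 : List ℤ → ℤ
  | [] => 0
  | a :: l => |a| + nm1 l

/-- approximate dot product -/
def S_DOT : Prop := ∀ (D : ℤ) (ef eg M S : ℝ) (f g : ℕ → ℝ) (F G : List ℤ) (k l : ℕ), 0 < D →
  0 ≤ ef → 0 ≤ eg → (∀ j, |g j| ≤ M) → Apx D ef f k F → Apx D eg g l G → ((nm1 F : ℤ) : ℝ) ≤ S →
  F.length ≤ G.length →
  |(D : ℝ) * (∑ i ∈ Finset.range F.length, f (k + i) * g (l + i)) - ((doti F G / D : ℤ) : ℝ)| ≤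
    S * eg / D + M * ef * F.length + 1

/-- `∫_0^1 x^(2e) (x^2)^j` -/
noncomputable def mu (e j : ℕ) : ℝ := 1 / (2 * ((e : ℝ) + (j : ℝ)) + 1)

def muL (D : ℤ) (e : ℕ) : ℕ → ℕ → List ℤ
  | 0, _ => []
  | n + 1, k => (D / (2 * ((e : ℤ) + (k : ℤ)) + 1)) :: muL D e n (k + 1)

/-- `Σ_{i' = i}^{i+n-1} l_{i'-i} / (2 i')` -/
def us : ℕ → ℕ → List ℤ → ℤ
  | _, 0, _ => 0
  | _, _ + 1, [] => 0
  | i, n + 1, a :: l => a / (2 * (i : ℤ)) + us (i + 1) n l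

def usl (m : ℕ) : ℕ → List ℤ → List ℤ
  | 0, _ => []
  | n + 1, l => us 1 m l.tail :: usl m n l.tail

/-- `∫_0^1 x^(2e) (x^2)^j U` -/
noncomputable def uu (e m j : ℕ) : ℝ := ∑ i ∈ Finset.range m, mu e (j + (i + 1)) / (2 * ((i : ℝ) + 1))

/-- `∫_0^1 x^(2e) (x^2)^j U^2` -/
noncomputable def aa (e m j : ℕ) : ℝ :=
  ∑ i ∈ Finset.range m, uu e m (j + (i + 1)) / (2 * ((i : ℝ) + 1))

def S_MU : Prop := ∀ (D : ℤ) (e n k : ℕ), 0 < D → Apx D 1 (mu e) k (muL D e n k)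

/-- one weighted summation -/
def S_US : Prop := ∀ (D : ℤ) (ε : ℝ) (f : ℕ → ℝ) (m n : ℕ) (l : List ℤ), 0 < D → 0 ≤ ε →
  Apx D ε f 0 l → n + m ≤ l.length →
  Apx D (m * (ε / 2 + 1)) (fun j => ∑ i ∈ Finset.range m, f (j + (i + 1)) / (2 * ((i : ℝ) + 1))) 0
    (usl m n l)

/-- the moments of `U` and `U^2` -/
def S_UI : Prop := ∀ (e m j : ℕ),
  (∫ x in (0 : ℝ)..1, x ^ (2 * (e + j)) = mu e j) ∧
  (∫ x in (0 : ℝ)..1, x ^ (2 * (e + j)) * Umm m x = uu e m j) ∧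
  (∫ x in (0 : ℝ)..1, x ^ (2 * (e + j)) * Umm m x ^ 2 = aa e m j)

/-- `∫_lo^hi (x - s)^N x^j` -/
noncomputable def Jf (s lo hi : ℝ) (N j : ℕ) : ℝ := ∫ x in lo..hi, (x - s) ^ N * x ^ j

/-- `∫_lo^hi (x - s)^N x^j U` -/
noncomputable def Vf (m : ℕ) (s lo hi : ℝ) (N j : ℕ) : ℝ :=
  ∫ x in lo..hi, (x - s) ^ N * x ^ j * Umm m x

/-- one step of the table recursion -/
def rstep (s D : ℤ) : List ℤ → List ℤ
  | [] => []
  | [_] => []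
  | a :: b :: l => (b - s * a / D) :: rstep s D (b :: l)

def S_ROW : Prop := ∀ (D s : ℤ) (sr ε M : ℝ) (g : ℕ → ℝ) (k : ℕ) (l : List ℤ), 0 < D → 0 ≤ ε →
  ε ≤ D → |(D : ℝ) * sr - (s : ℝ)| ≤ 1 → |sr| ≤ 2 → (∀ j, |g j| ≤ M) → Apx D ε g k l →
  Apx D (3 * ε + M + 2) (fun j => g (j + 1) - sr * g j) k (rstep s D l)

/-- the row `∫_lo^hi x^j`, `j = j0, ...`, from `pl ~ D lo^j0`, `ph ~ D hi^j0` -/
def mrow (D lo hi : ℤ) : ℕ → ℕ → ℤ → ℤ → List ℤ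
  | 0, _, _, _ => []
  | c + 1, j, pl, ph => ((ph * hi / D - pl * lo / D) / ((j : ℤ) + 1)) ::
      mrow D lo hi c (j + 1) (pl * lo / D) (ph * hi / D)

def S_MROW : Prop := ∀ (D lo hi : ℤ) (lor hir : ℝ) (c : ℕ), 0 < D → 3 * (c : ℤ) ≤ D →
  |(D : ℝ) * lor - (lo : ℝ)| ≤ 1 → |(D : ℝ) * hir - (hi : ℝ)| ≤ 1 → |lor| ≤ 1 → |hir| ≤ 1 →
  Apx D 7 (Jf 0 lor hir 0) 0 (mrow D lo hi c 0 D D)

/-- weighted summation with stride two -/
def us2 : ℕ → ℕ → List ℤ → ℤ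
  | _, 0, _ => 0
  | _, _ + 1, [] => 0
  | i, _ + 1, [a] => a / (2 * (i : ℤ))
  | i, n + 1, a :: _ :: l => a / (2 * (i : ℤ)) + us2 (i + 1) n l

def vrow (m : ℕ) : ℕ → List ℤ → List ℤ
  | 0, _ => []
  | c + 1, l => us2 1 m l.tail.tail :: vrow m c l.tail

def S_VROW : Prop := ∀ (D : ℤ) (ε s lo hi : ℝ) (m c : ℕ) (l : List ℤ), 0 < D → 0 ≤ ε →
  Apx D ε (Jf s lo hi 0) 0 l → c + 2 * m ≤ l.length →
  Apx D (m * (ε / 2 + 1)) (Vf m s lo hi 0) 0 (vrow m c l)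

/-- entries of even index -/
def evs : List ℤ → List ℤ
  | [] => []
  | [a] => [a]
  | a :: _ :: l => a :: evs l

def addz : List ℤ → List ℤ → List ℤ
  | a :: p, b :: q => (a + b) :: addz p q
  | _, _ => []

/-- rows `k = 0, ..., n-1` of `Σ_j Rs_l,j J (e+2k) (e+2j) + 2 V (e+2k) (e+2l)`;
`rj`, `rv` rows of the tables of `J` and `V` -/
def gtab (s D : ℤ) (e : ℕ) (Rs : List (List ℤ)) : ℕ → List ℤ → List ℤ → List (List ℤ)
  | 0, _, _ => []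
  | n + 1, rj, rv =>
      addz (Rs.map (fun r => doti r (evs (rj.drop e)) / D)) ((evs (rv.drop e)).map (fun v => 2 * v))
        :: gtab s D e Rs n (rstep s D (rstep s D rj)) (rstep s D (rstep s D rv))

/-- rows `k = 0, ..., n-1` of `J (e+2k) (e+2l)`, `l < n'` -/
def wtab (s D : ℤ) (e n' : ℕ) : ℕ → List ℤ → List (List ℤ)
  | 0, _ => []
  | n + 1, rj => ((evs (rj.drop e)).take n') :: wtab s D e n' n (rstep s D (rstep s D rj))

/-- start row for parity `e` -/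
def st (s D : ℤ) : ℕ → List ℤ → List ℤ
  | 0, l => l
  | e + 1, l => st s D e (rstep s D l)

/-- entry of an integer matrix -/
def enti (M : List (List ℤ)) (i j : ℕ) : ℤ := (M.getD i []).getD j 0

/-- positive semidefiniteness certificate, scale `S * S = D`, error `E` -/
def resi (Nh L : List (List ℤ)) (i j : ℕ) : ℤ :=
  enti Nh i j + enti Nh j i - 2 * doti (L.getD i []) (L.getD j [])

def sumZ (n : ℕ) (f : ℕ → ℤ) : ℤ := match n with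
  | 0 => 0
  | k + 1 => sumZ k f + f k

def chkPi (n : ℕ) (E : ℤ) (Nh L : List (List ℤ)) : Bool :=
  (List.range n).all (fun i => decide
    (sumZ n (fun j => if j = i then 0 else |resi Nh L i j|) + 2 * (n : ℤ) * E ≤ resi Nh L i i))

def S_PSDi : Prop := ∀ (n : ℕ) (D S E : ℤ) (Nh L : List (List ℤ)) (N : ℕ → ℕ → ℝ), 0 < D →
  S * S = D → 0 ≤ E → chkPi n E Nh L = true →
  (∀ k < n, ∀ l < n, |(D : ℝ) * N k l - ((enti Nh k l : ℤ) : ℝ)| ≤ E) →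
  ∀ c : ℕ → ℝ, 0 ≤ ∑ k ∈ Finset.range n, ∑ l ∈ Finset.range n, N k l * (c k * c l)

end Pool.Agent.W187.WQ
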