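import Mathlib
import Pool.Agent.W187.WQ.Fx

/-!
# Fixed point computations, second part: expansions and the double shift terms
-/

open MeasureTheory Set
open Pool.Agent.W187.WP

namespace Pool.Agent.W187.WQ

/-- `D * p` is approximated by the integer list -/
def near1 (D : ℚ) : List ℚ → List ℤ → Bool
  | [], [] => true
  | a :: p, b :: q => decide (|D * a - (b : ℚ)| ≤ 1) && near1 D p q
  | _, _ => false

def S_NEAR : Prop := ∀ (D : ℤ) (p : List ℚ) (l : List ℤ), near1 (D : ℚ) p l = true →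
  l.length = p.length ∧ Apx D 1 (fun j => ((p.getD j 0 : ℚ) : ℝ)) 0 l

/-- a polynomial in `x^2` with real coefficients, times `x^e`, plus `U x^(e+2k)` -/
noncomputable def yr (m e k Lr : ℕ) (rc : ℕ → ℝ) (x : ℝ) : ℝ :=
  x ^ e * (∑ j ∈ Finset.range Lr, rc j * (x ^ 2) ^ j) + Umm m x * ph e k x

/-- expansions of the integrals -/
def S_EXP : Prop := ∀ (m e k l Lr : ℕ) (rk rl : ℕ → ℝ),
  (∫ x in (0 : ℝ)..1, yr m e k Lr rk x * ph e l x =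
    (∑ j ∈ Finset.range Lr, rk j * mu e (l + j)) + uu e m (k + l)) ∧
  (∫ x in (0 : ℝ)..1, yr m e k Lr rk x * yr m e l Lr rl x =
    aa e m (k + l) + (∑ j ∈ Finset.range Lr, rl j * uu e m (k + j)) +
    (∑ j ∈ Finset.range Lr, rk j * uu e m (l + j)) +
    ∑ j ∈ Finset.range Lr, rk j * (∑ i ∈ Finset.range Lr, rl i * mu e (j + i))) ∧
  (∀ (s lo hi : ℝ) (N : ℕ), ∫ x in lo..hi, (x - s) ^ N * yr m e l Lr rl x =
    (∑ j ∈ Finset.range Lr, rl j * Jf s lo hi N (e + 2 * j)) + Vf m s lo hi N (e + 2 * l))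

/-- the real double shift terms for `p5`: coefficient, shift, upper end -/
noncomputable def jr5 : List (ℝ × ℝ × ℝ) :=
  [(2 * (p5.la 0 * p5.la 0), 0, 1 - ell5 0),
   (2 * (p5.la 1 * p5.la 1), 0, 1 - ell5 1),
   (2 * (p5.la 2 * p5.la 2), 0, 1 - ell5 2),
   (4 * (p5.la 0 * p5.la 1), ell5 0 - ell5 1, 1 - ell5 1),
   (4 * (p5.la 0 * p5.la 2), ell5 0 - ell5 2, 1 - ell5 2),
   (4 * (p5.la 1 * p5.la 2), ell5 1 - ell5 2, 1 - ell5 2),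
   (2 * (p5.la 0 * p5.la 0), -(2 * ell5 0), 1 - 2 * ell5 0)]

def S_JOBS5 : Prop := ∀ (N N' : ℕ), Even (N + N') →
  (∑ r ∈ Finset.range 3, ∑ r' ∈ Finset.range 3, 2 * (p5.la r * p5.la r') *
    (SS (ell5 r) (ell5 r') N N' + SS (ell5 r) (ell5 r') N' N)) =
  (jr5.map (fun t => t.1 * (Jf t.2.1 (-1) t.2.2 N N' + Jf t.2.1 (-1) t.2.2 N' N))).sum

/-- recursions and bounds of the integrals -/
def S_JV : Prop := ∀ (m : ℕ) (s lo hi : ℝ),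
  (∀ N j, Jf s lo hi (N + 1) j = Jf s lo hi N (j + 1) - s * Jf s lo hi N j) ∧
  (∀ N j, Vf m s lo hi (N + 1) j = Vf m s lo hi N (j + 1) - s * Vf m s lo hi N j) ∧
  (-1 ≤ lo → lo ≤ hi → hi ≤ 1 → -1 ≤ lo - s → hi - s ≤ 1 →
    (∀ N j, |Jf s lo hi N j| ≤ 2) ∧ (∀ N j, |Vf m s lo hi N j| ≤ m))

/-- the table of `Σ_j Rs_l,j J (e+2k) (e+2j) + 2 V (e+2k) (e+2l)`; all errors are bounded by one
number `E` -/
def S_GTAB : Prop := ∀ (D s : ℤ) (sr lo hi ε S E : ℝ) (m e n nR Lr : ℕ) (f : ℕ → ℕ → ℝ)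
  (Rs : List (List ℤ)) (rj rv : List ℤ), 0 < D → e ≤ 1 → 0 ≤ ε → |(D : ℝ) * sr - (s : ℝ)| ≤ 1 →
  |sr| ≤ 2 → -1 ≤ lo → lo ≤ hi → hi ≤ 1 → -1 ≤ lo - sr → hi - sr ≤ 1 →
  Apx D ε (Jf sr lo hi 0) 0 rj → Apx D ε (Vf m sr lo hi 0) 0 rv →
  Rs.length = nR →
  (∀ l < nR, (Rs.getD l []).length ≤ Lr ∧ Apx D 2 (f l) 0 (Rs.getD l []) ∧
    ((nm1 (Rs.getD l []) : ℤ) : ℝ) ≤ S) →
  2 * n + 2 * Lr + 1 ≤ rj.length → 2 * n + 2 * nR + 1 ≤ rv.length →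
  3 ^ (2 * n + 1) * (ε + m + 4) ≤ E → E ≤ D →
  ∀ k < n, ∀ l < nR,
    |(D : ℝ) * ((∑ j ∈ Finset.range (Rs.getD l []).length, f l j * Jf sr lo hi (e + 2 * k) (e + 2 * j))
        + 2 * Vf m sr lo hi (e + 2 * k) (e + 2 * l)) -
      ((enti (gtab s D e Rs n (st s D e rj) (st s D e rv)) k l : ℤ) : ℝ)| ≤
      S * E / D + 4 * Lr + 2 * E + 1

/-- the table of `J (e+2k) (e+2l)` -/
def S_WTAB : Prop := ∀ (D s : ℤ) (sr lo hi ε E : ℝ) (e n n' : ℕ) (rj : List ℤ),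
  0 < D → e ≤ 1 → 0 ≤ ε → |(D : ℝ) * sr - (s : ℝ)| ≤ 1 →
  |sr| ≤ 2 → -1 ≤ lo → lo ≤ hi → hi ≤ 1 → -1 ≤ lo - sr → hi - sr ≤ 1 →
  Apx D ε (Jf sr lo hi 0) 0 rj → 2 * n + 2 * n' + 1 ≤ rj.length →
  3 ^ (2 * n + 1) * (ε + 4) ≤ E → E ≤ D →
  ∀ k < n, ∀ l < n',
    |(D : ℝ) * Jf sr lo hi (e + 2 * k) (e + 2 * l) -
      ((enti (wtab s D e n' n (st s D e rj)) k l : ℤ) : ℝ)| ≤ E

end Pool.Agent.W187.WQ
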