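import Mathlib
import Pool.Agent.W187.WP.Cert
import Pool.Agent.W187.WQ.Fx2

/-!
# The certificate data and its checks
-/

open MeasureTheory Set
open Pool.Agent.W187.WP

namespace Pool.Agent.W187.WQ

/-- `doti q (m.drop j) / D`, `j < n` -/
def mlsD (D : ℤ) (q : List ℤ) : ℕ → List ℤ → List ℤ
  | 0, _ => []
  | n + 1, m => (doti q m / D) :: mlsD D q n m.tail

def scl (c d : ℤ) (l : List ℤ) : List ℤ := l.map (fun v => c * v / d)

/-- `2 y - D t^l` -/
def rsl (D : ℤ) : ℕ → List ℤ → List ℤ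
  | _, [] => []
  | 0, a :: y => (2 * a - D) :: y.map (fun v => 2 * v)
  | l + 1, a :: y => (2 * a) :: rsl D l y

/-- common data -/
structure CG where
  e : ℕ
  n : ℕ
  m : ℕ
  D : ℤ
  Lr : ℕ
  Z : List (List ℤ)
  Y : List (List ℤ)
  Rs : List (List ℤ)
  MU : List ℤ
  UL : List ℤ
  AL : List ℤ
  H : List (List ℤ)
  CI : List ℤ
  SI : List ℤ
  Nh : List (List ℤ)
  L : List (List ℤ)

/-- a table with its coefficient -/
structure TB where
  cn : ℤ
  cd : ℤ
  T : List (List ℤ)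

def sumT (k : ℕ) (base : List ℤ) : List TB → List ℤ
  | [] => base
  | t :: ts => addz (scl t.cn t.cd (t.T.getD k [])) (sumT k base ts)

/-- row `k` of the matrix -/
def rowN (c : CG) (a : ℚ) (dn dd : ℤ) (ts : List TB) (k : ℕ) : List ℤ :=
  sumT k
    (addz (scl 2 1 (mlsD c.D (c.Z.getD k []) c.n c.MU))
    (addz (scl 2 1 (c.UL.drop k))
    (addz (scl (2 * a.num * c.CI.getD k 0) (a.den * c.D) c.CI)
    (addz (scl (-2 * a.num * c.SI.getD k 0) (a.den * c.D) c.SI)
    (addz (scl (-2) 1 (c.AL.drop k))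
    (addz (scl (-4) 1 (mlsD c.D (c.Y.getD k []) c.n c.UL))
    (addz (scl (-2) 1 (c.H.map (fun h => doti (c.Y.getD k []) h / c.D)))
      (scl (-2 * dn) dd (c.MU.drop k))))))))) ts

end Pool.Agent.W187.WQ
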