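import Mathlib
import Pool.Agent.W187.WQ.Cg

/-!
# Soundness of the certificate: definitions and statements
-/

open MeasureTheory Set
open Pool.Agent.W187.WP

namespace Pool.Agent.W187.WQ

/-- real coefficients of `z_k` -/
noncomputable def zkr (p : Prm) (e k j : ℕ) : ℝ := (((zs p e k).getD j 0 : ℚ) : ℝ)

/-- real coefficients of `y_k` -/
noncomputable def ykr (p : Prm) (c : CG) (k j : ℕ) : ℝ :=
  if j < c.n then ((enti c.Y k j : ℤ) : ℝ) / (c.D : ℝ) else zkr p c.e k j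

/-- the function `y_k` -/
noncomputable def yfg (p : Prm) (c : CG) (k : ℕ) (x : ℝ) : ℝ := yr p.m c.e k c.Lr (ykr p c k) x

/-- elementary checks of the data; `B` bounds the sums of coefficients -/
def chkC (p : Prm) (c : CG) (B : ℤ) : Bool :=
  decide (0 < c.D) && decide (c.e ≤ 1) && decide (c.m = p.m) && decide (c.n ≤ c.Lr) &&
  decide (c.Z.length = c.n) && decide (c.Y.length = c.n) && decide (c.H.length = c.n) &&
  decide (c.Rs.length = c.n) && decide (c.CI.length = c.n) && decide (c.SI.length = c.n) &&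
  decide (0 ≤ B) &&
  (List.range c.n).all (fun k =>
    decide ((c.Y.getD k []).drop c.n = (c.Z.getD k []).drop c.n) &&
    decide (c.n ≤ (c.Y.getD k []).length) && decide ((c.Y.getD k []).length ≤ c.Lr) &&
    decide ((c.Z.getD k []).length ≤ c.Lr) &&
    decide (nm1 (c.Y.getD k []) ≤ B * c.D) && decide (nm1 (c.Z.getD k []) ≤ B * c.D) &&
    decide (nm1 (c.Rs.getD k []) ≤ 2 * B * c.D) &&
    decide (c.Rs.getD k [] = rsl c.D k (c.Y.getD k [])) &&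
    decide (|c.CI.getD k 0| ≤ 4 * c.D) && decide (|c.SI.getD k 0| ≤ 4 * c.D))

/-- the `z_k` -/
def chkZg (p : Prm) (c : CG) : Bool :=
  (List.range c.n).all (fun k => near1 (c.D : ℚ) (zs p c.e k) (c.Z.getD k []))

/-- the integrals against `cp`, `sp` -/
def chkP (p : Prm) (c : CG) : Bool :=
  (List.range c.n).all (fun k =>
    decide (|(c.D : ℚ) * ccq c.e p.cp k - ((c.CI.getD k 0 : ℤ) : ℚ)| ≤ 1) &&
    decide (|(c.D : ℚ) * ccq c.e p.sp k - ((c.SI.getD k 0 : ℤ) : ℚ)| ≤ 1))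

/-- moments; `lm`, `lu` the lengths of the lists -/
def chkM (c : CG) (lm lu : ℕ) : Bool :=
  decide (muL c.D c.e lm 0 = c.MU) && decide (usl c.m lu c.MU = c.UL) &&
  decide (usl c.m (2 * c.n) c.UL = c.AL) && decide (lu + c.m ≤ lm) &&
  decide (2 * c.n + c.m ≤ lu) && decide (c.n + c.Lr ≤ lu) && decide (2 * c.Lr + c.n ≤ lm) &&
  decide (c.Y.map (fun y => mlsD c.D y c.Lr c.MU) = c.H)

def S_YF : Prop := ∀ (p : Prm) (c : CG) (B : ℤ), S_NEAR → chkC p c B = true → chkZg p c = true →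
  (∀ k, Continuous (yfg p c k)) ∧ (∀ k, Par ((-1) ^ c.e) (yfg p c k)) ∧
  (∀ k < c.n, ∀ w : ℝ → ℝ, Continuous w →
      (∀ j < c.n, ∫ x in (-1 : ℝ)..1, w x * x ^ (c.e + 2 * j) = 0) →
      ∫ x in (-1 : ℝ)..1, w x * yfg p c k x = ∫ x in (-1 : ℝ)..1, w x * zfg p c.e k x) ∧
  (∀ k < c.n, ∀ x, zfg p c.e k x = yr p.m c.e k c.Lr (zkr p c.e k) x) ∧
  (∀ k < c.n, Apx c.D 1 (zkr p c.e k) 0 (c.Z.getD k []) ∧
    Apx c.D 1 (ykr p c k) 0 (c.Y.getD k []) ∧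
    (∀ j, (c.Z.getD k []).length ≤ j → zkr p c.e k j = 0) ∧
    (∀ j, (c.Y.getD k []).length ≤ j → ykr p c k j = 0))

/-- the shift terms -/
noncomputable def GFr (p : Prm) (c : CG) (l lo hi : ℝ) (k k' : ℕ) : ℝ :=
  2 * ((∑ j ∈ Finset.range c.Lr, ykr p c k' j * Jf l lo hi (c.e + 2 * k) (c.e + 2 * j)) +
    Vf p.m l lo hi (c.e + 2 * k) (c.e + 2 * k')) - Jf l lo hi (c.e + 2 * k) (c.e + 2 * k')

/-- base part of the simplified matrix -/
noncomputable def Nb (p : Prm) (c : CG) (dlt : ℝ) (k l : ℕ) : ℝ :=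
  2 * (∑ j ∈ Finset.range c.Lr, zkr p c.e k j * mu c.e (l + j)) + 2 * uu c.e p.m (k + l)
  + 2 * (p.a : ℝ) * (((ccq c.e p.cp k : ℚ) : ℝ) * ((ccq c.e p.cp l : ℚ) : ℝ) -
      ((ccq c.e p.sp k : ℚ) : ℝ) * ((ccq c.e p.sp l : ℚ) : ℝ))
  - 2 * aa c.e p.m (k + l) - 4 * (∑ j ∈ Finset.range c.Lr, ykr p c k j * uu c.e p.m (l + j))
  - 2 * (∑ j ∈ Finset.range c.Lr, ykr p c k j *
      (∑ i ∈ Finset.range c.Lr, ykr p c l i * mu c.e (j + i)))
  - 2 * dlt * mu c.e (k + l)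

/-- the matrix of `IsNg` -/
noncomputable def Ng (p : Prm) (ell : ℕ → ℝ) (e : ℕ) (dlt : ℝ) (yf : ℕ → ℝ → ℝ) (k l : ℕ) : ℝ :=
    2 * (∫ x in (0 : ℝ)..1, zfg p e k x * ph e l x)
    - (∑ r ∈ Finset.range p.R, 2 * p.la r *
        (∫ x in (ell r - 1)..1, (x - ell r) ^ (e + 2 * k) * ph e l x))
    + 2 * (p.a : ℝ) * ((∫ x in (-1 : ℝ)..1, ph e k x * ev p.cp x) *
          (∫ x in (-1 : ℝ)..1, ph e l x * ev p.cp x) -
        (∫ x in (-1 : ℝ)..1, ph e k x * ev p.sp x) * (∫ x in (-1 : ℝ)..1, ph e l x * ev p.sp x))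
    - 2 * (∫ x in (0 : ℝ)..1, yf k x * yf l x)
    + (∑ r ∈ Finset.range p.R, 4 * p.la r *
        (∫ x in (ell r - 1)..1, (x - ell r) ^ (e + 2 * k) * yf l x))
    - (∑ r ∈ Finset.range p.R, ∑ r' ∈ Finset.range p.R, 2 * (p.la r * p.la r') *
        SS (ell r) (ell r') (e + 2 * k) (e + 2 * l))
    - 2 * dlt * (∫ x in (0 : ℝ)..1, ph e k x * ph e l x)

/-- symmetrised expansion -/
def S_SYM : Prop := ∀ (p : Prm) (ell : ℕ → ℝ) (c : CG) (dlt : ℝ), S_EXP → S_UI → c.e ≤ 1 →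
  (∀ k < c.n, ∀ x, zfg p c.e k x = yr p.m c.e k c.Lr (zkr p c.e k) x) →
  ∀ k < c.n, ∀ l < c.n,
    Ng p ell c.e dlt (yfg p c) k l + Ng p ell c.e dlt (yfg p c) l k =
      Nb p c dlt k l + Nb p c dlt l k +
      (∑ r ∈ Finset.range p.R, 2 * p.la r *
        (GFr p c (ell r) (ell r - 1) 1 k l + GFr p c (ell r) (ell r - 1) 1 l k)) -
      (∑ r ∈ Finset.range p.R, ∑ r' ∈ Finset.range p.R, 2 * (p.la r * p.la r') *
        (SS (ell r) (ell r') (c.e + 2 * k) (c.e + 2 * l) +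
          SS (ell r) (ell r') (c.e + 2 * l) (c.e + 2 * k)))

/-- error bound of the base part -/
noncomputable def eb (m Lr : ℕ) (B : ℝ) : ℝ :=
  2 * (B + Lr + 1) + 3 * m + 90 + 2 * (m * ((3 * m / 2) / 2 + 1)) +
    4 * (B * (3 * m / 2) + m * Lr + 1) +
    2 * (B * (B + Lr + 1) + (B + Lr) * Lr + 1) + 11

/-- a table with its real counterpart -/
structure TR where
  q : ℝ
  F : ℕ → ℕ → ℝ

/-- the table `t` approximates `r` -/
def TOK (D : ℤ) (E : ℝ) (n : ℕ) (t : TB) (r : TR) : Prop :=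
  0 < t.cd ∧ (t.cn : ℝ) / (t.cd : ℝ) = r.q ∧ |r.q| ≤ 4 ∧
    ∀ k < n, Apx D E (r.F k) 0 (t.T.getD k [])

/-- approximation of the rows of the matrix -/
def S_APR : Prop := ∀ (p : Prm) (c : CG) (B dn dd : ℤ) (lm lu : ℕ) (E : ℝ) (ts : List TB)
  (tr : List TR), S_DOT → S_MU → S_US → chkC p c B = true → chkP p c = true →
  chkM c lm lu = true → 0 ≤ p.a → p.a ≤ 2 → 0 < dd → 0 ≤ dn → dn ≤ dd → 0 ≤ E →
  (∀ k < c.n, Apx c.D 1 (zkr p c.e k) 0 (c.Z.getD k []) ∧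
    Apx c.D 1 (ykr p c k) 0 (c.Y.getD k []) ∧
    (∀ j, (c.Z.getD k []).length ≤ j → zkr p c.e k j = 0) ∧
    (∀ j, (c.Y.getD k []).length ≤ j → ykr p c k j = 0)) →
  List.Forall₂ (TOK c.D E c.n) ts tr →
  ∀ k < c.n, Apx c.D (eb p.m c.Lr (B : ℝ) + ts.length * (4 * E + 1))
    (fun l => Nb p c ((dn : ℝ) / (dd : ℝ)) k l + (tr.map (fun r => r.q * r.F k l)).sum) 0
    (rowN c p.a dn dd ts k)

end Pool.Agent.W187.WQ
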