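import Mathlib
import Pool.Agent.W187.WQ.Fx3

/-!
# Assembly of the certificate
-/

open MeasureTheory Set
open Pool.Agent.W187.WP

namespace Pool.Agent.W187.WQ

theorem Apx.get {D ε : ℝ} : ∀ {f : ℕ → ℝ} {l : List ℤ} {k : ℕ}, Apx D ε f k l →
    ∀ i < l.length, |D * f (k + i) - ((l.getD i 0 : ℤ) : ℝ)| ≤ ε := by
  intro f l
  induction l with
  | nil => intro k _ i hi; simp at hi
  | cons a l ih =>
      intro k h i hi
      obtain ⟨h1, h2⟩ := h
      cases i with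
      | zero => simpa using h1
      | succ i =>
          have := ih h2 i (by simpa using hi)
          simp only [List.getD_cons_succ]
          rwa [show k + (i + 1) = k + 1 + i by omega]

theorem Apx.of_get {D ε : ℝ} : ∀ {f : ℕ → ℝ} {l : List ℤ} {k : ℕ},
    (∀ i < l.length, |D * f (k + i) - ((l.getD i 0 : ℤ) : ℝ)| ≤ ε) → Apx D ε f k l := by
  intro f l
  induction l with
  | nil => intro k _; trivial
  | cons a l ih =>
      intro k h
      refine ⟨by simpa using h 0 (by simp), ih (fun i hi => ?_)⟩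
      have := h (i + 1) (by simpa using hi)
      simp only [List.getD_cons_succ] at this
      rwa [show k + (i + 1) = k + 1 + i by omega] at this

theorem quad_symm (n : ℕ) (N N' : ℕ → ℕ → ℝ)
    (h : ∀ k < n, ∀ l < n, N k l + N l k = N' k l + N' l k) (c : ℕ → ℝ) :
    ∑ k ∈ Finset.range n, ∑ l ∈ Finset.range n, N k l * (c k * c l) =
      ∑ k ∈ Finset.range n, ∑ l ∈ Finset.range n, N' k l * (c k * c l) := by
  have sw : ∀ M : ℕ → ℕ → ℝ, ∑ k ∈ Finset.range n, ∑ l ∈ Finset.range n, M k l * (c k * c l) =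
      ∑ k ∈ Finset.range n, ∑ l ∈ Finset.range n, (M k l + M l k) / 2 * (c k * c l) := by
    intro M
    have h1 : ∑ k ∈ Finset.range n, ∑ l ∈ Finset.range n, M k l * (c k * c l) =
        ∑ k ∈ Finset.range n, ∑ l ∈ Finset.range n, M l k * (c k * c l) := by
      rw [Finset.sum_comm]
      refine Finset.sum_congr rfl (fun k _ => Finset.sum_congr rfl (fun l _ => ?_))
      ring
    have h2 : ∑ k ∈ Finset.range n, ∑ l ∈ Finset.range n, (M k l + M l k) / 2 * (c k * c l) =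
        (∑ k ∈ Finset.range n, ∑ l ∈ Finset.range n, M k l * (c k * c l) +
        ∑ k ∈ Finset.range n, ∑ l ∈ Finset.range n, M l k * (c k * c l)) / 2 := by
      rw [← Finset.sum_add_distrib, Finset.sum_div]
      refine Finset.sum_congr rfl (fun k _ => ?_)
      rw [← Finset.sum_add_distrib, Finset.sum_div]
      refine Finset.sum_congr rfl (fun l _ => ?_)
      ring
    rw [h2, ← h1]; ring
  rw [sw N, sw N']
  refine Finset.sum_congr rfl (fun k hk => Finset.sum_congr rfl (fun l hl => ?_))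
  rw [h k (Finset.mem_range.mp hk) l (Finset.mem_range.mp hl)]

/-- all the elementary facts -/
structure Facts : Prop where
  r1 : S_R1g
  tx : S_TX
  r2c : S_R2C
  sh : S_SHg
  shsh : S_SHSH
  proj : S_PROJ
  dot : S_DOT
  mu : S_MU
  us : S_US
  ui : S_UI
  psd : S_PSDi
  near : S_NEAR
  exp : S_EXP
  yf : S_YF
  sym : S_SYM
  apr : S_APR

theorem certg (F : Facts) (p : Prm) (ell : ℕ → ℝ) (hell : ∀ r < p.R, 0 < ell r ∧ ell r < 2)
    (c : CG) (K : ℕ) (hn1 : K + 1 ≤ c.e + 2 * c.n) (hn2 : c.e + 2 * c.n ≤ K + 2)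
    (hcp : p.cp.length ≤ K + 1) (hsp : p.sp.length ≤ K + 1) (cw : ℝ) (B dn dd Eb S : ℤ)
    (lm lu : ℕ) (E : ℝ) (ts : List TB) (tr : List TR)
    (hcw : 1 + (dn : ℝ) / (dd : ℝ) ≤ cw)
    (hR3 : ∀ w : ℝ → ℝ, ContDiff ℝ 1 w → (∀ k ≤ K, ∫ x in (-1 : ℝ)..1, w x * x ^ k = 0) →
      cw * (∫ x in (-1 : ℝ)..1, w x ^ 2) ≤ Qg p ell w)
    (h1 : chkC p c B = true) (h2 : chkZg p c = true) (h3 : chkP p c = true)
    (h4 : chkM c lm lu = true) (ha : 0 ≤ p.a) (ha2 : p.a ≤ 2) (hdd : 0 < dd) (hdn : 0 ≤ dn)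
    (hdn2 : dn ≤ dd) (hE : 0 ≤ E) (hT : List.Forall₂ (TOK c.D E c.n) ts tr)
    (htr : ∀ k < c.n, ∀ l < c.n, (tr.map (fun r => r.q * r.F k l)).sum +
      (tr.map (fun r => r.q * r.F l k)).sum =
      (∑ r ∈ Finset.range p.R, 2 * p.la r *
        (GFr p c (ell r) (ell r - 1) 1 k l + GFr p c (ell r) (ell r - 1) 1 l k)) -
      (∑ r ∈ Finset.range p.R, ∑ r' ∈ Finset.range p.R, 2 * (p.la r * p.la r') *
        (SS (ell r) (ell r') (c.e + 2 * k) (c.e + 2 * l) +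
          SS (ell r) (ell r') (c.e + 2 * l) (c.e + 2 * k))))
    (hrow : ∀ k < c.n, rowN c p.a dn dd ts k = c.Nh.getD k [])
    (hlen : ∀ k < c.n, c.n ≤ (c.Nh.getD k []).length)
    (hEb : eb p.m c.Lr (B : ℝ) + ts.length * (4 * E + 1) ≤ (Eb : ℝ))
    (hS : S * S = c.D) (hEb0 : 0 ≤ Eb)
    (hL : chkPi c.n Eb c.Nh c.L = true)
    (h : ℝ → ℝ) (hh : ContDiff ℝ 1 h) (hpar : Par ((-1) ^ c.e) h) :
    (dn : ℝ) / (dd : ℝ) * (∫ x in (-1 : ℝ)..1, h x ^ 2) ≤ Qg p ell h := by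
  obtain ⟨y1, y2, y3, y4, y5⟩ := F.yf p c B F.near h1 h2
  have hc := h1
  simp only [chkC, Bool.and_eq_true, decide_eq_true_eq] at hc
  have hD : 0 < c.D := hc.1.1.1.1.1.1.1.1.1.1.1
  have he : c.e ≤ 1 := hc.1.1.1.1.1.1.1.1.1.1.2
  have hap := F.apr p c B dn dd lm lu E ts tr F.dot F.mu F.us h1 h3 h4 ha ha2 hdd hdn hdn2 hE y5 hT
  refine r4g F.r1 F.tx F.r2c F.sh F.shsh F.proj p ell hell c.e c.n K he hn1 hn2 hcp hsp cw
    ((dn : ℝ) / (dd : ℝ)) hcw hR3 (yfg p c) y1 y2 y3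
    (Ng p ell c.e ((dn : ℝ) / (dd : ℝ)) (yfg p c)) (fun k _ l _ => rfl) ?_ h hh hpar
  intro x
  rw [quad_symm c.n _ (fun k l => Nb p c ((dn : ℝ) / (dd : ℝ)) k l +
    (tr.map (fun r => r.q * r.F k l)).sum) ?_ x]
  · refine F.psd c.n c.D S Eb c.Nh c.L _ hD hS hEb0 hL ?_ x
    intro k hk l hl
    have := (hap k hk).get l (by rw [hrow k hk]; exact lt_of_lt_of_le hl (hlen k hk))
    rw [hrow k hk, zero_add] at this
    exact this.trans hEb
  · intro k hk l hl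
    rw [F.sym p ell c _ F.exp F.ui he y4 k hk l hl]
    have := htr k hk l hl
    linarith

/-- tables from the checks of `gtab` -/
theorem tok_g (hG : S_GTAB) (D s : ℤ) (sr lo ε S E Et : ℝ) (m e n Lr : ℕ) (f : ℕ → ℕ → ℝ)
    (Rs : List (List ℤ)) (rj rv : List ℤ) (hD : 0 < D) (he : e ≤ 1) (hε : 0 ≤ ε)
    (hs : |(D : ℝ) * sr - (s : ℝ)| ≤ 1) (hsr : |sr| ≤ 2) (hlo : lo = sr - 1) (hlo0 : 0 < sr)
    (hj : Apx D ε (Jf sr lo 1 0) 0 rj) (hv : Apx D ε (Vf m sr lo 1 0) 0 rv)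
    (hRs : Rs.length = n)
    (hR : ∀ l < n, (Rs.getD l []).length ≤ Lr ∧ Apx D 2 (f l) 0 (Rs.getD l []) ∧
      ((nm1 (Rs.getD l []) : ℤ) : ℝ) ≤ S)
    (l1 : 2 * n + 2 * Lr + 1 ≤ rj.length) (l2 : 2 * n + 2 * n + 1 ≤ rv.length)
    (e1 : 3 ^ (2 * n + 1) * (ε + m + 4) ≤ E) (e2 : E ≤ D)
    (e3 : S * E / D + 4 * Lr + 2 * E + 1 ≤ Et)
    (T : TB) (q : ℝ) (F : ℕ → ℕ → ℝ) (hcd : 0 < T.cd) (hq : (T.cn : ℝ) / (T.cd : ℝ) = q)
    (hq4 : |q| ≤ 4) (hT : gtab s D e Rs n (st s D e rj) (st s D e rv) = T.T)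
    (hl : ∀ k < n, (T.T.getD k []).length ≤ n)
    (hF : ∀ k < n, ∀ l < n, F k l =
      (∑ j ∈ Finset.range (Rs.getD l []).length, f l j * Jf sr lo 1 (e + 2 * k) (e + 2 * j))
        + 2 * Vf m sr lo 1 (e + 2 * k) (e + 2 * l)) :
    TOK D Et n T ⟨q, F⟩ := by
  refine ⟨hcd, hq, hq4, fun k hk => Apx.of_get (fun l hl' => ?_)⟩
  have hln : l < n := lt_of_lt_of_le hl' (hl k hk)
  have := hG D s sr lo 1 ε S E m e n n Lr f Rs rj rv hD he hε hs hsr
    (by rw [hlo]; linarith) (by rw [hlo]; have := (abs_le.mp hsr).2; linarith) le_rfl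
    (by rw [hlo]; linarith) (by linarith) hj hv hRs hR l1 l2 e1 e2 k hk l hln
  rw [hT] at this
  show |(D : ℝ) * F k (0 + l) - _| ≤ _
  rw [zero_add, hF k hk l hln]
  exact this.trans e3

/-- tables from the checks of `wtab` -/
theorem tok_w (hW : S_WTAB) (D s : ℤ) (sr lo hi ε E Et : ℝ) (e n : ℕ) (rj : List ℤ) (hD : 0 < D)
    (he : e ≤ 1) (hε : 0 ≤ ε)
    (hs : |(D : ℝ) * sr - (s : ℝ)| ≤ 1) (hsr : |sr| ≤ 2) (b1 : -1 ≤ lo) (b2 : lo ≤ hi)
    (b3 : hi ≤ 1) (b4 : -1 ≤ lo - sr) (b5 : hi - sr ≤ 1)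
    (hj : Apx D ε (Jf sr lo hi 0) 0 rj)
    (l1 : 2 * n + 2 * n + 1 ≤ rj.length)
    (e1 : 3 ^ (2 * n + 1) * (ε + 4) ≤ E) (e2 : E ≤ D) (e3 : E ≤ Et)
    (T : TB) (q : ℝ) (hcd : 0 < T.cd) (hq : (T.cn : ℝ) / (T.cd : ℝ) = q)
    (hq4 : |q| ≤ 4) (hT : wtab s D e n n (st s D e rj) = T.T)
    (hl : ∀ k < n, (T.T.getD k []).length ≤ n) :
    TOK D Et n T ⟨q, fun k l => Jf sr lo hi (e + 2 * k) (e + 2 * l)⟩ := by
  refine ⟨hcd, hq, hq4, fun k hk => Apx.of_get (fun l hl' => ?_)⟩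
  have hln : l < n := lt_of_lt_of_le hl' (hl k hk)
  have := hW D s sr lo hi ε E e n n rj hD he hε hs hsr b1 b2 b3 b4 b5 hj l1 e1 e2 k hk l hln
  rw [hT] at this
  rw [zero_add]
  exact this.trans e3

theorem Apx.mono {D ε ε' : ℝ} (he : ε ≤ ε') : ∀ {f : ℕ → ℝ} {l : List ℤ} {k : ℕ},
    Apx D ε f k l → Apx D ε' f k l := by
  intro f l
  induction l with
  | nil => intro k _; trivial
  | cons a l ih => intro k h; exact ⟨h.1.trans he, ih h.2⟩

theorem Apx.two (D : ℤ) : ∀ {y : ℕ → ℝ} {l : List ℤ} {k : ℕ}, Apx D 1 y k l →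
    Apx D 2 (fun j => 2 * y j) k (l.map (fun v => 2 * v)) := by
  intro y l
  induction l with
  | nil => intro k _; trivial
  | cons a l ih =>
      intro k h
      refine ⟨?_, ih h.2⟩
      have := abs_le.mp h.1
      rw [abs_le]
      push_cast
      constructor <;> linarith [this.1, this.2]

theorem rsl_length (D : ℤ) : ∀ (l : ℕ) (y : List ℤ), (rsl D l y).length = y.length := by
  intro l y
  induction y generalizing l with
  | nil => cases l <;> rfl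
  | cons a y ih =>
      cases l with
      | zero => simp [rsl]
      | succ l => simp [rsl, ih]

theorem rsl_apx (D : ℤ) : ∀ {y : ℕ → ℝ} {Y : List ℤ} {k l : ℕ}, Apx D 1 y k Y →
    Apx D 2 (fun j => 2 * y j - if j = k + l then 1 else 0) k (rsl D l Y) := by
  intro y Y
  induction Y with
  | nil => intro k l _; cases l <;> trivial
  | cons a Y ih =>
      intro k l h
      cases l with
      | zero =>
          refine ⟨?_, ?_⟩
          · have := abs_le.mp h.1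
            rw [abs_le]
            simp only [add_zero, if_true]
            push_cast
            constructor <;> linarith [this.1, this.2]
          · have h2 := Apx.two D h.2
            refine Apx.of_get (fun i hi => ?_)
            have h3 := h2.get i hi
            have : ¬ (k + 1 + i = k + 0) := by omega
            simp only [this, if_false, sub_zero]
            exact h3
      | succ l =>
          refine ⟨?_, ?_⟩
          · have := abs_le.mp h.1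
            have h0 : ¬ (k = k + (l + 1)) := by omega
            rw [abs_le]
            simp only [h0, if_false, sub_zero]
            push_cast
            constructor <;> linarith [this.1, this.2]
          · have := ih (k := k + 1) (l := l) h.2
            rw [show k + (l + 1) = k + 1 + l by omega]
            exact this

theorem Jf_zero (s s' lo hi : ℝ) : Jf s lo hi 0 = Jf s' lo hi 0 := by
  funext j; simp [Jf]

/-- the shift tables -/
theorem tok_shift (F : Facts) (hG : S_GTAB) (hMR : S_MROW) (hVR : S_VROW) (p : Prm) (c : CG)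
    (B : ℤ) (h1 : chkC p c B = true) (h2 : chkZg p c = true) (hm : 2 ≤ p.m) (s : ℤ) (sr : ℝ)
    (hs : |(c.D : ℝ) * sr - (s : ℝ)| ≤ 1) (hs0 : 0 < sr) (hs2 : sr < 2) (lJ lV : ℕ)
    (hlJ : 3 * (lJ : ℤ) ≤ c.D) (hlV : lV + 2 * c.m ≤ lJ) (l1 : 2 * c.n + 2 * c.Lr + 1 ≤ lJ)
    (l2 : 2 * c.n + 2 * c.n + 1 ≤ lV) (E Et : ℝ)
    (e1 : 3 ^ (2 * c.n + 1) * (c.m * (7 / 2 + 1) + c.m + 4) ≤ E) (e2 : E ≤ c.D)
    (e3 : 2 * B * E + 4 * c.Lr + 2 * E + 1 ≤ Et)
    (T : TB) (q : ℝ) (hcd : 0 < T.cd) (hq : (T.cn : ℝ) / (T.cd : ℝ) = q) (hq4 : |q| ≤ 4)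
    (hT : gtab s c.D c.e c.Rs c.n (st s c.D c.e (mrow c.D (s - c.D) c.D lJ 0 c.D c.D))
      (st s c.D c.e (vrow c.m lV (mrow c.D (s - c.D) c.D lJ 0 c.D c.D))) = T.T)
    (hl : ∀ k < c.n, (T.T.getD k []).length ≤ c.n)
    (hJl : (mrow c.D (s - c.D) c.D lJ 0 c.D c.D).length = lJ)
    (hVl : (vrow c.m lV (mrow c.D (s - c.D) c.D lJ 0 c.D c.D)).length = lV) :
    TOK c.D Et c.n T ⟨q, GFr p c sr (sr - 1) 1⟩ := by
  obtain ⟨-, -, -, -, y5⟩ := F.yf p c B F.near h1 h2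
  have hc := h1
  simp only [chkC, Bool.and_eq_true, decide_eq_true_eq, List.all_eq_true, List.mem_range] at hc
  have hD : 0 < c.D := hc.1.1.1.1.1.1.1.1.1.1.1
  have he : c.e ≤ 1 := hc.1.1.1.1.1.1.1.1.1.1.2
  have hcm : c.m = p.m := hc.1.1.1.1.1.1.1.1.1.2
  have hRsl : c.Rs.length = c.n := hc.1.1.1.1.2
  have hB : 0 ≤ B := hc.1.2
  have hall := hc.2
  have rD : (0 : ℝ) < (c.D : ℝ) := by exact_mod_cast hD
  have rB : (0 : ℝ) ≤ (B : ℝ) := by exact_mod_cast hB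
  have hm' : (2 : ℝ) ≤ (c.m : ℝ) := by rw [hcm]; exact_mod_cast hm
  have hJ := hMR c.D (s - c.D) c.D (sr - 1) 1 lJ hD hlJ
    (by push_cast; rw [show (c.D : ℝ) * (sr - 1) - ((s : ℝ) - c.D) = c.D * sr - s by ring]; exact hs)
    (by simp) (by rw [abs_le]; constructor <;> linarith) (by simp)
  rw [Jf_zero 0 sr] at hJ
  have hV := hVR c.D 7 sr (sr - 1) 1 c.m lV _ hD (by norm_num) hJ (by rw [hJl]; exact hlV)
  refine tok_g hG c.D s sr (sr - 1) (c.m * (7 / 2 + 1)) (2 * B * c.D) E Et c.m c.e c.n c.Lr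
    (fun l j => 2 * ykr p c l j - if j = 0 + l then 1 else 0) c.Rs _ _ hD he (by positivity) hs
    (by rw [abs_le]; constructor <;> linarith) rfl hs0 (hJ.mono (by nlinarith)) hV hRsl ?_
    (by rw [hJl]; exact l1) (by rw [hVl]; exact l2) e1 e2 ?_ T q _ hcd hq hq4 hT hl ?_
  · intro l hl'
    obtain ⟨⟨⟨⟨⟨⟨⟨⟨⟨a1, a2⟩, a3⟩, a4⟩, a5⟩, a6⟩, a7⟩, a8⟩, a9⟩, a10⟩ := hall l hl'
    rw [a8, rsl_length]
    refine ⟨a3, rsl_apx c.D (y5 l hl').2.1, ?_⟩
    rw [← a8]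
    exact_mod_cast a7
  · rw [show 2 * (B : ℝ) * (c.D : ℝ) * E / (c.D : ℝ) = 2 * B * E by field_simp]
    exact e3
  · intro k hk l hl'
    obtain ⟨⟨⟨⟨⟨⟨⟨⟨⟨a1, a2⟩, a3⟩, a4⟩, a5⟩, a6⟩, a7⟩, a8⟩, a9⟩, a10⟩ := hall l hl'
    have y0 := (y5 l hl').2.2.2
    rw [a8, rsl_length]
    have hsum : ∑ j ∈ Finset.range c.Lr, ykr p c l j *
        Jf sr (sr - 1) 1 (c.e + 2 * k) (c.e + 2 * j) =
        ∑ j ∈ Finset.range (c.Y.getD l []).length, ykr p c l j *
        Jf sr (sr - 1) 1 (c.e + 2 * k) (c.e + 2 * j) := by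
      symm
      apply Finset.sum_subset (Finset.range_mono a3)
      intro j _ hj
      rw [y0 j (by simpa using hj), zero_mul]
    unfold GFr
    rw [hsum, hcm]
    have hsplit : ∑ j ∈ Finset.range (c.Y.getD l []).length,
        (2 * ykr p c l j - if j = 0 + l then 1 else 0) *
          Jf sr (sr - 1) 1 (c.e + 2 * k) (c.e + 2 * j) =
        2 * (∑ j ∈ Finset.range (c.Y.getD l []).length, ykr p c l j *
        Jf sr (sr - 1) 1 (c.e + 2 * k) (c.e + 2 * j)) -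
        Jf sr (sr - 1) 1 (c.e + 2 * k) (c.e + 2 * l) := by
      simp only [sub_mul, Finset.sum_sub_distrib, ite_mul, one_mul, zero_mul, zero_add,
        Finset.sum_ite_eq']
      rw [if_pos (Finset.mem_range.mpr (lt_of_lt_of_le hl' a2)), Finset.mul_sum]
      congr 1
      refine Finset.sum_congr rfl (fun j _ => by ring)
    rw [hsplit]
    ring

theorem mrow_length (D lo hi : ℤ) : ∀ (c j : ℕ) (pl ph : ℤ), (mrow D lo hi c j pl ph).length = c
  | 0, _, _, _ => rfl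
  | c + 1, j, pl, ph => by simp [mrow, mrow_length D lo hi c]

theorem vrow_length (m : ℕ) : ∀ (c : ℕ) (l : List ℤ), (vrow m c l).length = c
  | 0, _ => rfl
  | c + 1, l => by simp [vrow, vrow_length m c]

/-- the double shift tables -/
theorem tok_job (hW : S_WTAB) (hMR : S_MROW) (D s h : ℤ) (sr hi : ℝ) (e n : ℕ) (hD : 0 < D)
    (he : e ≤ 1)
    (hs : |(D : ℝ) * sr - (s : ℝ)| ≤ 1) (hh : |(D : ℝ) * hi - (h : ℝ)| ≤ 1) (hsr : |sr| ≤ 2)
    (b2 : -1 ≤ hi) (b3 : hi ≤ 1) (b4 : sr ≤ 0) (b5 : hi - sr ≤ 1) (lJ : ℕ)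
    (hlJ : 3 * (lJ : ℤ) ≤ D) (l1 : 2 * n + 2 * n + 1 ≤ lJ) (E Et : ℝ)
    (e1 : 3 ^ (2 * n + 1) * 11 ≤ E) (e2 : E ≤ D) (e3 : E ≤ Et)
    (T : TB) (q : ℝ) (hcd : 0 < T.cd) (hq : (T.cn : ℝ) / (T.cd : ℝ) = q)
    (hq4 : |q| ≤ 4) (hT : wtab s D e n n (st s D e (mrow D (-D) h lJ 0 D D)) = T.T)
    (hl : ∀ k < n, (T.T.getD k []).length ≤ n) :
    TOK D Et n T ⟨q, fun k l => Jf sr (-1) hi (e + 2 * k) (e + 2 * l)⟩ := by
  have hJ := hMR D (-D) h (-1) hi lJ hD hlJ (by simp) hh (by simp)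
    (by rw [abs_le]; constructor <;> linarith)
  rw [Jf_zero 0 sr] at hJ
  exact tok_w hW D s sr (-1) hi 7 E Et e n _ hD he (by norm_num) hs hsr le_rfl b2 b3
    (by linarith) b5 hJ (by rw [mrow_length]; exact l1) (by norm_num; linarith) e2 e3 T q hcd hq
    hq4 hT hl

end Pool.Agent.W187.WQ
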