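import Mathlib
import Pool.Agent.W187.WQ.Stmts5
import Pool.Agent.W90.WQ.Logs

/-!
# Numerical values for length `log 5`
-/

open Pool.Agent.W187.WP

namespace Pool.Agent.W187.WQ

theorem ell5_0 : |ell5 0 - 69314718055994530941723212145817656807550013436025525412068000949339362196969471560586332699641868754200148102057068573368552023575813055703267075163507596 / 10 ^ 155 * (12500 / 10059)| ≤ 2 / 10 ^ 150 := by
  have h := Pool.Agent.W90.WQ.logs.1
  have e : ell5 0 = Real.log 2 * (12500 / 10059) := by
    unfold ell5 ns5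
    norm_num [div_eq_mul_inv]
  rw [e, ← sub_mul, abs_mul]
  calc _ ≤ 1 / 10 ^ 150 * |(12500 / 10059 : ℝ)| := mul_le_mul_of_nonneg_right h (abs_nonneg _)
    _ ≤ 2 / 10 ^ 150 := by rw [abs_of_pos (by norm_num)]; norm_num

theorem ell5_1 : |ell5 1 - 109861228866810969139524523692252570464749055782274945173469433363749429321860896687361575481373208878797002906595786574236800422593051982105280187076727741 / 10 ^ 155 * (12500 / 10059)| ≤ 2 / 10 ^ 150 := by
  have h := Pool.Agent.W90.WQ.logs.2.1
  have e : ell5 1 = Real.log 3 * (12500 / 10059) := by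
    unfold ell5 ns5
    norm_num [div_eq_mul_inv]
  rw [e, ← sub_mul, abs_mul]
  calc _ ≤ 1 / 10 ^ 150 * |(12500 / 10059 : ℝ)| := mul_le_mul_of_nonneg_right h (abs_nonneg _)
    _ ≤ 2 / 10 ^ 150 := by rw [abs_of_pos (by norm_num)]; norm_num

theorem ell5_2 : ell5 2 = 2 * ell5 0 := by
  have e : Real.log 4 = 2 * Real.log 2 := by
    rw [show (4 : ℝ) = 2 ^ 2 by norm_num, Real.log_pow]; norm_num
  unfold ell5 ns5
  norm_num [e]
  ring

theorem la5_0 : p5.la 0 = 245064535867136797928475430909 / 500000000000000000000000000000 := by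
  norm_num [Prm.la, p5]

theorem la5_1 : p5.la 1 = 126856820119512795437277554509 / 200000000000000000000000000000 := by
  norm_num [Prm.la, p5]

theorem la5_2 : p5.la 2 = 346573590279972654708616060729 / 1000000000000000000000000000000 := by
  norm_num [Prm.la, p5]

end Pool.Agent.W187.WQ
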