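import Pool.Agent.W187.WQ.Fx3
import Pool.Agent.W187.WQ.A1

/-!
# Checks of the data for length `log 5`, parity 1
-/

open Pool.Agent.W187.WP

namespace Pool.Agent.W187.WQ.A1

theorem cC : chkC p5 C (10 ^ 14) = true := by
  decide +kernel

theorem cZ : chkZg p5 C = true := by
  decide +kernel

theorem cP : chkP p5 C = true := by
  decide +kernel

theorem cM : chkM C 299 170 = true := by
  decide +kernel

theorem cR : (List.range 21).all (fun k =>
    decide (rowN C p5.a 31 (10 ^ 19) ts k = Nh.getD k [])) = true := by
  decide +kernel

theorem cN : (List.range 21).all (fun k => decide (21 ≤ (Nh.getD k []).length)) = true := by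
  decide +kernel

theorem cL : chkPi 21 (10 ^ 42) Nh L = true := by
  decide +kernel

end Pool.Agent.W187.WQ.A1
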