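import Pool.Agent.W187.WQ.A1

/-!
# Checks of the tables for length `log 5`, parity 1
-/

open Pool.Agent.W187.WP

namespace Pool.Agent.W187.WQ.A1

theorem cG0 : gtab s0 D 1 Rs 21 (st s0 D 1 (mrow D (s0 - D) D 341 0 D D))
    (st s0 D 1 (vrow 128 85 (mrow D (s0 - D) D 341 0 D D))) = G0 := by
  decide +kernel

theorem lG0 : (List.range 21).all (fun k => decide ((G0.getD k []).length ≤ 21)) = true := by
  decide +kernel

theorem cG1 : gtab s1 D 1 Rs 21 (st s1 D 1 (mrow D (s1 - D) D 341 0 D D))
    (st s1 D 1 (vrow 128 85 (mrow D (s1 - D) D 341 0 D D))) = G1 := by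
  decide +kernel

theorem lG1 : (List.range 21).all (fun k => decide ((G1.getD k []).length ≤ 21)) = true := by
  decide +kernel

theorem cG2 : gtab s2 D 1 Rs 21 (st s2 D 1 (mrow D (s2 - D) D 341 0 D D))
    (st s2 D 1 (vrow 128 85 (mrow D (s2 - D) D 341 0 D D))) = G2 := by
  decide +kernel

theorem lG2 : (List.range 21).all (fun k => decide ((G2.getD k []).length ≤ 21)) = true := by
  decide +kernel

theorem cW0 : wtab w0 D 1 21 21 (st w0 D 1 (mrow D (-D) h0 85 0 D D)) = W0 := by
  decide +kernel

theorem lW0 : (List.range 21).all (fun k => decide ((W0.getD k []).length ≤ 21)) = true := by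
  decide +kernel

theorem cW1 : wtab w1 D 1 21 21 (st w1 D 1 (mrow D (-D) h1 85 0 D D)) = W1 := by
  decide +kernel

theorem lW1 : (List.range 21).all (fun k => decide ((W1.getD k []).length ≤ 21)) = true := by
  decide +kernel

theorem cW2 : wtab w2 D 1 21 21 (st w2 D 1 (mrow D (-D) h2 85 0 D D)) = W2 := by
  decide +kernel

theorem lW2 : (List.range 21).all (fun k => decide ((W2.getD k []).length ≤ 21)) = true := by
  decide +kernel

theorem cW3 : wtab w3 D 1 21 21 (st w3 D 1 (mrow D (-D) h3 85 0 D D)) = W3 := by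
  decide +kernel

theorem lW3 : (List.range 21).all (fun k => decide ((W3.getD k []).length ≤ 21)) = true := by
  decide +kernel

theorem cW4 : wtab w4 D 1 21 21 (st w4 D 1 (mrow D (-D) h4 85 0 D D)) = W4 := by
  decide +kernel

theorem lW4 : (List.range 21).all (fun k => decide ((W4.getD k []).length ≤ 21)) = true := by
  decide +kernel

theorem cW5 : wtab w5 D 1 21 21 (st w5 D 1 (mrow D (-D) h5 85 0 D D)) = W5 := by
  decide +kernel

theorem lW5 : (List.range 21).all (fun k => decide ((W5.getD k []).length ≤ 21)) = true := by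
  decide +kernel

theorem cW6 : wtab w6 D 1 21 21 (st w6 D 1 (mrow D (-D) h6 85 0 D D)) = W6 := by
  decide +kernel

theorem lW6 : (List.range 21).all (fun k => decide ((W6.getD k []).length ≤ 21)) = true := by
  decide +kernel

end Pool.Agent.W187.WQ.A1
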