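import Mathlib
import Pool.Agent.W187.WQ.Certg
import Pool.Agent.W187.WQ.N5
import Pool.Agent.W187.WQ.A1a
import Pool.Agent.W187.WQ.A1b

/-!
# The certificate for length `log 5`, parity 1
-/

open MeasureTheory Set
open Pool.Agent.W187.WP

namespace Pool.Agent.W187.WQ.A1

theorem hDr : ((C.D : ℤ) : ℝ) = 10 ^ 80 := by
  have : C.D = 10 ^ 80 := by decide +kernel
  rw [this]; norm_num

theorem ln_of {T : List (List ℤ)} (h : (List.range 21).all (fun k =>
    decide ((T.getD k []).length ≤ 21)) = true) (k : ℕ) (hk : k < C.n) :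
    (T.getD k []).length ≤ C.n := by
  rw [List.all_eq_true] at h
  exact of_decide_eq_true (h k (List.mem_range.mpr hk))

theorem hs0 : |((C.D : ℤ) : ℝ) * ell5 0 - ((s0 : ℤ) : ℝ)| ≤ 1 := by
  have h1 : s0 = 86135199890638397134063043227231405715714799478111051560875833767446269754659349 := by decide +kernel
  have b0 := abs_le.mp ell5_0
  have b1 := abs_le.mp ell5_1
  have b2 := ell5_2
  rw [hDr, h1, abs_le]
  push_cast
  constructor <;> linarith [b0.1, b0.2, b1.1, b1.2]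

theorem hs1 : |((C.D : ℤ) : ℝ) * ell5 1 - ((s1 : ℤ) : ℝ)| ≤ 1 := by
  have h1 : s1 = 136521061818782892359484694915315352501179361495023045498396253807224164084229169 := by decide +kernel
  have b0 := abs_le.mp ell5_0
  have b1 := abs_le.mp ell5_1
  have b2 := ell5_2
  rw [hDr, h1, abs_le]
  push_cast
  constructor <;> linarith [b0.1, b0.2, b1.1, b1.2]

theorem hs2 : |((C.D : ℤ) : ℝ) * ell5 2 - ((s2 : ℤ) : ℝ)| ≤ 1 := by
  have h1 : s2 = 172270399781276794268126086454462811431429598956222103121751667534892539509318699 := by decide +kernel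
  have b0 := abs_le.mp ell5_0
  have b1 := abs_le.mp ell5_1
  have b2 := ell5_2
  rw [hDr, h1, abs_le]
  push_cast
  constructor <;> linarith [b0.1, b0.2, b1.1, b1.2]

theorem hw0 : |((D : ℤ) : ℝ) * 0 - ((w0 : ℤ) : ℝ)| ≤ 1 := by
  have h1 : w0 = 0 := by decide +kernel
  have h2 : ((D : ℤ) : ℝ) = 10 ^ 80 := hDr
  have b0 := abs_le.mp ell5_0
  have b1 := abs_le.mp ell5_1
  have b2 := ell5_2
  rw [h2, h1, abs_le]
  push_cast
  constructor <;> linarith [b0.1, b0.2, b1.1, b1.2]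

theorem hh0 : |((D : ℤ) : ℝ) * (1 - ell5 0) - ((h0 : ℤ) : ℝ)| ≤ 1 := by
  have h1 : h0 = 13864800109361602865936956772768594284285200521888948439124166232553730245340651 := by decide +kernel
  have h2 : ((D : ℤ) : ℝ) = 10 ^ 80 := hDr
  have b0 := abs_le.mp ell5_0
  have b1 := abs_le.mp ell5_1
  have b2 := ell5_2
  rw [h2, h1, abs_le]
  push_cast
  constructor <;> linarith [b0.1, b0.2, b1.1, b1.2]

theorem hw1 : |((D : ℤ) : ℝ) * 0 - ((w1 : ℤ) : ℝ)| ≤ 1 := by
  have h1 : w1 = 0 := by decide +kernel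
  have h2 : ((D : ℤ) : ℝ) = 10 ^ 80 := hDr
  have b0 := abs_le.mp ell5_0
  have b1 := abs_le.mp ell5_1
  have b2 := ell5_2
  rw [h2, h1, abs_le]
  push_cast
  constructor <;> linarith [b0.1, b0.2, b1.1, b1.2]

theorem hh1 : |((D : ℤ) : ℝ) * (1 - ell5 1) - ((h1 : ℤ) : ℝ)| ≤ 1 := by
  have h1 : h1 = -36521061818782892359484694915315352501179361495023045498396253807224164084229169 := by decide +kernel
  have h2 : ((D : ℤ) : ℝ) = 10 ^ 80 := hDr
  have b0 := abs_le.mp ell5_0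
  have b1 := abs_le.mp ell5_1
  have b2 := ell5_2
  rw [h2, h1, abs_le]
  push_cast
  constructor <;> linarith [b0.1, b0.2, b1.1, b1.2]

theorem hw2 : |((D : ℤ) : ℝ) * 0 - ((w2 : ℤ) : ℝ)| ≤ 1 := by
  have h1 : w2 = 0 := by decide +kernel
  have h2 : ((D : ℤ) : ℝ) = 10 ^ 80 := hDr
  have b0 := abs_le.mp ell5_0
  have b1 := abs_le.mp ell5_1
  have b2 := ell5_2
  rw [h2, h1, abs_le]
  push_cast
  constructor <;> linarith [b0.1, b0.2, b1.1, b1.2]

theorem hh2 : |((D : ℤ) : ℝ) * (1 - ell5 2) - ((h2 : ℤ) : ℝ)| ≤ 1 := by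
  have h1 : h2 = -72270399781276794268126086454462811431429598956222103121751667534892539509318699 := by decide +kernel
  have h2 : ((D : ℤ) : ℝ) = 10 ^ 80 := hDr
  have b0 := abs_le.mp ell5_0
  have b1 := abs_le.mp ell5_1
  have b2 := ell5_2
  rw [h2, h1, abs_le]
  push_cast
  constructor <;> linarith [b0.1, b0.2, b1.1, b1.2]

theorem hw3 : |((D : ℤ) : ℝ) * (ell5 0 - ell5 1) - ((w3 : ℤ) : ℝ)| ≤ 1 := by
  have h1 : w3 = -50385861928144495225421651688083946785464562016911993937520420039777894329569819 := by decide +kernel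
  have h2 : ((D : ℤ) : ℝ) = 10 ^ 80 := hDr
  have b0 := abs_le.mp ell5_0
  have b1 := abs_le.mp ell5_1
  have b2 := ell5_2
  rw [h2, h1, abs_le]
  push_cast
  constructor <;> linarith [b0.1, b0.2, b1.1, b1.2]

theorem hh3 : |((D : ℤ) : ℝ) * (1 - ell5 1) - ((h3 : ℤ) : ℝ)| ≤ 1 := by
  have h1 : h3 = -36521061818782892359484694915315352501179361495023045498396253807224164084229169 := by decide +kernel
  have h2 : ((D : ℤ) : ℝ) = 10 ^ 80 := hDr
  have b0 := abs_le.mp ell5_0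
  have b1 := abs_le.mp ell5_1
  have b2 := ell5_2
  rw [h2, h1, abs_le]
  push_cast
  constructor <;> linarith [b0.1, b0.2, b1.1, b1.2]

theorem hw4 : |((D : ℤ) : ℝ) * (ell5 0 - ell5 2) - ((w4 : ℤ) : ℝ)| ≤ 1 := by
  have h1 : w4 = -86135199890638397134063043227231405715714799478111051560875833767446269754659349 := by decide +kernel
  have h2 : ((D : ℤ) : ℝ) = 10 ^ 80 := hDr
  have b0 := abs_le.mp ell5_0
  have b1 := abs_le.mp ell5_1
  have b2 := ell5_2
  rw [h2, h1, abs_le]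
  push_cast
  constructor <;> linarith [b0.1, b0.2, b1.1, b1.2]

theorem hh4 : |((D : ℤ) : ℝ) * (1 - ell5 2) - ((h4 : ℤ) : ℝ)| ≤ 1 := by
  have h1 : h4 = -72270399781276794268126086454462811431429598956222103121751667534892539509318699 := by decide +kernel
  have h2 : ((D : ℤ) : ℝ) = 10 ^ 80 := hDr
  have b0 := abs_le.mp ell5_0
  have b1 := abs_le.mp ell5_1
  have b2 := ell5_2
  rw [h2, h1, abs_le]
  push_cast
  constructor <;> linarith [b0.1, b0.2, b1.1, b1.2]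

theorem hw5 : |((D : ℤ) : ℝ) * (ell5 1 - ell5 2) - ((w5 : ℤ) : ℝ)| ≤ 1 := by
  have h1 : w5 = -35749337962493901908641391539147458930250237461199057623355413727668375425089530 := by decide +kernel
  have h2 : ((D : ℤ) : ℝ) = 10 ^ 80 := hDr
  have b0 := abs_le.mp ell5_0
  have b1 := abs_le.mp ell5_1
  have b2 := ell5_2
  rw [h2, h1, abs_le]
  push_cast
  constructor <;> linarith [b0.1, b0.2, b1.1, b1.2]

theorem hh5 : |((D : ℤ) : ℝ) * (1 - ell5 2) - ((h5 : ℤ) : ℝ)| ≤ 1 := by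
  have h1 : h5 = -72270399781276794268126086454462811431429598956222103121751667534892539509318699 := by decide +kernel
  have h2 : ((D : ℤ) : ℝ) = 10 ^ 80 := hDr
  have b0 := abs_le.mp ell5_0
  have b1 := abs_le.mp ell5_1
  have b2 := ell5_2
  rw [h2, h1, abs_le]
  push_cast
  constructor <;> linarith [b0.1, b0.2, b1.1, b1.2]

theorem hw6 : |((D : ℤ) : ℝ) * (-(2 * ell5 0)) - ((w6 : ℤ) : ℝ)| ≤ 1 := by
  have h1 : w6 = -172270399781276794268126086454462811431429598956222103121751667534892539509318699 := by decide +kernel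
  have h2 : ((D : ℤ) : ℝ) = 10 ^ 80 := hDr
  have b0 := abs_le.mp ell5_0
  have b1 := abs_le.mp ell5_1
  have b2 := ell5_2
  rw [h2, h1, abs_le]
  push_cast
  constructor <;> linarith [b0.1, b0.2, b1.1, b1.2]

theorem hh6 : |((D : ℤ) : ℝ) * (1 - 2 * ell5 0) - ((h6 : ℤ) : ℝ)| ≤ 1 := by
  have h1 : h6 = -72270399781276794268126086454462811431429598956222103121751667534892539509318699 := by decide +kernel
  have h2 : ((D : ℤ) : ℝ) = 10 ^ 80 := hDr
  have b0 := abs_le.mp ell5_0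
  have b1 := abs_le.mp ell5_1
  have b2 := ell5_2
  rw [h2, h1, abs_le]
  push_cast
  constructor <;> linarith [b0.1, b0.2, b1.1, b1.2]

noncomputable def tr : List TR := [⟨2 * p5.la 0, GFr p5 C (ell5 0) (ell5 0 - 1) 1⟩,
  ⟨2 * p5.la 1, GFr p5 C (ell5 1) (ell5 1 - 1) 1⟩,
  ⟨2 * p5.la 2, GFr p5 C (ell5 2) (ell5 2 - 1) 1⟩,
  ⟨-(2 * (p5.la 0 * p5.la 0)), fun k l => Jf 0 (-1) (1 - ell5 0) (1 + 2 * k) (1 + 2 * l)⟩,
  ⟨-(2 * (p5.la 1 * p5.la 1)), fun k l => Jf 0 (-1) (1 - ell5 1) (1 + 2 * k) (1 + 2 * l)⟩,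
  ⟨-(2 * (p5.la 2 * p5.la 2)), fun k l => Jf 0 (-1) (1 - ell5 2) (1 + 2 * k) (1 + 2 * l)⟩,
  ⟨-(4 * (p5.la 0 * p5.la 1)), fun k l => Jf (ell5 0 - ell5 1) (-1) (1 - ell5 1) (1 + 2 * k) (1 + 2 * l)⟩,
  ⟨-(4 * (p5.la 0 * p5.la 2)), fun k l => Jf (ell5 0 - ell5 2) (-1) (1 - ell5 2) (1 + 2 * k) (1 + 2 * l)⟩,
  ⟨-(4 * (p5.la 1 * p5.la 2)), fun k l => Jf (ell5 1 - ell5 2) (-1) (1 - ell5 2) (1 + 2 * k) (1 + 2 * l)⟩,
  ⟨-(2 * (p5.la 0 * p5.la 0)), fun k l => Jf (-(2 * ell5 0)) (-1) (1 - 2 * ell5 0) (1 + 2 * k) (1 + 2 * l)⟩]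

theorem tG0 (F : Facts) (hG : S_GTAB) (hMR : S_MROW) (hVR : S_VROW) :
    TOK C.D (10 ^ 40) C.n ⟨490129071734273595856950861818, 500000000000000000000000000000, G0⟩
      ⟨2 * p5.la 0, GFr p5 C (ell5 0) (ell5 0 - 1) 1⟩ := by
  have b0 := abs_le.mp ell5_0
  have b1 := abs_le.mp ell5_1
  have b2 := ell5_2
  refine tok_shift F hG hMR hVR p5 C (10 ^ 14) cC cZ (by norm_num [p5]) s0 (ell5 0) hs0
    (by norm_num at b0 b1 ⊢; linarith [b0.1, b0.2, b1.1, b1.2])
    (by norm_num at b0 b1 ⊢; linarith [b0.1, b0.2, b1.1, b1.2]) 341 85 (by decide +kernel)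
    (by decide +kernel) (by decide +kernel) (by decide +kernel) (10 ^ 25) (10 ^ 40)
    (by norm_num [C]) (by rw [hDr]; norm_num) (by norm_num [C]) _ _ (by norm_num) ?_ ?_ cG0
    (fun k hk => ln_of lG0 k hk) (mrow_length _ _ _ _ _ _ _) (vrow_length _ _ _)
  · rw [la5_0]; norm_num
  · rw [la5_0]; rw [abs_of_pos (by norm_num)]; norm_num

theorem tG1 (F : Facts) (hG : S_GTAB) (hMR : S_MROW) (hVR : S_VROW) :
    TOK C.D (10 ^ 40) C.n ⟨253713640239025590874555109018, 200000000000000000000000000000, G1⟩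
      ⟨2 * p5.la 1, GFr p5 C (ell5 1) (ell5 1 - 1) 1⟩ := by
  have b0 := abs_le.mp ell5_0
  have b1 := abs_le.mp ell5_1
  have b2 := ell5_2
  refine tok_shift F hG hMR hVR p5 C (10 ^ 14) cC cZ (by norm_num [p5]) s1 (ell5 1) hs1
    (by norm_num at b0 b1 ⊢; linarith [b0.1, b0.2, b1.1, b1.2])
    (by norm_num at b0 b1 ⊢; linarith [b0.1, b0.2, b1.1, b1.2]) 341 85 (by decide +kernel)
    (by decide +kernel) (by decide +kernel) (by decide +kernel) (10 ^ 25) (10 ^ 40)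
    (by norm_num [C]) (by rw [hDr]; norm_num) (by norm_num [C]) _ _ (by norm_num) ?_ ?_ cG1
    (fun k hk => ln_of lG1 k hk) (mrow_length _ _ _ _ _ _ _) (vrow_length _ _ _)
  · rw [la5_1]; norm_num
  · rw [la5_1]; rw [abs_of_pos (by norm_num)]; norm_num

theorem tG2 (F : Facts) (hG : S_GTAB) (hMR : S_MROW) (hVR : S_VROW) :
    TOK C.D (10 ^ 40) C.n ⟨693147180559945309417232121458, 1000000000000000000000000000000, G2⟩
      ⟨2 * p5.la 2, GFr p5 C (ell5 2) (ell5 2 - 1) 1⟩ := by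
  have b0 := abs_le.mp ell5_0
  have b1 := abs_le.mp ell5_1
  have b2 := ell5_2
  refine tok_shift F hG hMR hVR p5 C (10 ^ 14) cC cZ (by norm_num [p5]) s2 (ell5 2) hs2
    (by norm_num at b0 b1 ⊢; linarith [b0.1, b0.2, b1.1, b1.2])
    (by norm_num at b0 b1 ⊢; linarith [b0.1, b0.2, b1.1, b1.2]) 341 85 (by decide +kernel)
    (by decide +kernel) (by decide +kernel) (by decide +kernel) (10 ^ 25) (10 ^ 40)
    (by norm_num [C]) (by rw [hDr]; norm_num) (by norm_num [C]) _ _ (by norm_num) ?_ ?_ cG2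
    (fun k hk => ln_of lG2 k hk) (mrow_length _ _ _ _ _ _ _) (vrow_length _ _ _)
  · rw [la5_2]; norm_num
  · rw [la5_2]; rw [abs_of_pos (by norm_num)]; norm_num

theorem tW0 (hW : S_WTAB) (hMR : S_MROW) :
    TOK C.D (10 ^ 40) C.n ⟨-60056626739775178083387815790927056995316742747653232566281, 125000000000000000000000000000000000000000000000000000000000, W0⟩
      ⟨-(2 * (p5.la 0 * p5.la 0)), fun k l => Jf 0 (-1) (1 - ell5 0) (1 + 2 * k) (1 + 2 * l)⟩ := by
  have b0 := abs_le.mp ell5_0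
  have b1 := abs_le.mp ell5_1
  have b2 := ell5_2
  refine tok_job hW hMR D w0 h0 0 (1 - ell5 0) 1 21 (by decide +kernel) (by norm_num)
    hw0 hh0 (by rw [abs_le]; norm_num at b0 b1 ⊢; try (constructor <;> linarith [b0.1, b0.2, b1.1, b1.2]))
    (by norm_num at b0 b1 ⊢; try linarith [b0.1, b0.2, b1.1, b1.2])
    (by norm_num at b0 b1 ⊢; try linarith [b0.1, b0.2, b1.1, b1.2])
    (by norm_num at b0 b1 ⊢; try linarith [b0.1, b0.2, b1.1, b1.2])
    (by norm_num at b0 b1 ⊢; try linarith [b0.1, b0.2, b1.1, b1.2]) 85 (by decide +kernel)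
    (by norm_num) (10 ^ 25) (10 ^ 40)
    (by norm_num) (by rw [show ((D : ℤ) : ℝ) = 10 ^ 80 from hDr]; norm_num) (by norm_num) _ _
    (by norm_num) ?_ ?_ cW0 (fun k hk => ln_of lW0 k hk)
  · rw [la5_0]; norm_num
  · rw [la5_0]; rw [abs_neg, abs_of_pos (by norm_num)]; norm_num

theorem tW1 (hW : S_WTAB) (hMR : S_MROW) :
    TOK C.D (10 ^ 40) C.n ⟨-16092652810834426371250388318009353411482544987371466231081, 20000000000000000000000000000000000000000000000000000000000, W1⟩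
      ⟨-(2 * (p5.la 1 * p5.la 1)), fun k l => Jf 0 (-1) (1 - ell5 1) (1 + 2 * k) (1 + 2 * l)⟩ := by
  have b0 := abs_le.mp ell5_0
  have b1 := abs_le.mp ell5_1
  have b2 := ell5_2
  refine tok_job hW hMR D w1 h1 0 (1 - ell5 1) 1 21 (by decide +kernel) (by norm_num)
    hw1 hh1 (by rw [abs_le]; norm_num at b0 b1 ⊢; try (constructor <;> linarith [b0.1, b0.2, b1.1, b1.2]))
    (by norm_num at b0 b1 ⊢; try linarith [b0.1, b0.2, b1.1, b1.2])
    (by norm_num at b0 b1 ⊢; try linarith [b0.1, b0.2, b1.1, b1.2])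
    (by norm_num at b0 b1 ⊢; try linarith [b0.1, b0.2, b1.1, b1.2])
    (by norm_num at b0 b1 ⊢; try linarith [b0.1, b0.2, b1.1, b1.2]) 85 (by decide +kernel)
    (by norm_num) (10 ^ 25) (10 ^ 40)
    (by norm_num) (by rw [show ((D : ℤ) : ℝ) = 10 ^ 80 from hDr]; norm_num) (by norm_num) _ _
    (by norm_num) ?_ ?_ cW1 (fun k hk => ln_of lW1 k hk)
  · rw [la5_1]; norm_num
  · rw [la5_1]; rw [abs_neg, abs_of_pos (by norm_num)]; norm_num

theorem tW2 (hW : S_WTAB) (hMR : S_MROW) :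
    TOK C.D (10 ^ 40) C.n ⟨-120113253479550356166775631581605049100783331055085816011441, 500000000000000000000000000000000000000000000000000000000000, W2⟩
      ⟨-(2 * (p5.la 2 * p5.la 2)), fun k l => Jf 0 (-1) (1 - ell5 2) (1 + 2 * k) (1 + 2 * l)⟩ := by
  have b0 := abs_le.mp ell5_0
  have b1 := abs_le.mp ell5_1
  have b2 := ell5_2
  refine tok_job hW hMR D w2 h2 0 (1 - ell5 2) 1 21 (by decide +kernel) (by norm_num)
    hw2 hh2 (by rw [abs_le]; norm_num at b0 b1 ⊢; try (constructor <;> linarith [b0.1, b0.2, b1.1, b1.2]))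
    (by norm_num at b0 b1 ⊢; try linarith [b0.1, b0.2, b1.1, b1.2])
    (by norm_num at b0 b1 ⊢; try linarith [b0.1, b0.2, b1.1, b1.2])
    (by norm_num at b0 b1 ⊢; try linarith [b0.1, b0.2, b1.1, b1.2])
    (by norm_num at b0 b1 ⊢; try linarith [b0.1, b0.2, b1.1, b1.2]) 85 (by decide +kernel)
    (by norm_num) (10 ^ 25) (10 ^ 40)
    (by norm_num) (by rw [show ((D : ℤ) : ℝ) = 10 ^ 80 from hDr]; norm_num) (by norm_num) _ _
    (by norm_num) ?_ ?_ cW2 (fun k hk => ln_of lW2 k hk)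
  · rw [la5_2]; norm_num
  · rw [la5_2]; rw [abs_neg, abs_of_pos (by norm_num)]; norm_num

theorem tW3 (hW : S_WTAB) (hMR : S_MROW) :
    TOK C.D (10 ^ 40) C.n ⟨-31088107744169264434209468921892454954692614177577510918681, 25000000000000000000000000000000000000000000000000000000000, W3⟩
      ⟨-(4 * (p5.la 0 * p5.la 1)), fun k l => Jf (ell5 0 - ell5 1) (-1) (1 - ell5 1) (1 + 2 * k) (1 + 2 * l)⟩ := by
  have b0 := abs_le.mp ell5_0
  have b1 := abs_le.mp ell5_1
  have b2 := ell5_2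
  refine tok_job hW hMR D w3 h3 (ell5 0 - ell5 1) (1 - ell5 1) 1 21 (by decide +kernel) (by norm_num)
    hw3 hh3 (by rw [abs_le]; norm_num at b0 b1 ⊢; try (constructor <;> linarith [b0.1, b0.2, b1.1, b1.2]))
    (by norm_num at b0 b1 ⊢; try linarith [b0.1, b0.2, b1.1, b1.2])
    (by norm_num at b0 b1 ⊢; try linarith [b0.1, b0.2, b1.1, b1.2])
    (by norm_num at b0 b1 ⊢; try linarith [b0.1, b0.2, b1.1, b1.2])
    (by norm_num at b0 b1 ⊢; try linarith [b0.1, b0.2, b1.1, b1.2]) 85 (by decide +kernel)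
    (by norm_num) (10 ^ 25) (10 ^ 40)
    (by norm_num) (by rw [show ((D : ℤ) : ℝ) = 10 ^ 80 from hDr]; norm_num) (by norm_num) _ _
    (by norm_num) ?_ ?_ cW3 (fun k hk => ln_of lW3 k hk)
  · rw [la5_0, la5_1]; norm_num
  · rw [la5_0, la5_1]; rw [abs_neg, abs_of_pos (by norm_num)]; norm_num

theorem tW4 (hW : S_WTAB) (hMR : S_MROW) :
    TOK C.D (10 ^ 40) C.n ⟨-84932896045768731760833440044577269751621509833396387672661, 125000000000000000000000000000000000000000000000000000000000, W4⟩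
      ⟨-(4 * (p5.la 0 * p5.la 2)), fun k l => Jf (ell5 0 - ell5 2) (-1) (1 - ell5 2) (1 + 2 * k) (1 + 2 * l)⟩ := by
  have b0 := abs_le.mp ell5_0
  have b1 := abs_le.mp ell5_1
  have b2 := ell5_2
  refine tok_job hW hMR D w4 h4 (ell5 0 - ell5 2) (1 - ell5 2) 1 21 (by decide +kernel) (by norm_num)
    hw4 hh4 (by rw [abs_le]; norm_num at b0 b1 ⊢; try (constructor <;> linarith [b0.1, b0.2, b1.1, b1.2]))
    (by norm_num at b0 b1 ⊢; try linarith [b0.1, b0.2, b1.1, b1.2])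
    (by norm_num at b0 b1 ⊢; try linarith [b0.1, b0.2, b1.1, b1.2])
    (by norm_num at b0 b1 ⊢; try linarith [b0.1, b0.2, b1.1, b1.2])
    (by norm_num at b0 b1 ⊢; try linarith [b0.1, b0.2, b1.1, b1.2]) 85 (by decide +kernel)
    (by norm_num) (10 ^ 25) (10 ^ 40)
    (by norm_num) (by rw [show ((D : ℤ) : ℝ) = 10 ^ 80 from hDr]; norm_num) (by norm_num) _ _
    (by norm_num) ?_ ?_ cW4 (fun k hk => ln_of lW4 k hk)
  · rw [la5_0, la5_2]; norm_num
  · rw [la5_0, la5_2]; rw [abs_neg, abs_of_pos (by norm_num)]; norm_num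

theorem tW5 (hW : S_WTAB) (hMR : S_MROW) :
    TOK C.D (10 ^ 40) C.n ⟨-43965223600320219262386276567835012869988822562378151777061, 50000000000000000000000000000000000000000000000000000000000, W5⟩
      ⟨-(4 * (p5.la 1 * p5.la 2)), fun k l => Jf (ell5 1 - ell5 2) (-1) (1 - ell5 2) (1 + 2 * k) (1 + 2 * l)⟩ := by
  have b0 := abs_le.mp ell5_0
  have b1 := abs_le.mp ell5_1
  have b2 := ell5_2
  refine tok_job hW hMR D w5 h5 (ell5 1 - ell5 2) (1 - ell5 2) 1 21 (by decide +kernel) (by norm_num)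
    hw5 hh5 (by rw [abs_le]; norm_num at b0 b1 ⊢; try (constructor <;> linarith [b0.1, b0.2, b1.1, b1.2]))
    (by norm_num at b0 b1 ⊢; try linarith [b0.1, b0.2, b1.1, b1.2])
    (by norm_num at b0 b1 ⊢; try linarith [b0.1, b0.2, b1.1, b1.2])
    (by norm_num at b0 b1 ⊢; try linarith [b0.1, b0.2, b1.1, b1.2])
    (by norm_num at b0 b1 ⊢; try linarith [b0.1, b0.2, b1.1, b1.2]) 85 (by decide +kernel)
    (by norm_num) (10 ^ 25) (10 ^ 40)
    (by norm_num) (by rw [show ((D : ℤ) : ℝ) = 10 ^ 80 from hDr]; norm_num) (by norm_num) _ _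
    (by norm_num) ?_ ?_ cW5 (fun k hk => ln_of lW5 k hk)
  · rw [la5_1, la5_2]; norm_num
  · rw [la5_1, la5_2]; rw [abs_neg, abs_of_pos (by norm_num)]; norm_num

theorem tW6 (hW : S_WTAB) (hMR : S_MROW) :
    TOK C.D (10 ^ 40) C.n ⟨-60056626739775178083387815790927056995316742747653232566281, 125000000000000000000000000000000000000000000000000000000000, W6⟩
      ⟨-(2 * (p5.la 0 * p5.la 0)), fun k l => Jf (-(2 * ell5 0)) (-1) (1 - 2 * ell5 0) (1 + 2 * k) (1 + 2 * l)⟩ := by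
  have b0 := abs_le.mp ell5_0
  have b1 := abs_le.mp ell5_1
  have b2 := ell5_2
  refine tok_job hW hMR D w6 h6 (-(2 * ell5 0)) (1 - 2 * ell5 0) 1 21 (by decide +kernel) (by norm_num)
    hw6 hh6 (by rw [abs_le]; norm_num at b0 b1 ⊢; try (constructor <;> linarith [b0.1, b0.2, b1.1, b1.2]))
    (by norm_num at b0 b1 ⊢; try linarith [b0.1, b0.2, b1.1, b1.2])
    (by norm_num at b0 b1 ⊢; try linarith [b0.1, b0.2, b1.1, b1.2])
    (by norm_num at b0 b1 ⊢; try linarith [b0.1, b0.2, b1.1, b1.2])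
    (by norm_num at b0 b1 ⊢; try linarith [b0.1, b0.2, b1.1, b1.2]) 85 (by decide +kernel)
    (by norm_num) (10 ^ 25) (10 ^ 40)
    (by norm_num) (by rw [show ((D : ℤ) : ℝ) = 10 ^ 80 from hDr]; norm_num) (by norm_num) _ _
    (by norm_num) ?_ ?_ cW6 (fun k hk => ln_of lW6 k hk)
  · rw [la5_0]; norm_num
  · rw [la5_0]; rw [abs_neg, abs_of_pos (by norm_num)]; norm_num

theorem core (F : Facts) (hG : S_GTAB) (hW : S_WTAB) (hMR : S_MROW) (hVR : S_VROW)
    (hJ : S_JOBS5) (hR : S_R3_5) (h : ℝ → ℝ) (hh : ContDiff ℝ 1 h) (hp : Par ((-1) ^ 1) h) :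
    31 / 10 ^ 19 * (∫ x in (-1 : ℝ)..1, h x ^ 2) ≤ Qg p5 ell5 h := by
  have b0 := abs_le.mp ell5_0
  have b1 := abs_le.mp ell5_1
  have b2 := ell5_2
  have key := certg F p5 ell5 ?_ C 42 (by decide +kernel) (by decide +kernel) (by decide +kernel)
    (by decide +kernel) (1001 / 1000) (10 ^ 14) 31 (10 ^ 19) (10 ^ 42) (10 ^ 40) 299 170
    (10 ^ 40) ts tr (by norm_num) hR cC cZ cP cM (by norm_num [p5]) (by norm_num [p5])
    (by norm_num) (by norm_num) (by norm_num) (by norm_num) ?_ ?_ ?_ ?_ ?_ (by decide +kernel)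
    (by norm_num) cL h hh hp
  · norm_num at key ⊢
    exact key
  · intro r hr
    have hr' : r < 3 := hr
    norm_num at b0 b1
    interval_cases r
    · constructor <;> linarith [b0.1, b0.2, b1.1, b1.2]
    · constructor <;> linarith [b0.1, b0.2, b1.1, b1.2]
    · constructor <;> linarith [b0.1, b0.2, b1.1, b1.2]
  · unfold ts tr
    refine List.Forall₂.cons (tG0 F hG hMR hVR) (List.Forall₂.cons (tG1 F hG hMR hVR)
      (List.Forall₂.cons (tG2 F hG hMR hVR) (List.Forall₂.cons (tW0 hW hMR)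
      (List.Forall₂.cons (tW1 hW hMR) (List.Forall₂.cons (tW2 hW hMR)
      (List.Forall₂.cons (tW3 hW hMR) (List.Forall₂.cons (tW4 hW hMR)
      (List.Forall₂.cons (tW5 hW hMR) (List.Forall₂.cons (tW6 hW hMR) List.Forall₂.nil)))))))))
  · intro k hk l hl
    have hj := hJ (1 + 2 * k) (1 + 2 * l) ⟨1 + k + l, by ring⟩
    show _ = (∑ r ∈ Finset.range 3, _) - (∑ r ∈ Finset.range 3, ∑ r' ∈ Finset.range 3,
      2 * (p5.la r * p5.la r') * (SS (ell5 r) (ell5 r') (1 + 2 * k) (1 + 2 * l) +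
        SS (ell5 r) (ell5 r') (1 + 2 * l) (1 + 2 * k)))
    rw [hj]
    simp only [tr, jr5, List.map_cons, List.map_nil, List.sum_cons, List.sum_nil,
      Finset.sum_range_succ, Finset.sum_range_zero]
    ring
  · have := cR
    rw [List.all_eq_true] at this
    intro k hk
    exact of_decide_eq_true (this k (List.mem_range.mpr hk))
  · have := cN
    rw [List.all_eq_true] at this
    intro k hk
    exact of_decide_eq_true (this k (List.mem_range.mpr hk))
  · show eb p5.m C.Lr ((10 ^ 14 : ℤ) : ℝ) + ts.length * (4 * 10 ^ 40 + 1) ≤ ((10 ^ 42 : ℤ) : ℝ)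
    norm_num [eb, ts, C, p5]

end Pool.Agent.W187.WQ.A1
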