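import Mathlib
import Pool.Agent.W187.WQ.FinalG
import Pool.Agent.W187.WQ.A0c
import Pool.Agent.W187.WQ.A1c
import Pool.Agent.W12.WQ.UI
import Pool.Agent.W148.WQ.N15
import Pool.Agent.W22.WQ.Dot
import Pool.Agent.W22.WQ.Muus
import Pool.Agent.W227.WQ.Near
import Pool.Agent.W272.WQ.N2
import Pool.Agent.W305.WQ.JV
import Pool.Agent.W305.WQ.MRow
import Pool.Agent.W305.WQ.VRow
import Pool.Agent.W315.WQ.QQg
import Pool.Agent.W327.WQ.Shift
import Pool.Agent.W366.WQ.Linkg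
import Pool.Agent.W376.WQ.GTab
import Pool.Agent.W376.WQ.Jobs5
import Pool.Agent.W376.WQ.PSDi
import Pool.Agent.W398.WQ.N3
import Pool.Agent.W440.WQ.R1g
import Pool.Agent.W45.WQ.ENg
import Pool.Agent.W462.WQ.EXP
import Pool.Agent.W578.WQ.R35
import Pool.Agent.W583.WQ.Row
import Pool.Agent.W333.WQ.YF
import Pool.Agent.W578.WQ.Sym
import Pool.Agent.W613.WQ.Apr

/-!
# Weil positivity for functions supported in an interval of length `log 5`
-/

open Complex MeasureTheory Set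
open scoped ComplexConjugate
open Pool.Agent.W187.WP

namespace Pool.Agent.W187.WQ

theorem facts : Facts where
  r1 := Pool.Agent.W440.WQ.r1g
  tx := Pool.Agent.W120.WP.tx
  r2c := Pool.Agent.W439.WP.r2c
  sh := Pool.Agent.W327.WQ.shg
  shsh := Pool.Agent.W327.WQ.shsh
  proj := Pool.Agent.W439.WP.proj
  dot := Pool.Agent.W22.WQ.dot
  mu := Pool.Agent.W22.WQ.mu_ok
  us := Pool.Agent.W22.WQ.us_ok
  ui := Pool.Agent.W12.WQ.ui
  psd := Pool.Agent.W376.WQ.psdi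
  near := Pool.Agent.W227.WQ.near
  exp := Pool.Agent.W462.WQ.exp_ok Pool.Agent.W12.WQ.ui
  yf := Pool.Agent.W333.WQ.yf_ok
  sym := Pool.Agent.W578.WQ.sym_ok
  apr := Pool.Agent.W613.WQ.apr_ok

theorem hgtab : S_GTAB := Pool.Agent.W376.WQ.gtab_ok Pool.Agent.W22.WQ.dot Pool.Agent.W583.WQ.row
  Pool.Agent.W305.WQ.jv

theorem hwtab : S_WTAB := Pool.Agent.W376.WQ.wtab_ok Pool.Agent.W583.WQ.row Pool.Agent.W305.WQ.jv

theorem hR35 : S_R3_5 := Pool.Agent.W578.WQ.r3_5 (Pool.Agent.W449.WP.tk Pool.Agent.W120.WP.tx)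

theorem core5 (h : ℝ → ℝ) (hh : ContDiff ℝ 1 h)
    (hp : (∀ x, h (-x) = h x) ∨ (∀ x, h (-x) = -h x)) :
    31 / 10 ^ 19 * (∫ x in (-1 : ℝ)..1, h x ^ 2) ≤ Qg p5 ell5 h := by
  rcases hp with hp | hp
  · exact A0.core facts hgtab hwtab Pool.Agent.W305.WQ.mrow_ok Pool.Agent.W305.WQ.vrow_ok
      Pool.Agent.W376.WQ.jobs5 hR35 h hh (by intro x; rw [hp x]; ring)
  · exact A1.core facts hgtab hwtab Pool.Agent.W305.WQ.mrow_ok Pool.Agent.W305.WQ.vrow_ok
      Pool.Agent.W376.WQ.jobs5 hR35 h hh (by intro x; rw [hp x]; ring)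

theorem log5_lt : Real.log 5 / 2 < 10059 / 12500 := by
  have h := Pool.Agent.W90.WQ.logs.2.2
  have b := abs_le.mp h
  norm_num at b ⊢
  linarith [b.2]

theorem qq5 (h : ℝ → ℝ) (hh : ContDiff ℝ 2 h) (h0 : ∀ x, 1 ≤ |x| → h x = 0) :
    Qg p5 ell5 h - (2 * (1 / 10 ^ 20) + 2 * (3 : ℝ) * (1 / 10 ^ 22) + 100 * (1 / 10 ^ 22)) *
      (∫ x in (-1 : ℝ)..1, h x ^ 2) ≤ QN 4 (10059 / 12500) h := by
  have b0 := abs_le.mp ell5_0
  have b1 := abs_le.mp ell5_1
  have b2 := ell5_2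
  have n3 := Pool.Agent.W398.WQ.n3_5
  have := Pool.Agent.W315.WQ.qqg (Pool.Agent.W45.WQ.eng Pool.Agent.W120.WP.tri)
    (Pool.Agent.W120.WP.db Pool.Agent.W120.WP.tri) p5 4 (10059 / 12500) ns5 (1 / 10 ^ 20)
    (1 / 10 ^ 22) (1 / 10 ^ 22) (by norm_num) (by norm_num) (by norm_num) (by norm_num)
    (by norm_num) (by norm_num) (by norm_num [p5]) ?_ ?_ ?_ ?_ ?_ Pool.Agent.W148.WQ.n1_5
    Pool.Agent.W272.WQ.n2_5 n3.1 n3.2.1 n3.2.2 h hh h0
  · exact this
  · intro r hr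
    have hr' : r < 3 := hr
    interval_cases r <;> decide
  · intro r hr r' hr' he
    have h1 : r < 3 := hr
    have h2 : r' < 3 := hr'
    interval_cases r <;> interval_cases r' <;> first | rfl | (exfalso; revert he; decide)
  · intro n hn hv
    interval_cases n
    · simp at hv
    · simp at hv
    · exact ⟨0, by decide, rfl⟩
    · exact ⟨1, by decide, rfl⟩
    · exact ⟨2, by decide, rfl⟩
  · intro r hr
    have hr' : r < 3 := hr
    interval_cases r <;> decide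
  · intro r hr
    have hr' : r < 3 := hr
    have e : Real.log (ns5 r) / (10059 / 12500) = ell5 r := rfl
    rw [e]
    norm_num at b0 b1
    interval_cases r <;> linarith [b0.1, b0.2, b1.1, b1.2]

theorem rp5 : RP (Real.log 5) (3 / 10 ^ 18) := by
  intro f hf hs hp
  have hl : 0 < Real.log 5 := Real.log_pos (by norm_num)
  set a : ℝ := 10059 / 12500 with ha
  have ha0 : 0 < a := by rw [ha]; norm_num
  have hs' := support_ext hf.continuous (by positivity) hs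
  have hsa : ∀ x, a ≤ |x| → f x = 0 := fun x hx => hs x (lt_of_lt_of_le log5_lt hx)
  have hG : ∀ y, Real.log (((4 : ℕ) : ℝ) + 1) ≤ y → GG f y = 0 := fun y hy => by
    have e5 : (((4 : ℕ) : ℝ) + 1) = 5 := by norm_num
    rw [e5] at hy
    exact Pool.Agent.W586.WP.GG_zero hs' y (by linarith)
  have hL := Pool.Agent.W366.WQ.linkg Pool.Agent.W100.WP.ar 4 f a ha0 hf hsa hG
  refine ⟨_, hL, ?_⟩
  set h : ℝ → ℝ := fun x => f (a * x) with hh
  have hC : ContDiff ℝ 2 h := hf.comp (contDiff_const.mul contDiff_id)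
  have h0 : ∀ x, 1 ≤ |x| → h x = 0 := by
    intro x hx
    apply hsa
    rw [abs_mul, abs_of_pos ha0]
    nlinarith
  have hq := qq5 h hC h0
  have hc := core5 h (hC.of_le (by norm_num)) (by
    rcases hp with hp | hp
    · left; intro x; simp only [hh]; rw [mul_neg, hp]
    · right; intro x; simp only [hh]; rw [mul_neg, hp])
  have hI : a * (∫ x in (-1 : ℝ)..1, h x ^ 2) = ∫ x, f x ^ 2 := by
    have h1 := intervalIntegral.mul_integral_comp_mul_left (a := -1) (b := 1)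
      (f := fun x => f x ^ 2) a
    have e1 : (∫ x in (-1 : ℝ)..1, h x ^ 2) = ∫ x in (-1 : ℝ)..1, f (a * x) ^ 2 := rfl
    rw [e1, h1, mul_neg, mul_one, intervalIntegral.integral_of_le (by linarith),
      setIntegral_eq_integral_of_forall_compl_eq_zero]
    intro x hx
    rw [hsa x, zero_pow (by norm_num)]
    by_contra hlt
    push Not at hlt
    rw [abs_lt] at hlt
    exact hx ⟨hlt.1, hlt.2.le⟩
  rw [← hI]
  have p0 : 0 ≤ ∫ x in (-1 : ℝ)..1, h x ^ 2 :=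
    intervalIntegral.integral_nonneg (by norm_num) (fun x _ => sq_nonneg _)
  have : 3 / 10 ^ 18 * (∫ x in (-1 : ℝ)..1, h x ^ 2) ≤ QN 4 a h := by
    refine le_trans ?_ hq
    have : (3 / 10 ^ 18 : ℝ) + (2 * (1 / 10 ^ 20) + 2 * (3 : ℝ) * (1 / 10 ^ 22) +
      100 * (1 / 10 ^ 22)) ≤ 31 / 10 ^ 19 := by norm_num
    nlinarith [mul_le_mul_of_nonneg_right this p0]
  calc _ = a * (3 / 10 ^ 18 * (∫ x in (-1 : ℝ)..1, h x ^ 2)) := by ring
    _ ≤ a * QN 4 a h := mul_le_mul_of_nonneg_left this ha0.le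

theorem final5 (f : ℝ → ℂ) (hf : ContDiff ℝ 2 f) (c : ℝ)
    (hs : ∀ x, Real.log 5 / 2 < |x - c| → f x = 0) :
    ∃ W : ℝ, HasSum (fun ρ : Zr => (mult ρ : ℂ) *
      (lap f ((ρ : ℂ) - 1 / 2) * conj (lap f (1 / 2 - conj (ρ : ℂ))))) (W : ℂ) ∧
      3 / 10 ^ 18 * (∫ x, ‖f x‖ ^ 2) ≤ W :=
  final_g (Real.log_pos (by norm_num)) rp5 f hf c hs

end Pool.Agent.W187.WQ
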