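import Mathlib
import Pool.Agent.W187.WQ.Final5
import Pool.Agent.W187.WQ.AllS

/-!
# All lengths
-/

open Complex MeasureTheory Set
open scoped Convolution ComplexConjugate
open Pool.Agent.W187.WP

namespace Pool.Agent.W187.WQ

theorem final_p {Λ κ : ℝ} (P : (ℝ → ℝ) → Prop) (hl3 : 0 < Λ)
    (rc : ∀ g : ℝ → ℝ, ContDiff ℝ 2 g → (∀ x, Λ / 2 < |x| → g x = 0) → P g →
      ∃ W : ℝ, WW (fun y => ((GG g y : ℝ) : ℂ)) = (W : ℂ) ∧ κ * (∫ x, g x ^ 2) ≤ W) (f : ℝ → ℂ) (hf : ContDiff ℝ 2 f) (c : ℝ)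
    (hs : ∀ x, Λ / 2 < |x - c| → f x = 0)
    (hre : P (fun x => (f (x + c)).re)) (him : P (fun x => (f (x + c)).im)) :
    ∃ W : ℝ, HasSum (fun ρ : Zr => (mult ρ : ℂ) *
      (lap f ((ρ : ℂ) - 1 / 2) * conj (lap f (1 / 2 - conj (ρ : ℂ))))) (W : ℂ) ∧
      κ * (∫ x, ‖f x‖ ^ 2) ≤ W := by
  -- translate to the origin
  set g : ℝ → ℂ := fun x => f (x + c) with hg
  have hgC : ContDiff ℝ 2 g := hf.comp (contDiff_id.add contDiff_const)
  have hgs : ∀ x, Λ / 2 < |x| → g x = 0 := by
    intro x hx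
    apply hs
    rwa [add_sub_cancel_right]
  have hlap : ∀ z, lap f z = cexp (z * c) * lap g z := by
    intro z
    unfold lap
    rw [← integral_add_right_eq_self (μ := volume) (fun u : ℝ => f u * cexp (z * u)) c,
      ← integral_const_mul]
    congr 1; funext u
    simp only [hg]
    push_cast
    rw [mul_add, Complex.exp_add]; ring
  have hprod : ∀ z, lap f z * conj (lap f (-conj z)) = lap g z * conj (lap g (-conj z)) := by
    intro z
    rw [hlap z, hlap (-conj z), map_mul, ← Complex.exp_conj]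
    rw [show conj (-conj z * (c : ℂ)) = -(z * (c : ℂ)) by simp]
    rw [show cexp (z * ↑c) * lap g z * (cexp (-(z * ↑c)) * conj (lap g (-conj z))) =
      (cexp (z * ↑c) * cexp (-(z * ↑c))) * (lap g z * conj (lap g (-conj z))) by ring,
      ← Complex.exp_add, add_neg_cancel, Complex.exp_zero, one_mul]
  have hnorm : ∫ x, ‖f x‖ ^ 2 = ∫ x, ‖g x‖ ^ 2 :=
    (integral_add_right_eq_self (μ := volume) (fun u : ℝ => ‖f u‖ ^ 2) c).symm
  -- real and imaginary parts
  set g1 : ℝ → ℝ := fun x => (g x).re with hg1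
  set g2 : ℝ → ℝ := fun x => (g x).im with hg2
  have hg1C : ContDiff ℝ 2 g1 := Complex.reCLM.contDiff.comp hgC
  have hg2C : ContDiff ℝ 2 g2 := Complex.imCLM.contDiff.comp hgC
  have hg1s : ∀ x, Λ / 2 < |x| → g1 x = 0 := by
    intro x hx; simp only [hg1]; rw [hgs x hx]; rfl
  have hg2s : ∀ x, Λ / 2 < |x| → g2 x = 0 := by
    intro x hx; simp only [hg2]; rw [hgs x hx]; rfl
  obtain ⟨W1, hW1, hI1⟩ := rc g1 hg1C hg1s hre
  obtain ⟨W2, hW2, hI2⟩ := rc g2 hg2C hg2s him
  have hcg : HasCompactSupport g := by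
    refine HasCompactSupport.intro (isCompact_Icc (a := -(Λ / 2)) (b := Λ / 2))
      fun x hx => hgs x ?_
    by_contra h
    push Not at h
    exact hx (abs_le.1 h)
  have gc := hgC.continuous
  have gcc : Continuous (fun x => conj (g x)) := Complex.continuous_conj.comp gc
  have hcgc : HasCompactSupport (fun x => conj (g x)) := by
    refine HasCompactSupport.intro (isCompact_Icc (a := -(Λ / 2)) (b := Λ / 2))
      fun x hx => ?_
    rw [hgs x ?_, map_zero]
    by_contra h
    push Not at h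
    exact hx (abs_le.1 h)
  set G : ℝ → ℂ := Co g (fun x => conj (g x)) with hG
  have hGC : ContDiff ℝ 2 G := Co_contDiff hgC hcg gcc
  have hGc : HasCompactSupport G := Co_compact hgs (fun x hx => by rw [hgs x hx, map_zero])
  have hEF := ef G hGC hGc
  have hs1 := support_ext hg1C.continuous (by positivity) hg1s
  have hs2 := support_ext hg2C.continuous (by positivity) hg2s
  have g1c := hg1C.continuous
  have g2c := hg2C.continuous
  have k1 := Pool.Agent.W586.WP.hcs hs1
  have k2 := Pool.Agent.W586.WP.hcs hs2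
  have intp : ∀ (u v : ℝ → ℝ), Continuous u → Continuous v → HasCompactSupport v → ∀ y : ℝ,
      Integrable (fun x => u (x + y) * v x) := by
    intro u v hu hv hcv y
    exact ((hu.comp (by fun_prop)).mul hv).integrable_of_hasCompactSupport hcv.mul_left
  -- autocorrelation of g
  set O : ℝ → ℝ := fun y => (∫ x : ℝ, g2 (x + y) * g1 x) - ∫ x : ℝ, g1 (x + y) * g2 x with hO
  have hGval : ∀ y, G y = ((GG g1 y : ℝ) : ℂ) + ((GG g2 y : ℝ) : ℂ) + ((O y : ℝ) : ℂ) * I := by
    intro y
    have i1 := intp g1 g1 g1c g1c k1 y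
    have i2 := intp g2 g2 g2c g2c k2 y
    have i3 := intp g2 g1 g2c g1c k1 y
    have i4 := intp g1 g2 g1c g2c k2 y
    have e1 : (fun x : ℝ => g (x + y) * conj (g x)) = fun x : ℝ =>
        ((g1 (x + y) * g1 x + g2 (x + y) * g2 x : ℝ) : ℂ) +
        ((g2 (x + y) * g1 x - g1 (x + y) * g2 x : ℝ) : ℂ) * I := by
      funext x
      apply Complex.ext
      · simp [hg1, hg2]
      · simp [hg1, hg2]; ring
    simp only [hG, Co]
    rw [e1, integral_add, integral_mul_const, integral_complex_ofReal, integral_complex_ofReal,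
      integral_add i1 i2, integral_sub i3 i4]
    · simp only [hO, GG]; push_cast; ring
    · exact (i1.add i2).ofReal
    · exact ((i3.sub i4).ofReal).mul_const I
  have hOneg : ∀ y, O (-y) = -O y := by
    intro y
    have h1 : ∀ u v : ℝ → ℝ, ∫ x : ℝ, u (x + -y) * v x = ∫ x : ℝ, v (x + y) * u x := by
      intro u v
      rw [← integral_add_right_eq_self (μ := volume) (fun x => u (x + -y) * v x) y]
      congr 1; funext x
      simp only [add_neg_cancel_right]
      ring
    simp only [hO]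
    rw [h1 g2 g1, h1 g1 g2]
    ring
  have hO0 : O 0 = 0 := by
    have := hOneg 0
    rw [neg_zero] at this
    linarith
  have cGG : ∀ u : ℝ → ℝ, (∀ x, Λ / 2 ≤ |x| → u x = 0) →
      HasCompactSupport (fun y => ((GG u y : ℝ) : ℂ)) := by
    intro u hu
    refine HasCompactSupport.intro (isCompact_Icc (a := -Λ) (b := Λ))
      fun x hx => ?_
    have : Λ ≤ x ∨ Λ ≤ -x := by
      by_contra hlt
      push Not at hlt
      exact hx ⟨by linarith [hlt.2], hlt.1.le⟩
    rcases this with h | h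
    · rw [Pool.Agent.W586.WP.GG_zero hu x (by linarith)]; simp
    · rw [← Pool.Agent.W586.WP.GG_neg, Pool.Agent.W586.WP.GG_zero hu (-x) (by linarith)]; simp
  have hWG : WW G = ((W1 + W2 : ℝ) : ℂ) := by
    have h1 : WW G = WW (fun y => ((GG g1 y : ℝ) : ℂ) + ((GG g2 y : ℝ) : ℂ)) := by
      apply WW_congr
      · rw [hGval 0, hO0]; simp
      · intro v
        rw [hGval v, hGval (-v), hOneg v]
        push_cast
        ring
    rw [h1, WW_add _ (cGG g1 hs1) _ (cGG g2 hs2), hW1, hW2]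
    · push_cast; rfl
    · exact ofRealCLM.contDiff.comp (Pool.Agent.W586.WP.GG_contDiff hg1C hs1)
    · exact ofRealCLM.contDiff.comp (Pool.Agent.W586.WP.GG_contDiff hg2C hs2)
  refine ⟨W1 + W2, ?_, ?_⟩
  · rw [← hWG]
    convert hEF using 2 with ρ
    congr 1
    have h3 := hprod ((ρ : ℂ) - 1 / 2)
    have h4 : -conj ((ρ : ℂ) - 1 / 2) = 1 / 2 - conj (ρ : ℂ) := by
      rw [map_sub, map_div₀, map_one, map_ofNat]; ring
    rw [h4] at h3
    rw [h3, hG, lap_Co gc hcg gcc hcgc, lap_conj, h4]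
  · have h5 : ∫ x, ‖g x‖ ^ 2 = (∫ x, g1 x ^ 2) + ∫ x, g2 x ^ 2 := by
      rw [← integral_add]
      · congr 1; funext x
        rw [← Complex.normSq_eq_norm_sq, Complex.normSq_apply]
        simp only [hg1, hg2]; ring
      · have := intp g1 g1 g1c g1c k1 0
        simp only [add_zero] at this
        refine this.congr (Filter.Eventually.of_forall (fun x => ?_))
        simp only; ring
      · have := intp g2 g2 g2c g2c k2 0
        simp only [add_zero] at this
        refine this.congr (Filter.Eventually.of_forall (fun x => ?_))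
        simp only; ring
    have p1 : 0 ≤ ∫ x, g1 x ^ 2 := integral_nonneg (fun x => sq_nonneg _)
    have p2 : 0 ≤ ∫ x, g2 x ^ 2 := integral_nonneg (fun x => sq_nonneg _)
    rw [hnorm, h5]
    linarith


/-- the codimension -/
noncomputable def DL (L : ℝ) : ℕ := ⌈Real.exp (13 * Real.exp (L / 2))⌉₊

theorem real_all (hC : S_COER) (hCh : S_CHEBL) {L : ℝ} (hL : Real.log 5 ≤ L) (f : ℝ → ℝ)
    (hf : ContDiff ℝ 2 f) (hs : ∀ x, L / 2 < |x| → f x = 0)
    (ho : ∀ k < DL L, ∫ x : ℝ, f x * x ^ k = 0) :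
    ∃ W : ℝ, WW (fun y => ((GG f y : ℝ) : ℂ)) = (W : ℂ) ∧ 1 * (∫ x, f x ^ 2) ≤ W := by
  have hl5 : 0 < Real.log 5 := Real.log_pos (by norm_num)
  have hL0 : 0 < L := by linarith
  set a : ℝ := L / 2 with ha
  have ha0 : 0 < a := by positivity
  have hs' := support_ext hf.continuous ha0 hs
  set M : ℕ := ⌊Real.exp L⌋₊ with hM
  have hG : ∀ y, Real.log ((M : ℝ) + 1) ≤ y → GG f y = 0 := fun y hy => by
    have h1 : Real.exp L ≤ (M : ℝ) + 1 := (Nat.lt_floor_add_one _).le
    have h2 : L ≤ Real.log ((M : ℝ) + 1) := by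
      rw [← Real.log_exp L]; exact Real.log_le_log (Real.exp_pos _) h1
    exact Pool.Agent.W586.WP.GG_zero hs' y (by rw [ha]; linarith)
  have hLk := Pool.Agent.W366.WQ.linkg Pool.Agent.W100.WP.ar M f a ha0 hf hs' hG
  refine ⟨_, hLk, ?_⟩
  set h : ℝ → ℝ := fun x => f (a * x) with hh
  have hCd : ContDiff ℝ 2 h := hf.comp (contDiff_const.mul contDiff_id)
  have h0 : ∀ x, 1 ≤ |x| → h x = 0 := by
    intro x hx
    apply hs'
    rw [abs_mul, abs_of_pos ha0]
    nlinarith
  have hsub : ∀ F : ℝ → ℝ, (∀ x, a ≤ |x| → F x = 0) →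
      a * (∫ x in (-1 : ℝ)..1, F (a * x)) = ∫ x, F x := by
    intro F hF
    have h1 := intervalIntegral.mul_integral_comp_mul_left (a := -1) (b := 1) (f := F) a
    rw [h1, mul_neg, mul_one, intervalIntegral.integral_of_le (by linarith),
      setIntegral_eq_integral_of_forall_compl_eq_zero]
    intro x hx
    apply hF
    by_contra hlt
    push Not at hlt
    rw [abs_lt] at hlt
    exact hx ⟨hlt.1, hlt.2.le⟩
  have hI : a * (∫ x in (-1 : ℝ)..1, h x ^ 2) = ∫ x, f x ^ 2 :=
    hsub (fun x => f x ^ 2) (fun x hx => by rw [hs' x hx]; ring)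
  have horth : ∀ k < DL L, ∫ x in (-1 : ℝ)..1, h x * x ^ k = 0 := by
    intro k hk
    have h1 := hsub (fun x => f x * x ^ k) (fun x hx => by rw [hs' x hx]; ring)
    rw [ho k hk] at h1
    have h2 : (∫ x in (-1 : ℝ)..1, f (a * x) * (a * x) ^ k) =
        a ^ k * ∫ x in (-1 : ℝ)..1, h x * x ^ k := by
      rw [← intervalIntegral.integral_const_mul]
      congr 1; funext x; simp only [hh]; rw [mul_pow]; ring
    rw [h2] at h1
    have : a * a ^ k ≠ 0 := by positivity
    have h3 : a * a ^ k * ∫ x in (-1 : ℝ)..1, h x * x ^ k = 0 := by rw [mul_assoc]; exact h1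
    exact (mul_eq_zero.mp h3).resolve_left this
  have hD1 : 1 ≤ DL L := Nat.one_le_ceil_iff.mpr (Real.exp_pos _)
  have hc := hC M (DL L) a h ha0 hCd h0 hD1 horth
  have hch := hCh L hL
  have hlogD : 13 * Real.exp (L / 2) ≤ Real.log (DL L) := by
    rw [Real.le_log_iff_exp_le (by exact_mod_cast hD1)]
    exact Nat.le_ceil _
  have p0 : 0 ≤ ∫ x in (-1 : ℝ)..1, h x ^ 2 :=
    intervalIntegral.integral_nonneg (by norm_num) (fun x _ => sq_nonneg _)
  have e1 : Real.log (2 * Real.pi * a) = Real.log (Real.pi * L) := by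
    congr 1; rw [ha]; ring
  rw [e1] at hc
  have hge : (1 : ℝ) ≤ Real.log (DL L) - (Real.eulerMascheroniConstant + Real.log (Real.pi * L) +
      a + Real.exp a + ∑ n ∈ Finset.range (M + 1),
        2 * (ArithmeticFunction.vonMangoldt n / Real.sqrt n)) := by
    linarith
  have hq : (∫ x in (-1 : ℝ)..1, h x ^ 2) ≤ QN M a h := by
    refine le_trans ?_ hc
    nlinarith
  rw [one_mul, ← hI]
  exact mul_le_mul_of_nonneg_left hq ha0.le

theorem all_one (hC : S_COER) (hCh : S_CHEBL) (f : ℝ → ℂ) (hf : ContDiff ℝ 2 f) (L c : ℝ)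
    (hL : Real.log 5 ≤ L) (hs : ∀ x, L / 2 < |x - c| → f x = 0)
    (ho' : ∀ k < DL L, ∫ u : ℝ, f u * (u : ℂ) ^ k = 0) :
    ∃ W : ℝ, HasSum (fun ρ : Zr => (mult ρ : ℂ) *
      (lap f ((ρ : ℂ) - 1 / 2) * conj (lap f (1 / 2 - conj (ρ : ℂ))))) (W : ℂ) ∧
      1 * (∫ x, ‖f x‖ ^ 2) ≤ W := by
  have hl5 : 0 < Real.log 5 := Real.log_pos (by norm_num)
  have hL0 : 0 < L := by linarith
  have hfs : HasCompactSupport f := by
    refine HasCompactSupport.intro (isCompact_Icc (a := c - L / 2) (b := c + L / 2))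
      fun x hx => hs x ?_
    by_contra h
    push Not at h
    rw [abs_le] at h
    exact hx ⟨by linarith [h.1], by linarith [h.2]⟩
  have fc := hf.continuous
  -- moments of the translate
  have hint : ∀ k : ℕ, Integrable (fun u : ℝ => f u * (u : ℂ) ^ k) := fun k =>
    (fc.mul (by fun_prop)).integrable_of_hasCompactSupport hfs.mul_right
  have hm : ∀ k < DL L, ∫ u : ℝ, f u * ((u - c : ℝ) : ℂ) ^ k = 0 := by
    intro k hk
    have e1 : (fun u : ℝ => f u * ((u - c : ℝ) : ℂ) ^ k) = fun u : ℝ =>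
        ∑ j ∈ Finset.range (k + 1), ((-(c : ℂ)) ^ (k - j) * (k.choose j : ℂ)) *
          (f u * (u : ℂ) ^ j) := by
      funext u
      push_cast
      rw [sub_eq_add_neg, add_pow, Finset.mul_sum]
      refine Finset.sum_congr rfl (fun j _ => by ring)
    rw [e1, integral_finset_sum _ (fun j _ => (hint j).const_mul _)]
    refine Finset.sum_eq_zero (fun j hj => ?_)
    rw [integral_const_mul, ho' j (lt_of_le_of_lt (Nat.lt_succ_iff.mp (Finset.mem_range.mp hj)) hk),
      mul_zero]
  have hm2 : ∀ k < DL L, ∫ u : ℝ, f (u + c) * (u : ℂ) ^ k = 0 := by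
    intro k hk
    rw [← hm k hk, ← integral_add_right_eq_self (μ := volume)
      (fun u : ℝ => f u * ((u - c : ℝ) : ℂ) ^ k) c]
    congr 1; funext u
    rw [add_sub_cancel_right]
  have hint2 : ∀ k : ℕ, Integrable (fun u : ℝ => f (u + c) * (u : ℂ) ^ k) := by
    intro k
    have hcs : HasCompactSupport (fun u : ℝ => f (u + c)) :=
      hfs.comp_homeomorph (Homeomorph.addRight c)
    exact ((fc.comp (by fun_prop)).mul (by fun_prop)).integrable_of_hasCompactSupport hcs.mul_right
  have hre : ∀ k < DL L, ∫ x : ℝ, (f (x + c)).re * x ^ k = 0 := by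
    intro k hk
    have := congrArg Complex.re (hm2 k hk)
    rw [← Complex.reCLM_apply, ← ContinuousLinearMap.integral_comp_comm _ (hint2 k)] at this
    simp only [Complex.reCLM_apply, Complex.zero_re] at this
    rw [← this]
    congr 1; funext u
    rw [← Complex.ofReal_pow, Complex.re_mul_ofReal]
  have him : ∀ k < DL L, ∫ x : ℝ, (f (x + c)).im * x ^ k = 0 := by
    intro k hk
    have := congrArg Complex.im (hm2 k hk)
    rw [← Complex.imCLM_apply, ← ContinuousLinearMap.integral_comp_comm _ (hint2 k)] at this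
    simp only [Complex.imCLM_apply, Complex.zero_im] at this
    rw [← this]
    congr 1; funext u
    rw [← Complex.ofReal_pow, Complex.im_mul_ofReal]
  exact final_p (Λ := L) (κ := 1) (fun g => ∀ k < DL L, ∫ x : ℝ, g x * x ^ k = 0)
    hL0 (fun g hg hgs hgo => real_all hC hCh hL g hg hgs hgo) f hf c hs hre him

end Pool.Agent.W187.WQ
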