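import Mathlib
import Pool.Agent.W187.WQ.AllL
import Pool.Agent.W187.WQ.BotS
import Pool.Agent.W187.WQ.BotS0
import Pool.Agent.W190.A17

/-!
# The bottom of the Weil form
-/

open Complex MeasureTheory Set Filter
open scoped Convolution ComplexConjugate
open Pool.Agent.W187.WP

namespace Pool.Agent.W187.WQ

/-- test functions of length `L` -/
def Test (L : ℝ) (f : ℝ → ℂ) : Prop :=
  ContDiff ℝ 2 f ∧ ∃ c : ℝ, ∀ u : ℝ, L / 2 < |u - c| → f u = 0

/-- the bottom of the Weil form of length `L` -/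
noncomputable def bottom (L : ℝ) : ℝ :=
  sInf {W : ℝ | ∃ f : ℝ → ℂ, Test L f ∧ ∫ u, ‖f u‖ ^ 2 = 1 ∧ Weil f W}

theorem Weil.unique {f : ℝ → ℂ} {W W' : ℝ} (h : Weil f W) (h' : Weil f W') : W = W' := by
  have := HasSum.unique h h'
  exact_mod_cast this

theorem Test.mono {L L' : ℝ} {f : ℝ → ℂ} (h : Test L f) (hL : L ≤ L') : Test L' f :=
  ⟨h.1, h.2.choose, fun u hu => h.2.choose_spec u (by linarith)⟩

theorem Test.compact {L : ℝ} {f : ℝ → ℂ} (h : Test L f) : HasCompactSupport f := by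
  obtain ⟨c, hs⟩ := h.2
  refine HasCompactSupport.intro (isCompact_Icc (a := c - L / 2) (b := c + L / 2))
    fun x hx => hs x ?_
  by_contra h
  push Not at h
  rw [abs_le] at h
  exact hx ⟨by linarith [h.1], by linarith [h.2]⟩

theorem Test.int {L : ℝ} {f : ℝ → ℂ} (h : Test L f) : Integrable (fun u => ‖f u‖ ^ 2) := by
  have hc := h.compact
  have : HasCompactSupport (fun u => ‖f u‖ ^ 2) := by
    have := hc.norm
    exact this.comp_left (g := fun x : ℝ => x ^ 2) (by norm_num)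
  exact (h.1.continuous.norm.pow 2).integrable_of_hasCompactSupport this

theorem Test.smul {L : ℝ} {f : ℝ → ℂ} (h : Test L f) (a : ℝ) : Test L (fun u => (a : ℂ) * f u) :=
  ⟨contDiff_const.mul h.1, h.2.choose, fun u hu => by
    change (a : ℂ) * f u = 0
    rw [h.2.choose_spec u hu, mul_zero]⟩

theorem lap_smul (a : ℂ) (f : ℝ → ℂ) (z : ℂ) : lap (fun u => a * f u) z = a * lap f z := by
  unfold lap
  rw [← integral_const_mul]
  congr 1; funext u; ring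

theorem Weil.smul {f : ℝ → ℂ} {W : ℝ} (h : Weil f W) (a : ℝ) :
    Weil (fun u => (a : ℂ) * f u) (a ^ 2 * W) := by
  unfold Weil at *
  have h1 := h.mul_left ((a : ℂ) ^ 2)
  have e : (fun ρ : Zr => (mult ρ : ℂ) * (lap (fun u => (a : ℂ) * f u) ((ρ : ℂ) - 1 / 2) *
      conj (lap (fun u => (a : ℂ) * f u) (1 / 2 - conj (ρ : ℂ))))) = fun ρ : Zr =>
      (a : ℂ) ^ 2 * ((mult ρ : ℂ) * (lap f ((ρ : ℂ) - 1 / 2) *
        conj (lap f (1 / 2 - conj (ρ : ℂ))))) := by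
    funext ρ
    rw [lap_smul, lap_smul, map_mul, Complex.conj_ofReal]
    ring
  rw [e]
  push_cast
  exact h1

/-- existence of test functions of norm one -/
theorem exists_test {L : ℝ} (hL : 0 < L) : ∃ f : ℝ → ℂ, Test L f ∧ ∫ u, ‖f u‖ ^ 2 = 1 := by
  let φ : ContDiffBump (0 : ℝ) := ⟨L / 4, L / 2, by positivity, by linarith⟩
  have hφ : ContDiff ℝ 2 (fun u : ℝ => ((φ u : ℝ) : ℂ)) := ofRealCLM.contDiff.comp φ.contDiff
  have hT : Test L (fun u : ℝ => ((φ u : ℝ) : ℂ)) := by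
    refine ⟨hφ, 0, fun u hu => ?_⟩
    change ((φ u : ℝ) : ℂ) = 0
    rw [φ.zero_of_le_dist, Complex.ofReal_zero]
    rw [Real.dist_eq]
    exact hu.le
  have hi := hT.int
  have hpos : 0 < ∫ u, ‖((φ u : ℝ) : ℂ)‖ ^ 2 := by
    rw [integral_pos_iff_support_of_nonneg (fun u => by positivity) hi]
    refine (IsOpen.measure_pos volume ?_ ⟨0, ?_⟩)
    · exact (hT.1.continuous.norm.pow 2).isOpen_support
    · simp only [Function.mem_support]
      have : φ 0 = 1 := φ.one_of_mem_closedBall (Metric.mem_closedBall_self (by positivity))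
      rw [this]; norm_num
  set I := ∫ u, ‖((φ u : ℝ) : ℂ)‖ ^ 2 with hI
  refine ⟨fun u => (((Real.sqrt I)⁻¹ : ℝ) : ℂ) * ((φ u : ℝ) : ℂ), hT.smul _, ?_⟩
  have e1 : (fun u => ‖(((Real.sqrt I)⁻¹ : ℝ) : ℂ) * ((φ u : ℝ) : ℂ)‖ ^ 2) =
      fun u => I⁻¹ * ‖((φ u : ℝ) : ℂ)‖ ^ 2 := by
    funext u
    rw [norm_mul, mul_pow, Complex.norm_real, Real.norm_eq_abs, sq_abs, inv_pow,
      Real.sq_sqrt hpos.le]
  rw [e1, integral_const_mul, ← hI, inv_mul_cancel₀ hpos.ne']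

/-- real case, general lower bound -/
theorem real_low (hC0 : S_COER0) (hCh : S_CHEBL) {L : ℝ} (hL : Real.log 5 ≤ L) (f : ℝ → ℝ)
    (hf : ContDiff ℝ 2 f) (hs : ∀ x, L / 2 < |x| → f x = 0) :
    ∃ W : ℝ, WW (fun y => ((GG f y : ℝ) : ℂ)) = (W : ℂ) ∧
      -(13 * Real.exp (L / 2)) * (∫ x, f x ^ 2) ≤ W := by
  have hl5 : 0 < Real.log 5 := Real.log_pos (by norm_num)
  have hL0 : 0 < L := by linarith
  set a : ℝ := L / 2 with ha
  have ha0 : 0 < a := by positivity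
  have hs' := support_ext hf.continuous ha0 hs
  set M : ℕ := ⌊Real.exp L⌋₊ with hM
  have hG : ∀ y, Real.log ((M : ℝ) + 1) ≤ y → GG f y = 0 := fun y hy => by
    have h1 : Real.exp L ≤ (M : ℝ) + 1 := (Nat.lt_floor_add_one _).le
    have h2 : L ≤ Real.log ((M : ℝ) + 1) := by
      rw [← Real.log_exp L]; exact Real.log_le_log (Real.exp_pos _) h1
    exact Pool.Agent.W586.WP.GG_zero hs' y (by rw [ha]; linarith)
  have hLk := Pool.Agent.W366.WQ.linkg Pool.Agent.W100.WP.ar M f a ha0 hf hs' hG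
  refine ⟨_, hLk, ?_⟩
  set h : ℝ → ℝ := fun x => f (a * x) with hh
  have hCd : ContDiff ℝ 2 h := hf.comp (contDiff_const.mul contDiff_id)
  have h0 : ∀ x, 1 ≤ |x| → h x = 0 := by
    intro x hx
    apply hs'
    rw [abs_mul, abs_of_pos ha0]
    nlinarith
  have hsub : ∀ F : ℝ → ℝ, (∀ x, a ≤ |x| → F x = 0) →
      a * (∫ x in (-1 : ℝ)..1, F (a * x)) = ∫ x, F x := by
    intro F hF
    have h1 := intervalIntegral.mul_integral_comp_mul_left (a := -1) (b := 1) (f := F) a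
    rw [h1, mul_neg, mul_one, intervalIntegral.integral_of_le (by linarith),
      setIntegral_eq_integral_of_forall_compl_eq_zero]
    intro x hx
    apply hF
    by_contra hlt
    push Not at hlt
    rw [abs_lt] at hlt
    exact hx ⟨hlt.1, hlt.2.le⟩
  have hI : a * (∫ x in (-1 : ℝ)..1, h x ^ 2) = ∫ x, f x ^ 2 :=
    hsub (fun x => f x ^ 2) (fun x hx => by rw [hs' x hx]; ring)
  have hc := hC0 M a h ha0 hCd h0
  have hch := hCh L hL
  have p0 : 0 ≤ ∫ x in (-1 : ℝ)..1, h x ^ 2 :=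
    intervalIntegral.integral_nonneg (by norm_num) (fun x _ => sq_nonneg _)
  have e1 : Real.log (2 * Real.pi * a) = Real.log (Real.pi * L) := by
    congr 1; rw [ha]; ring
  rw [e1] at hc
  have hq : -(13 * Real.exp a) * (∫ x in (-1 : ℝ)..1, h x ^ 2) ≤ QN M a h := by
    refine le_trans ?_ hc
    refine mul_le_mul_of_nonneg_right ?_ p0
    linarith
  rw [← hI]
  calc -(13 * Real.exp a) * (a * ∫ x in (-1 : ℝ)..1, h x ^ 2) =
      a * (-(13 * Real.exp a) * ∫ x in (-1 : ℝ)..1, h x ^ 2) := by ring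
    _ ≤ a * QN M a h := mul_le_mul_of_nonneg_left hq ha0.le

/-- complex case, general lower bound -/
theorem low_all (hC0 : S_COER0) (hCh : S_CHEBL) {L : ℝ} (hL : Real.log 5 ≤ L) (f : ℝ → ℂ)
    (hf : Test L f) : ∃ W : ℝ, Weil f W ∧ -(13 * Real.exp (L / 2)) * (∫ x, ‖f x‖ ^ 2) ≤ W := by
  have hl5 : 0 < Real.log 5 := Real.log_pos (by norm_num)
  obtain ⟨c, hs⟩ := hf.2
  obtain ⟨W, h1, h2⟩ := final_p (Λ := L) (κ := -(13 * Real.exp (L / 2))) (fun _ => True)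
    (by linarith) (fun g hg hgs _ => real_low hC0 hCh hL g hg hgs) f hf.1 c hs trivial trivial
  exact ⟨W, h1, h2⟩

theorem bddBelow (hC0 : S_COER0) (hCh : S_CHEBL) (L : ℝ) :
    BddBelow {W : ℝ | ∃ f : ℝ → ℂ, Test L f ∧ ∫ u, ‖f u‖ ^ 2 = 1 ∧ Weil f W} := by
  refine ⟨-(13 * Real.exp (max L (Real.log 5) / 2)), ?_⟩
  rintro W ⟨f, hf, hn, hW⟩
  obtain ⟨W', h1, h2⟩ := low_all hC0 hCh (le_max_right L (Real.log 5)) f (hf.mono (le_max_left _ _))
  rw [hn, mul_one] at h2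
  rwa [hW.unique h1]

/-- the bottom is a lower bound -/
theorem bottom_le (hC0 : S_COER0) (hCh : S_CHEBL) {L : ℝ} {f : ℝ → ℂ} (hf : Test L f) {W : ℝ}
    (hW : Weil f W) : bottom L * (∫ u, ‖f u‖ ^ 2) ≤ W := by
  set I := ∫ u, ‖f u‖ ^ 2 with hI
  have hI0 : 0 ≤ I := integral_nonneg fun u => by positivity
  rcases hI0.eq_or_lt with h0 | h0
  · -- f = 0
    have hf0 : ∀ u, f u = 0 := by
      have h1 := (integral_eq_zero_iff_of_nonneg (fun u => by positivity) hf.int).1 (hI ▸ h0.symm)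
      have h2 : (fun u => ‖f u‖ ^ 2) = 0 :=
        (Continuous.ae_eq_iff_eq volume (hf.1.continuous.norm.pow 2) continuous_zero).1 h1
      intro u
      have := congrFun h2 u
      simpa using this
    have : W = 0 := by
      have hz : Weil f 0 := by
        unfold Weil
        have e : (fun ρ : Zr => (mult ρ : ℂ) * (lap f ((ρ : ℂ) - 1 / 2) *
            conj (lap f (1 / 2 - conj (ρ : ℂ))))) = fun _ => 0 := by
          funext ρ
          simp [lap, hf0]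
        rw [e]
        simp
      exact hW.unique hz
    rw [← h0, this, mul_zero]
  · have hm : (I⁻¹ * W) ∈ {W : ℝ | ∃ f : ℝ → ℂ, Test L f ∧ ∫ u, ‖f u‖ ^ 2 = 1 ∧ Weil f W} := by
      refine ⟨fun u => (((Real.sqrt I)⁻¹ : ℝ) : ℂ) * f u, hf.smul _, ?_, ?_⟩
      · have e1 : (fun u => ‖(((Real.sqrt I)⁻¹ : ℝ) : ℂ) * f u‖ ^ 2) =
            fun u => I⁻¹ * ‖f u‖ ^ 2 := by
          funext u
          rw [norm_mul, mul_pow, Complex.norm_real, Real.norm_eq_abs, sq_abs, inv_pow,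
            Real.sq_sqrt h0.le]
        rw [e1, integral_const_mul, ← hI, inv_mul_cancel₀ h0.ne']
      · have := hW.smul (Real.sqrt I)⁻¹
        rwa [inv_pow, Real.sq_sqrt h0.le] at this
    have := csInf_le (bddBelow hC0 hCh L) hm
    have h2 : bottom L ≤ I⁻¹ * W := this
    calc bottom L * I ≤ (I⁻¹ * W) * I := mul_le_mul_of_nonneg_right h2 hI0
      _ = W := by field_simp

theorem le_bottom {L κ : ℝ} (hL : 0 < L) (hW : ∀ f, Test L f → ∫ u, ‖f u‖ ^ 2 = 1 → ∀ W, Weil f W →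
    κ ≤ W) (hex : ∀ f, Test L f → ∃ W, Weil f W) : κ ≤ bottom L := by
  obtain ⟨f, hf, hn⟩ := exists_test hL
  obtain ⟨W, h⟩ := hex f hf
  refine le_csInf ⟨W, f, hf, hn, h⟩ ?_
  rintro W' ⟨g, hg, hgn, hgW⟩
  exact hW g hg hgn W' hgW

theorem bottom_le_of {L κ : ℝ} (hC0 : S_COER0) (hCh : S_CHEBL) {f : ℝ → ℂ} (hf : ContDiff ℝ 2 f)
    (hs : ∀ u, L / 2 < |u| → f u = 0) (hp : 0 < ∫ u, ‖f u‖ ^ 2)
    (hW : ∀ W : ℝ, Weil f W → W ≤ κ * ∫ u, ‖f u‖ ^ 2) : bottom L ≤ κ := by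
  have hT : Test L f := ⟨hf, 0, fun u hu => hs u (by simpa using hu)⟩
  obtain ⟨W, h1, _⟩ := low_all hC0 hCh (le_max_right L (Real.log 5)) f (hT.mono (le_max_left _ _))
  have h2 := bottom_le hC0 hCh hT h1
  exact le_of_mul_le_mul_right (h2.trans (hW W h1)) hp

/-- on the Riemann hypothesis the Weil form is nonnegative -/
theorem rhp : S_RHP := by
  intro hR f W hW
  have h1 : HasSum (fun ρ : Zr => ((mult ρ : ℂ) *
    (lap f ((ρ : ℂ) - 1 / 2) * conj (lap f (1 / 2 - conj (ρ : ℂ))))).re) W := by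
    have := Complex.hasSum_re hW
    simpa using this
  refine h1.nonneg fun ρ => ?_
  have hre : (ρ : ℂ).re = 1 / 2 := by
    refine hR ρ ρ.2.1 ?_ ?_
    · rintro ⟨n, hn⟩
      have h2 := ρ.2.2.1
      rw [hn] at h2
      have h3 : (-2 * ((n : ℂ) + 1)).re = -2 * ((n : ℝ) + 1) := by simp
      rw [h3] at h2
      have : (0 : ℝ) ≤ n := Nat.cast_nonneg n
      linarith
    · intro h
      have h2 := ρ.2.2.2
      rw [h] at h2
      simp at h2
  have e : (1 / 2 - conj (ρ : ℂ)) = (ρ : ℂ) - 1 / 2 := by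
    apply Complex.ext
    · simp [hre]
    · simp
  rw [e, Complex.mul_conj]
  have : ((mult (ρ : ℂ) : ℂ) * (Complex.normSq (lap f ((ρ : ℂ) - 1 / 2)) : ℂ)) =
      (((mult (ρ : ℂ) : ℝ) * Complex.normSq (lap f ((ρ : ℂ) - 1 / 2)) : ℝ) : ℂ) := by
    push_cast; rfl
  rw [this, Complex.ofReal_re]
  exact mul_nonneg (Nat.cast_nonneg _) (Complex.normSq_nonneg _)

theorem bot_main (hC : S_COER) (hC0 : S_COER0) (hCh : S_CHEBL) (hUp : S_UP) (hNeg : S_NEG) :
    (∀ (L : ℝ) (f : ℝ → ℂ), Test L f → ∃ W : ℝ, Weil f W ∧ bottom L * (∫ u, ‖f u‖ ^ 2) ≤ W) ∧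
    (∀ L : ℝ, 0 < L → L ≤ Real.log 5 → 3 / 10 ^ 18 ≤ bottom L) ∧
    (∀ L : ℝ, Real.log 5 ≤ L → -(13 * Real.exp (L / 2)) ≤ bottom L ∧
      ∀ f : ℝ → ℂ, Test L f →
        (∀ k : ℕ, (k : ℝ) < Real.exp (13 * Real.exp (L / 2)) → ∫ u : ℝ, f u * (u : ℂ) ^ k = 0) →
        ∀ W : ℝ, Weil f W → ∫ u, ‖f u‖ ^ 2 ≤ W) ∧
    (∀ c : ℝ, c < 4 * Real.pi → ∀ᶠ L : ℝ in atTop, bottom L ≤ Real.exp (-(c * Real.exp L))) ∧
    (∀ θ : ℝ, 1 / 2 ≤ θ → (∃ s : ℂ, riemannZeta s = 0 ∧ θ < s.re) →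
      ∀ᶠ L : ℝ in atTop, bottom L ≤ -Real.exp ((θ - 1 / 2) * L)) ∧
    (RiemannHypothesis ↔ ∀ ε : ℝ, 0 < ε → ∃ᶠ L : ℝ in atTop, -Real.exp (ε * L) ≤ bottom L) := by
  have hl5 : 0 < Real.log 5 := Real.log_pos (by norm_num)
  have hex : ∀ (L : ℝ) (f : ℝ → ℂ), Test L f → ∃ W : ℝ, Weil f W := fun L f hf =>
    (low_all hC0 hCh (le_max_right L (Real.log 5)) f (hf.mono (le_max_left _ _))).imp
      fun W h => h.1
  have hneg : ∀ θ : ℝ, 1 / 2 ≤ θ → (∃ s : ℂ, riemannZeta s = 0 ∧ θ < s.re) →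
      ∀ᶠ L : ℝ in atTop, bottom L ≤ -Real.exp ((θ - 1 / 2) * L) := by
    intro θ hθ hz
    filter_upwards [hNeg θ hθ hz] with L ⟨f, hf, hs, hp, hW⟩
    exact bottom_le_of hC0 hCh hf hs hp hW
  refine ⟨?_, ?_, ?_, ?_, hneg, ?_, ?_⟩
  · intro L f hf
    obtain ⟨W, hW⟩ := hex L f hf
    exact ⟨W, hW, bottom_le hC0 hCh hf hW⟩
  · intro L hL hL5
    refine le_bottom hL (fun f hf hn W hW => ?_) (hex L)
    obtain ⟨c, hs⟩ := hf.2
    obtain ⟨W', h1, h2⟩ := final5 f hf.1 c (fun x hx => hs x (by linarith))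
    rw [hn, mul_one] at h2
    rwa [hW.unique h1]
  · intro L hL
    refine ⟨le_bottom (by linarith) (fun f hf hn W hW => ?_) (hex L), ?_⟩
    · obtain ⟨W', h1, h2⟩ := low_all hC0 hCh hL f hf
      rw [hn, mul_one] at h2
      rwa [hW.unique h1]
    · intro f hf ho W hW
      obtain ⟨c, hs⟩ := hf.2
      obtain ⟨W', h1, h2⟩ := all_one hC hCh f hf.1 L c hL hs
        (fun k hk => ho k (Nat.lt_ceil.1 hk))
      rw [one_mul] at h2
      rwa [hW.unique h1]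
  · intro c hc
    filter_upwards [hUp c hc] with L ⟨f, hf, hs, hp, hW⟩
    exact bottom_le_of hC0 hCh hf hs hp hW
  · intro hR ε hε
    refine (Eventually.frequently ?_)
    filter_upwards [eventually_gt_atTop 0] with L hL
    refine le_trans (neg_nonpos.2 (Real.exp_pos _).le) ?_
    exact le_bottom hL (fun f _ _ W hW => rhp hR f W hW) (hex L)
  · intro h
    rw [Pool.Agent.W190.rh_free]
    intro s hs h0
    have h1 := hneg ((1 / 2 + s.re) / 2) (by linarith) ⟨s, h0, by linarith⟩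
    have h2 := h ((s.re - 1 / 2) / 4) (by linarith)
    obtain ⟨L, ⟨h3, h4⟩, h5⟩ := (h2.and_eventually h1).and_eventually (eventually_gt_atTop 0) |>.exists
    have h6 := h3.trans h4
    have h7 : Real.exp ((s.re - 1 / 2) / 4 * L) < Real.exp (((1 / 2 + s.re) / 2 - 1 / 2) * L) := by
      apply Real.exp_lt_exp.2
      nlinarith
    linarith

end Pool.Agent.W187.WQ
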