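import Mathlib
import Pool.Agent.W187.WQ.Bot
import Pool.Agent.W12.WQ.Coer
import Pool.Agent.W12.WQ.Coer0
import Pool.Agent.W12.WQ.Chebl
import Pool.Agent.W571.WQ.KP
import Pool.Agent.W571.WQ.KO
import Pool.Agent.W571.WQ.Poi
import Pool.Agent.W976.WQ.Up
import Pool.Agent.W976.WQ.Neg
import Pool.Agent.W806.WQ.Mel
import Pool.Agent.W337.WQ.Win
import Pool.Agent.W918.WQ.Qx

/-!
# The bottom of the Weil form: all parts together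
-/

open Complex MeasureTheory Set Filter
open scoped Convolution ComplexConjugate
open Pool.Agent.W187.WP

namespace Pool.Agent.W187.WQ

theorem heng : S_ENg := Pool.Agent.W45.WQ.eng Pool.Agent.W120.WP.tri

theorem bot_all :
    (∀ (L : ℝ) (f : ℝ → ℂ), Test L f → ∃ W : ℝ, Weil f W ∧ bottom L * (∫ u, ‖f u‖ ^ 2) ≤ W) ∧
    (∀ L : ℝ, 0 < L → L ≤ Real.log 5 → 3 / 10 ^ 18 ≤ bottom L) ∧
    (∀ L : ℝ, Real.log 5 ≤ L → -(13 * Real.exp (L / 2)) ≤ bottom L ∧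
      ∀ f : ℝ → ℂ, Test L f →
        (∀ k : ℕ, (k : ℝ) < Real.exp (13 * Real.exp (L / 2)) → ∫ u : ℝ, f u * (u : ℂ) ^ k = 0) →
        ∀ W : ℝ, Weil f W → ∫ u, ‖f u‖ ^ 2 ≤ W) ∧
    (∀ c : ℝ, c < 4 * Real.pi → ∀ᶠ L : ℝ in atTop, bottom L ≤ Real.exp (-(c * Real.exp L))) ∧
    (∀ θ : ℝ, 1 / 2 ≤ θ → (∃ s : ℂ, riemannZeta s = 0 ∧ θ < s.re) →
      ∀ᶠ L : ℝ in atTop, bottom L ≤ -Real.exp ((θ - 1 / 2) * L)) ∧
    (RiemannHypothesis ↔ ∀ ε : ℝ, 0 < ε → ∃ᶠ L : ℝ in atTop, -Real.exp (ε * L) ≤ bottom L) :=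
  bot_main (Pool.Agent.W12.WQ.coer heng (Pool.Agent.W449.WP.tk Pool.Agent.W120.WP.tx))
    (Pool.Agent.W12.WQ.coer0 heng) Pool.Agent.W12.WQ.chebl
    (Pool.Agent.W976.WQ.up (Pool.Agent.W918.WQ.qx Pool.Agent.W337.WQ.win Pool.Agent.W571.WQ.Poi.poi
      Pool.Agent.W806.WQ.mel))
    (Pool.Agent.W976.WQ.neg (Pool.Agent.W571.WQ.KP.kp Pool.Agent.W571.WQ.ko))

end Pool.Agent.W187.WQ
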